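import Pool.Agent.D0H31.DS.Content

/-! # Compact subsets of Borel sets with positive content -/

set_option autoImplicit false

open MeasureTheory Set Filter Topology

namespace Pool.Agent.D0H31.DS

noncomputable section

/-- the shifted family -/
def shf (S : Set (ℕ × ℤ)) : Set (ℕ × ℤ) := {q | (q.1, q.2 + 1) ∈ S}

lemma WW_shf (s : ℝ) (S : Set (ℕ × ℤ)) : WW s (shf S) = WW s S := by
  rw [WW_apply, WW_apply]
  let e : ℕ × ℤ ≃ ℕ × ℤ := (Equiv.refl ℕ).prodCongr (Equiv.addRight (1:ℤ))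
  rw [← e.tsum_eq (fun q => S.indicator (ww s) q)]
  refine tsum_congr fun q => ?_
  have he : e q = (q.1, q.2 + 1) := rfl
  rw [he]
  by_cases h : (q.1, q.2 + 1) ∈ S
  · have h' : q ∈ shf S := h
    rw [Set.indicator_of_mem h, Set.indicator_of_mem h']
    rfl
  · have h' : q ∉ shf S := h
    rw [Set.indicator_of_notMem h, Set.indicator_of_notMem h']

/-- open enlargement -/
def OO (q : ℕ × ℤ) : Set ℝ := Ioo (((q.2:ℝ) - 1) / 2 ^ q.1) (((q.2:ℝ) + 1) / 2 ^ q.1)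

lemma II_sub_OO (q : ℕ × ℤ) : II q ⊆ OO q := by
  intro x hx
  have hx' : ⌊(2:ℝ) ^ q.1 * x⌋ = q.2 := hx
  rw [Int.floor_eq_iff] at hx'
  have h2 : (0:ℝ) < 2 ^ q.1 := by positivity
  constructor
  · rw [div_lt_iff₀ h2]; linarith [hx'.1]
  · rw [lt_div_iff₀ h2]; linarith [hx'.2]

lemma OO_sub {S : Set (ℕ × ℤ)} {q : ℕ × ℤ} (hq : q ∈ S) : OO q ⊆ UI (S ∪ shf S) := by
  intro x hx
  obtain ⟨h1, h2⟩ := hx
  have h3 : (0:ℝ) < 2 ^ q.1 := by positivity
  rw [div_lt_iff₀ h3] at h1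
  rw [lt_div_iff₀ h3] at h2
  rcases lt_or_ge ((2:ℝ) ^ q.1 * x) q.2 with h | h
  · refine mem_UI.mpr ⟨(q.1, q.2 - 1), Or.inr ?_, ?_⟩
    · change (q.1, q.2 - 1 + 1) ∈ S
      rw [sub_add_cancel]
      exact hq
    · change ⌊(2:ℝ) ^ q.1 * x⌋ = q.2 - 1
      rw [Int.floor_eq_iff]
      push_cast
      constructor <;> linarith
  · refine mem_UI.mpr ⟨q, Or.inl hq, ?_⟩
    change ⌊(2:ℝ) ^ q.1 * x⌋ = q.2
    rw [Int.floor_eq_iff]
    constructor <;> linarith

/-- boxes in Baire space -/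
def Bx (σ : ℕ → ℕ) (k : ℕ) : Set (ℕ → ℕ) := {x | ∀ i < k, x i ≤ σ i}

lemma exists_sigma {s : ℝ} {f : (ℕ → ℕ) → ℝ} {c : ENNReal} (hc : c ≠ ⊤)
    (h : c < MM s (Set.range f)) : ∃ σ : ℕ → ℕ, ∀ k, c < MM s (f '' Bx σ k) := by
  classical
  have hstep : ∀ (F : Set (ℕ → ℕ)) (k : ℕ), c < MM s (f '' F) →
      ∃ n : ℕ, c < MM s (f '' (F ∩ {x | x k ≤ n})) := by
    intro F k hF
    by_contra hcon
    push Not at hcon
    have h1 : f '' F = ⋃ n : ℕ, f '' (F ∩ {x | x k ≤ n}) := by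
      rw [← Set.image_iUnion, ← Set.inter_iUnion]
      congr 1
      refine (Set.inter_eq_left.mpr fun x _ => ?_).symm
      exact Set.mem_iUnion.mpr ⟨x k, le_refl (x k)⟩
    have h2 := increasing (s := s) (A := fun n : ℕ => f '' (F ∩ {x | x k ≤ n})) (by
      intro n n' hnn
      refine Set.image_mono ?_
      rintro x ⟨hx1, hx2⟩
      exact ⟨hx1, le_trans hx2 hnn⟩) hc hcon
    rw [← h1] at h2
    exact absurd hF (not_lt.mpr h2)
  let G : ℕ → {F : Set (ℕ → ℕ) // c < MM s (f '' F)} := fun n =>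
    Nat.rec ⟨Set.univ, by rwa [Set.image_univ]⟩
      (fun k Fk => ⟨Fk.1 ∩ {x | x k ≤ Classical.choose (hstep Fk.1 k Fk.2)},
        Classical.choose_spec (hstep Fk.1 k Fk.2)⟩) n
  let σ : ℕ → ℕ := fun k => Classical.choose (hstep (G k).1 k (G k).2)
  have hG : ∀ k, (G k).1 = Bx σ k := by
    intro k
    induction k with
    | zero =>
      change Set.univ = Bx σ 0
      ext x
      simp [Bx]
    | succ k ih =>
      have h1 : (G (k + 1)).1 = (G k).1 ∩ {x | x k ≤ σ k} := rfl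
      rw [h1, ih]
      ext x
      constructor
      · rintro ⟨hx1, hx2⟩ i hi
        rcases Nat.lt_succ_iff_lt_or_eq.mp hi with h | h
        · exact hx1 i h
        · rw [h]; exact hx2
      · intro hx
        exact ⟨fun i hi => hx i (Nat.lt_succ_of_lt hi), hx k (Nat.lt_succ_self k)⟩
  exact ⟨σ, fun k => by rw [← hG k]; exact (G k).2⟩

lemma box_compact (σ : ℕ → ℕ) : IsCompact {x : ℕ → ℕ | ∀ i, x i ≤ σ i} := by
  have : {x : ℕ → ℕ | ∀ i, x i ≤ σ i} = Set.univ.pi fun i => Set.Iic (σ i) := by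
    ext x
    rw [Set.mem_univ_pi]
    rfl
  rw [this]
  exact isCompact_univ_pi fun i => (Set.finite_Iic _).isCompact

lemma box_open {f : (ℕ → ℕ) → ℝ} (hf : Continuous f) (σ : ℕ → ℕ) {U : Set ℝ} (hU : IsOpen U)
    (hKU : f '' {x : ℕ → ℕ | ∀ i, x i ≤ σ i} ⊆ U) : ∃ k, f '' Bx σ k ⊆ U := by
  by_contra hcon
  push Not at hcon
  have h1 : ∀ k, ∃ x : ℕ → ℕ, x ∈ Bx σ k ∧ f x ∉ U := by
    intro k
    obtain ⟨y, ⟨x, hx, rfl⟩, hy⟩ := Set.not_subset.mp (hcon k)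
    exact ⟨x, hx, hy⟩
  choose X hX1 hX2 using h1
  let τ : ℕ → ℕ := fun i => max (σ i) ((Finset.range (i + 1)).sup fun k => X k i)
  have hXτ : ∀ k, X k ∈ {x : ℕ → ℕ | ∀ i, x i ≤ τ i} := by
    intro k i
    rcases lt_or_ge i k with h | h
    · exact (hX1 k i h).trans (le_max_left _ _)
    · refine le_trans ?_ (le_max_right _ _)
      exact Finset.le_sup (f := fun k => X k i) (Finset.mem_range.mpr (Nat.lt_succ_of_le h))
  obtain ⟨x, _, φ, hφ, hlim⟩ := (box_compact τ).tendsto_subseq hXτ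
  have hx : x ∈ {x : ℕ → ℕ | ∀ i, x i ≤ σ i} := by
    intro i
    have h2 : Tendsto (fun n => X (φ n) i) atTop (𝓝 (x i)) :=
      ((continuous_apply i).tendsto x).comp hlim
    refine le_of_tendsto h2 ?_
    filter_upwards [eventually_gt_atTop i] with n hn
    exact hX1 (φ n) i (lt_of_lt_of_le hn (hφ.id_le n))
  have h3 : Tendsto (fun n => f (X (φ n))) atTop (𝓝 (f x)) := (hf.tendsto x).comp hlim
  have h4 : f x ∈ Uᶜ := hU.isClosed_compl.mem_of_tendsto h3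
    (Eventually.of_forall fun n => hX2 (φ n))
  exact h4 (hKU (Set.mem_image_of_mem f hx))

/-- Borel sets of positive net content contain compact sets of positive net content -/
theorem exists_compact {s : ℝ} {A : Set ℝ} (hA : MeasurableSet A) (h : 0 < MM s A) :
    ∃ K ⊆ A, IsCompact K ∧ 0 < MM s K := by
  have hne : A ≠ ∅ := by
    rintro rfl
    have : MM s (∅ : Set ℝ) ≤ WW s ∅ := MM_le (Set.empty_subset _)
    rw [measure_empty] at this
    exact absurd h (not_lt.mpr this)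
  have hAn := hA.analyticSet
  rw [AnalyticSet] at hAn
  rcases hAn with h0 | ⟨f, hf, hfA⟩
  · exact absurd h0 hne
  obtain ⟨c, hc0, hc⟩ := exists_between h
  rw [← hfA] at hc
  have hctop : c ≠ ⊤ := ne_top_of_lt hc
  obtain ⟨σ, hσ⟩ := exists_sigma hctop hc
  refine ⟨f '' {x : ℕ → ℕ | ∀ i, x i ≤ σ i}, ?_, (box_compact σ).image hf, ?_⟩
  · rw [← hfA]
    exact Set.image_subset_range _ _
  · have h1 : c / 2 ≤ MM s (f '' {x : ℕ → ℕ | ∀ i, x i ≤ σ i}) := by
      refine le_iInf₂ fun S hS => ?_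
      obtain ⟨k, hk⟩ := box_open hf σ (U := ⋃ q ∈ S, OO q)
        (isOpen_biUnion fun q _ => isOpen_Ioo) (by
          intro x hx
          obtain ⟨q, hq, hxq⟩ := mem_UI.mp (hS hx)
          exact Set.mem_iUnion₂.mpr ⟨q, hq, II_sub_OO q hxq⟩)
      have h2 : f '' Bx σ k ⊆ UI (S ∪ shf S) :=
        hk.trans (Set.iUnion₂_subset fun q hq => OO_sub hq)
      have h3 := (hσ k).le.trans ((MM_le h2).trans (measure_union_le _ _))
      rw [WW_shf, ← two_mul] at h3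
      exact ENNReal.div_le_of_le_mul' h3
    exact lt_of_lt_of_le (ENNReal.half_pos hc0.ne') h1

end

end Pool.Agent.D0H31.DS
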