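import Mathlib

/-! # Dyadic net content and the increasing sets lemma -/

set_option autoImplicit false

open MeasureTheory Set Filter

namespace Pool.Agent.D0H31.DS

noncomputable section

/-- dyadic interval -/
def II (q : ℕ × ℤ) : Set ℝ := {x | ⌊2 ^ q.1 * x⌋ = q.2}

lemma mem_II (k : ℕ) (x : ℝ) : x ∈ II (k, ⌊2 ^ k * x⌋) := rfl

lemma nested_aux {c c' : ℕ} (h : c' ≤ c) {x y : ℝ} (hxy : ⌊(2:ℝ) ^ c * y⌋ ≤ ⌊(2:ℝ) ^ c * x⌋) :
    ⌊(2:ℝ) ^ c' * y⌋ ≤ ⌊(2:ℝ) ^ c' * x⌋ := by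
  by_contra hcon
  push Not at hcon
  obtain ⟨e, rfl⟩ := Nat.exists_eq_add_of_le h
  set b : ℤ := ⌊(2:ℝ) ^ c' * y⌋ with hb
  have h1 : (2:ℝ) ^ c' * x < b := Int.floor_lt.mp hcon
  have h2 : (b:ℝ) ≤ 2 ^ c' * y := Int.floor_le _
  have he : (0:ℝ) < 2 ^ e := by positivity
  have h3 : (2:ℝ) ^ (c' + e) * x < ((b * 2 ^ e : ℤ) : ℝ) := by
    push_cast
    rw [pow_add]
    nlinarith
  have h4 : ((b * 2 ^ e : ℤ) : ℝ) ≤ (2:ℝ) ^ (c' + e) * y := by
    push_cast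
    rw [pow_add]
    nlinarith
  have h5 := Int.floor_lt.mpr h3
  have h6 := Int.le_floor.mpr h4
  omega

lemma nested {C q : ℕ × ℤ} (h : q.1 ≤ C.1) {x : ℝ} (hC : x ∈ II C) (hq : x ∈ II q) :
    II C ⊆ II q := by
  intro y hy
  unfold II at *
  rw [Set.mem_setOf_eq] at *
  rw [← hq]
  rw [← hC] at hy
  exact le_antisymm (nested_aux h hy.le) (nested_aux h hy.ge)

/-- `C` is inside `q` -/
def Ins (C q : ℕ × ℤ) : Prop := q.1 ≤ C.1 ∧ II C ⊆ II q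

lemma Ins.trans {a b c : ℕ × ℤ} (h1 : Ins a b) (h2 : Ins b c) : Ins a c :=
  ⟨h2.1.trans h1.1, h1.2.trans h2.2⟩

lemma ins_or {C q : ℕ × ℤ} {x : ℝ} (hC : x ∈ II C) (hq : x ∈ II q) : Ins C q ∨ Ins q C := by
  rcases le_total q.1 C.1 with h | h
  · exact Or.inl ⟨h, nested h hC hq⟩
  · exact Or.inr ⟨h, nested h hq hC⟩

/-- union of a family -/
def UI (S : Set (ℕ × ℤ)) : Set ℝ := ⋃ q ∈ S, II q

lemma mem_UI {S : Set (ℕ × ℤ)} {x : ℝ} : x ∈ UI S ↔ ∃ q ∈ S, x ∈ II q := by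
  unfold UI
  simp only [Set.mem_iUnion, exists_prop]

/-- cost -/
def ww (s : ℝ) (q : ℕ × ℤ) : ENNReal := ENNReal.ofReal ((2:ℝ) ^ (-(s * q.1)))

/-- the cost measure -/
def WW (s : ℝ) : Measure (ℕ × ℤ) := Measure.count.withDensity (ww s)

lemma WW_apply (s : ℝ) (S : Set (ℕ × ℤ)) : WW s S = ∑' q, S.indicator (ww s) q := by
  unfold WW
  rw [withDensity_apply _ (MeasurableSet.of_discrete), ← lintegral_indicator MeasurableSet.of_discrete,
    lintegral_count]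

/-- members of `R` which are not inside a member of `Q` -/
def keep (R Q : Set (ℕ × ℤ)) : Set (ℕ × ℤ) := {C | C ∈ R ∧ ∀ q ∈ Q, ¬ Ins C q}

/-- members of `Q` inside a kept member of `R` -/
def insd (R Q : Set (ℕ × ℤ)) : Set (ℕ × ℤ) := {q | q ∈ Q ∧ ∃ C ∈ keep R Q, Ins q C}

/-- merged family -/
def merge (R Q : Set (ℕ × ℤ)) : Set (ℕ × ℤ) := keep R Q ∪ (Q \ insd R Q)

lemma merge_cover_right {R Q : Set (ℕ × ℤ)} {x : ℝ} {q : ℕ × ℤ} (hq : q ∈ Q) (hx : x ∈ II q) :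
    ∃ C ∈ merge R Q, x ∈ II C ∧ C.1 ≤ q.1 := by
  by_cases h : q ∈ insd R Q
  · obtain ⟨_, C, hC, hCq⟩ := h
    exact ⟨C, Or.inl hC, hCq.2 hx, hCq.1⟩
  · exact ⟨q, Or.inr ⟨hq, h⟩, hx, le_rfl⟩

lemma merge_cover_left {R Q : Set (ℕ × ℤ)} {x : ℝ} {C : ℕ × ℤ} (hC : C ∈ R) (hx : x ∈ II C) :
    ∃ C' ∈ merge R Q, x ∈ II C' ∧ C'.1 ≤ C.1 := by
  by_cases h : C ∈ keep R Q
  · exact ⟨C, Or.inl h, hx, le_rfl⟩
  · have h' : ∃ q ∈ Q, Ins C q := by
      by_contra hcon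
      push Not at hcon
      exact h ⟨hC, hcon⟩
    obtain ⟨q, hq, hCq⟩ := h'
    obtain ⟨C', hC', hx', hle⟩ := merge_cover_right (R := R) hq (hCq.2 hx)
    exact ⟨C', hC', hx', hle.trans hCq.1⟩

/-- net content -/
def MM (s : ℝ) (A : Set ℝ) : ENNReal := ⨅ (S : Set (ℕ × ℤ)) (_ : A ⊆ UI S), WW s S

lemma MM_le {s : ℝ} {A : Set ℝ} {S : Set (ℕ × ℤ)} (h : A ⊆ UI S) : MM s A ≤ WW s S :=
  iInf₂_le S h

lemma MM_mono {s : ℝ} {A B : Set ℝ} (h : A ⊆ B) : MM s A ≤ MM s B :=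
  le_iInf₂ fun _ hS => MM_le (h.trans hS)

lemma exists_cover {s : ℝ} {A : Set ℝ} (hA : MM s A ≠ ⊤) {ε : ENNReal} (hε : ε ≠ 0) :
    ∃ S : Set (ℕ × ℤ), A ⊆ UI S ∧ WW s S ≤ MM s A + ε := by
  by_contra hcon
  push Not at hcon
  have h1 : MM s A + ε ≤ MM s A := le_iInf₂ fun S hS => (hcon S hS).le
  exact absurd h1 (not_le.mpr (ENNReal.lt_add_right hA hε))

lemma merge_cost {s : ℝ} {A A' : Set ℝ} (hAA : A ⊆ A') {R Q : Set (ℕ × ℤ)} (hA : A ⊆ UI R)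
    (hA' : A' ⊆ UI Q) {E : ENNReal} (hR : WW s R ≤ MM s A + E) (hfin : WW s R ≠ ⊤) :
    WW s (merge R Q) ≤ WW s Q + E := by
  have hcov : A ⊆ UI ((R \ keep R Q) ∪ insd R Q) := by
    intro x hx
    obtain ⟨C, hC, hxC⟩ := mem_UI.mp (hA hx)
    by_cases hk : C ∈ keep R Q
    · obtain ⟨q, hq, hxq⟩ := mem_UI.mp (hA' (hAA hx))
      rcases ins_or hxC hxq with h | h
      · exact absurd h (hk.2 q hq)
      · exact mem_UI.mpr ⟨q, Or.inr ⟨hq, C, hk, h⟩, hxq⟩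
    · exact mem_UI.mpr ⟨C, Or.inl ⟨hC, hk⟩, hxC⟩
  have hMA : MM s A ≤ WW s (R \ keep R Q) + WW s (insd R Q) :=
    (MM_le hcov).trans (measure_union_le _ _)
  have hsub : keep R Q ⊆ R := fun C hC => hC.1
  have hsplit : WW s R = WW s (R \ keep R Q) + WW s (keep R Q) := by
    rw [← measure_union (Set.disjoint_sdiff_left) MeasurableSet.of_discrete]
    congr 1
    exact (Set.diff_union_of_subset hsub).symm
  have hfin' : WW s (R \ keep R Q) ≠ ⊤ :=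
    ne_top_of_le_ne_top hfin (measure_mono Set.diff_subset)
  have hkeep : WW s (keep R Q) ≤ WW s (insd R Q) + E := by
    have h1 : WW s (R \ keep R Q) + WW s (keep R Q) ≤
        WW s (R \ keep R Q) + (WW s (insd R Q) + E) := by
      rw [← hsplit, ← add_assoc]
      exact hR.trans (add_le_add_left hMA E)
    exact (ENNReal.add_le_add_iff_left hfin').mp h1
  have hins : insd R Q ⊆ Q := fun q hq => hq.1
  have hQ : WW s Q = WW s (insd R Q) + WW s (Q \ insd R Q) := by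
    rw [← measure_union (Set.disjoint_sdiff_right) MeasurableSet.of_discrete]
    congr 1
    exact (Set.union_diff_cancel hins).symm
  calc WW s (merge R Q) ≤ WW s (keep R Q) + WW s (Q \ insd R Q) := measure_union_le _ _
    _ ≤ (WW s (insd R Q) + E) + WW s (Q \ insd R Q) := by gcongr
    _ = WW s Q + E := by rw [hQ]; ring

/-- the increasing sets lemma -/
theorem increasing {s : ℝ} {A : ℕ → Set ℝ} (hA : Monotone A) {c : ENNReal} (hc : c ≠ ⊤)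
    (h : ∀ n, MM s (A n) ≤ c) : MM s (⋃ n, A n) ≤ c := by
  refine ENNReal.le_of_forall_pos_le_add fun ε hε _ => ?_
  obtain ⟨ε', hε'pos, hε'sum⟩ := ENNReal.exists_pos_sum_of_countable
    (ε := (ε : ENNReal)) (by exact_mod_cast hε.ne') ℕ
  have hfinA : ∀ n, MM s (A n) ≠ ⊤ := fun n => ne_top_of_le_ne_top hc (h n)
  have hex : ∀ n, ∃ S : Set (ℕ × ℤ), A n ⊆ UI S ∧ WW s S ≤ MM s (A n) + ε' n := fun n =>
    exists_cover (hfinA n) (by exact_mod_cast (hε'pos n).ne')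
  choose Q hQc hQw using hex
  let R : ℕ → Set (ℕ × ℤ) := fun n => Nat.rec (Q 0) (fun k Rk => merge Rk (Q (k + 1))) n
  have hR0 : R 0 = Q 0 := rfl
  have hRs : ∀ n, R (n + 1) = merge (R n) (Q (n + 1)) := fun _ => rfl
  have hRc : ∀ n, A n ⊆ UI (R n) := by
    intro n
    cases n with
    | zero => rw [hR0]; exact hQc 0
    | succ n =>
      rw [hRs]
      intro x hx
      obtain ⟨q, hq, hxq⟩ := mem_UI.mp (hQc (n + 1) hx)
      obtain ⟨C, hC, hxC, _⟩ := merge_cover_right (R := R n) hq hxq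
      exact mem_UI.mpr ⟨C, hC, hxC⟩
  have hsumfin : ∀ n, (∑ j ∈ Finset.range (n + 1), (ε' j : ENNReal)) ≤ ε := fun n =>
    (ENNReal.sum_le_tsum _).trans hε'sum.le
  have hRw : ∀ n, WW s (R n) ≤ MM s (A n) + ∑ j ∈ Finset.range (n + 1), (ε' j : ENNReal) := by
    intro n
    induction n with
    | zero =>
      rw [hR0]
      simpa using hQw 0
    | succ n ih =>
      have hfin : WW s (R n) ≠ ⊤ := by
        refine ne_top_of_le_ne_top ?_ ih
        exact ENNReal.add_ne_top.mpr ⟨hfinA n, ne_top_of_le_ne_top ENNReal.coe_ne_top (hsumfin n)⟩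
      rw [hRs]
      refine (merge_cost (hA (Nat.le_succ n)) (hRc n) (hQc (n + 1)) ih hfin).trans ?_
      rw [Finset.sum_range_succ _ (n + 1)]
      calc WW s (Q (n + 1)) + ∑ j ∈ Finset.range (n + 1), (ε' j : ENNReal)
          ≤ (MM s (A (n + 1)) + ε' (n + 1)) + ∑ j ∈ Finset.range (n + 1), (ε' j : ENNReal) := by
            gcongr
            exact hQw (n + 1)
        _ = _ := by ring
  -- the limit family
  let Sn : ℕ → Set (ℕ × ℤ) := fun n => ⋂ m ≥ n, R m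
  have hSmono : Monotone Sn := by
    intro n n' hnn q hq
    simp only [Sn, Set.mem_iInter] at hq ⊢
    exact fun m hm => hq m (le_trans hnn hm)
  have hSw : ∀ n, WW s (Sn n) ≤ c + ε := by
    intro n
    have h1 : Sn n ⊆ R n := fun q hq => by
      simp only [Sn, Set.mem_iInter] at hq
      exact hq n le_rfl
    refine (measure_mono h1).trans ((hRw n).trans ?_)
    gcongr
    · exact h n
    · exact hsumfin n
  have hcover : (⋃ n, A n) ⊆ UI (⋃ n, Sn n) := by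
    intro x hx
    obtain ⟨n, hn⟩ := Set.mem_iUnion.mp hx
    classical
    have hP : ∀ m, n ≤ m → ∃ l, ∃ C ∈ R m, x ∈ II C ∧ C.1 = l := by
      intro m hm
      obtain ⟨C, hC, hxC⟩ := mem_UI.mp (hRc m (hA hm hn))
      exact ⟨C.1, C, hC, hxC, rfl⟩
    let lev : ℕ → ℕ := fun m => sInf {l | ∃ C ∈ R m, x ∈ II C ∧ C.1 = l}
    have hlev : ∀ m, n ≤ m → ∃ C ∈ R m, x ∈ II C ∧ C.1 = lev m := fun m hm =>
      Nat.sInf_mem (s := {l | ∃ C ∈ R m, x ∈ II C ∧ C.1 = l}) (hP m hm)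
    have hdec : ∀ m, n ≤ m → lev (m + 1) ≤ lev m := by
      intro m hm
      obtain ⟨C, hC, hxC, hCl⟩ := hlev m hm
      obtain ⟨C', hC', hxC', hle⟩ := merge_cover_left (Q := Q (m + 1)) hC hxC
      rw [← hRs] at hC'
      refine le_trans ?_ (hle.trans hCl.le)
      exact Nat.sInf_le ⟨C', hC', hxC', rfl⟩
    -- eventually constant
    obtain ⟨m₀, hm₀, hconst⟩ : ∃ m₀, n ≤ m₀ ∧ ∀ m, m₀ ≤ m → lev m = lev m₀ := by
      let T : Set ℕ := {l | ∃ m, n ≤ m ∧ lev m = l}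
      have hT : T.Nonempty := ⟨lev n, n, le_rfl, rfl⟩
      obtain ⟨m₀, hm₀, hm₀l⟩ := Nat.sInf_mem hT
      refine ⟨m₀, hm₀, fun m hm => ?_⟩
      have h1 : ∀ j, lev (m₀ + j) ≤ lev m₀ := by
        intro j
        induction j with
        | zero => exact le_rfl
        | succ j ih => exact (hdec (m₀ + j) (by omega)).trans ih
      obtain ⟨j, rfl⟩ := Nat.exists_eq_add_of_le hm
      refine le_antisymm (h1 j) ?_
      rw [hm₀l]
      exact Nat.sInf_le ⟨m₀ + j, by omega, rfl⟩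
    refine mem_UI.mpr ⟨(lev m₀, ⌊2 ^ (lev m₀) * x⌋), ?_, mem_II _ _⟩
    rw [Set.mem_iUnion]
    refine ⟨m₀, ?_⟩
    simp only [Sn, Set.mem_iInter]
    intro m hm
    obtain ⟨C, hC, hxC, hCl⟩ := hlev m (hm₀.trans hm)
    rw [hconst m hm] at hCl
    have hCeq : C = (lev m₀, ⌊2 ^ (lev m₀) * x⌋) := by
      have h1 : ⌊(2:ℝ) ^ C.1 * x⌋ = C.2 := hxC
      rw [hCl] at h1
      exact Prod.ext hCl h1.symm
    rw [← hCeq]
    exact hC
  calc MM s (⋃ n, A n) ≤ WW s (⋃ n, Sn n) := MM_le hcover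
    _ = ⨆ n, WW s (Sn n) := hSmono.measure_iUnion
    _ ≤ c + ε := iSup_le hSw

end

end Pool.Agent.D0H31.DS
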