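import Pool.Agent.D0H31.DS.GraphMain

/-! # The weighted maximal lemma -/

set_option autoImplicit false

open Finset

namespace Pool.Agent.D0H31.DS

noncomputable section

variable {N : ℕ} {q : ℕ → ℝ}

lemma ed_sum_weight (hN : 0 < N) {J : Finset ℕ} {m : ℕ → ℝ} {M : ℝ} (hM0 : 0 ≤ M)
    (hM : ∀ j ∈ J, m j ≤ M) {k : ℕ} (hk : N ≤ k) (x : ℤ) :
    ∑ j ∈ J, m j * ed N q k x j ≤ M := by
  calc ∑ j ∈ J, m j * ed N q k x j ≤ ∑ j ∈ J, M * ed N q k x j :=
        Finset.sum_le_sum fun j hj => mul_le_mul_of_nonneg_right (hM j hj) (ed_nonneg _ _ _)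
    _ = M * ∑ j ∈ J, ed N q k x j := by rw [Finset.mul_sum]
    _ ≤ M * 1 := mul_le_mul_of_nonneg_left (ed_sum_y hN J hk x) hM0
    _ = M := mul_one M

theorem lemma_M (hN : 0 < N) {K a : ℝ} (ha0 : 0 < a) (ha1 : a < 1) (hK : 10 ≤ K)
    (hNg : (128 * K ^ 10) ^ 46 * (128 * K ^ 10) ^ (22 / (1 - a)) ≤ (N:ℝ) ^ (a * (1 - a) / 2))
    {m : ℕ → ℝ} (hm : ∀ j, 0 ≤ m j) (hm1 : ∑ j ∈ range (N + 1), m j ≤ 1)
    (hFr : ∀ c R : ℝ, 1 ≤ R → ∑ j ∈ (range (N + 1)).filter (fun j : ℕ => |(j:ℝ) - c| ≤ R), m j ≤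
      K * (R ^ a / (N:ℝ) ^ a))
    {F : ℤ → ℝ} {S : Finset ℤ} (hS : ∀ i, i ∉ S → F i = 0)
    {L : ℝ} (hL : 0 ≤ L) (hL2 : ∑ i ∈ S, F i ^ 2 ≤ L ^ 2)
    {T : Finset ℕ} (hT : ∀ k ∈ T, N ≤ k ∧ k ≤ 2 * N)
    (hq : ∀ k ∈ T, L / ((N:ℝ) ^ (a / 2) * K) <
      ∑ j ∈ range (N + 1), m j * F (cell N q k j)) :
    (T.card : ℝ) ≤ N / K := by
  by_contra hcon
  push Not at hcon
  have hn1 : (1:ℝ) ≤ N := by exact_mod_cast hN
  obtain ⟨n, hn⟩ : ∃ n : ℝ, n = (N:ℝ) := ⟨_, rfl⟩
  rw [← hn] at hn1 hcon hq hNg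
  have hn0 : 0 < n := by linarith
  obtain ⟨A, hA⟩ : ∃ A : ℝ, A = n ^ a := ⟨_, rfl⟩
  obtain ⟨w, hw⟩ : ∃ w : ℝ, w = n ^ (a / 2) := ⟨_, rfl⟩
  have hw2 : w ^ 2 = A := by
    rw [hw, hA, ← Real.rpow_natCast, ← Real.rpow_mul hn0.le]
    congr 1
    push_cast
    ring
  have hw0 : 0 < w := by rw [hw]; positivity
  have hA0 : 0 < A := by rw [hA]; positivity
  have hA1 : 1 ≤ A := by rw [hA]; exact Real.one_le_rpow hn1 ha0.le
  rw [← hn, ← hA] at hFr
  rw [← hw] at hq
  have hK0 : 0 < K := by linarith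
  have hTc : (T.card : ℝ) ≤ 2 * n := by rw [hn]; exact card_T_le hN hT
  have hTc0 : 0 < (T.card : ℝ) := lt_trans (by positivity) hcon
  -- L > 0
  have hL0 : 0 < L := by
    rcases hL.lt_or_eq with h | h
    · exact h
    · exfalso
      have hT1 : T.Nonempty := by
        rw [← Finset.card_pos]
        exact_mod_cast hTc0
      obtain ⟨k, hk⟩ := hT1
      have h1 := hq k hk
      rw [← h] at h1 hL2
      have h2 : ∀ i ∈ S, F i = 0 := by
        intro i hi
        have h3 : F i ^ 2 ≤ ∑ i ∈ S, F i ^ 2 :=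
          Finset.single_le_sum (f := fun i => F i ^ 2) (fun _ _ => sq_nonneg _) hi
        have h4 : F i ^ 2 ≤ 0 := by
          refine h3.trans (hL2.trans ?_)
          norm_num
        exact pow_eq_zero_iff (two_ne_zero) |>.mp (le_antisymm h4 (sq_nonneg _))
      have h3 : ∀ i, F i = 0 := fun i => by
        by_cases hi : i ∈ S
        · exact h2 i hi
        · exact hS i hi
      rw [zero_div] at h1
      rw [Finset.sum_eq_zero (fun j _ => by rw [h3, mul_zero])] at h1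
      exact lt_irrefl _ h1
  -- the function G
  obtain ⟨J, hJ⟩ : ∃ J : Finset ℕ, J = range (N + 1) := ⟨_, rfl⟩
  rw [← hJ] at hm1 hFr hq
  set G : ℤ → ℝ := fun i => ∑ k ∈ T, ∑ j ∈ J, m j * ed N q k i j with hG
  have hed0 : ∀ k i j, 0 ≤ m j * ed N q k i j := fun k i j => mul_nonneg (hm j) (ed_nonneg _ _ _)
  have hG0 : ∀ i, 0 ≤ G i := fun i => Finset.sum_nonneg fun k _ => Finset.sum_nonneg fun j _ =>
    hed0 k i j
  have hmax : ∀ j ∈ J, m j ≤ K / A := by
    intro j hj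
    have h1 := hFr (j:ℝ) 1 le_rfl
    rw [Real.one_rpow, mul_one_div] at h1
    refine le_trans ?_ h1
    refine Finset.single_le_sum (f := m) (fun i _ => hm i) ?_
    rw [Finset.mem_filter]
    refine ⟨hj, ?_⟩
    rw [sub_self, abs_zero]
    norm_num
  have hGsum : ∑ i ∈ S, G i ≤ 2 * n := by
    calc ∑ i ∈ S, G i = ∑ k ∈ T, ∑ j ∈ J, m j * ∑ i ∈ S, ed N q k i j := by
          rw [hG]
          simp only [Finset.mul_sum]
          rw [Finset.sum_comm]
          exact Finset.sum_congr rfl fun k _ => Finset.sum_comm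
      _ ≤ ∑ k ∈ T, ∑ j ∈ J, m j * 1 := by
          refine Finset.sum_le_sum fun k _ => Finset.sum_le_sum fun j _ => ?_
          exact mul_le_mul_of_nonneg_left (ed_sum_x S k j) (hm j)
      _ ≤ ∑ k ∈ T, (1:ℝ) := by
          refine Finset.sum_le_sum fun k _ => ?_
          simpa using hm1
      _ = T.card := by rw [Finset.sum_const, nsmul_eq_mul, mul_one]
      _ ≤ 2 * n := hTc
  have hGmax : ∀ i, G i ≤ 2 * n * (K / A) := by
    intro i
    calc G i ≤ ∑ k ∈ T, K / A := Finset.sum_le_sum fun k hk =>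
          ed_sum_weight hN (by positivity) hmax (hT k hk).1 i
      _ = T.card * (K / A) := by rw [Finset.sum_const, nsmul_eq_mul]
      _ ≤ 2 * n * (K / A) := by
          have : 0 ≤ K / A := by positivity
          gcongr
  have hGF : ∑ i ∈ S, G i * F i = ∑ k ∈ T, ∑ j ∈ J, m j * F (cell N q k j) := by
    rw [hG]
    simp only [Finset.sum_mul]
    rw [Finset.sum_comm]
    refine Finset.sum_congr rfl fun k _ => ?_
    rw [Finset.sum_comm]
    refine Finset.sum_congr rfl fun j _ => ?_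
    unfold ed
    by_cases hc : cell N q k j ∈ S
    · rw [Finset.sum_eq_single (cell N q k j)]
      · rw [if_pos rfl, mul_one]
      · intro b _ hb
        rw [if_neg (Ne.symm hb)]; ring
      · intro h; exact absurd hc h
    · rw [hS _ hc, mul_zero]
      refine Finset.sum_eq_zero fun i hi => ?_
      have hne : ¬ cell N q k j = i := fun h => hc (by rw [h]; exact hi)
      rw [if_neg hne]; ring
  have hGF2 : n / K * (L / (w * K)) < ∑ i ∈ S, G i * F i := by
    rw [hGF]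
    have hT1 : T.Nonempty := by
      rw [← Finset.card_pos]
      exact_mod_cast hTc0
    calc n / K * (L / (w * K)) ≤ T.card * (L / (w * K)) := by
          have : 0 ≤ L / (w * K) := by positivity
          exact mul_le_mul_of_nonneg_right hcon.le this
      _ = ∑ k ∈ T, L / (w * K) := by rw [Finset.sum_const, nsmul_eq_mul]
      _ < _ := Finset.sum_lt_sum_of_nonempty hT1 hq
  have hCS : (∑ i ∈ S, G i * F i) ^ 2 ≤ (∑ i ∈ S, G i ^ 2) * (∑ i ∈ S, F i ^ 2) :=
    Finset.sum_mul_sq_le_sq_mul_sq _ _ _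
  have hG2 : n ^ 2 / (A * K ^ 4) < ∑ i ∈ S, G i ^ 2 := by
    have h1 : (n / K * (L / (w * K))) ^ 2 < (∑ i ∈ S, G i * F i) ^ 2 := by
      have : 0 ≤ n / K * (L / (w * K)) := by positivity
      gcongr
    have h2 : (∑ i ∈ S, G i ^ 2) * (∑ i ∈ S, F i ^ 2) ≤ (∑ i ∈ S, G i ^ 2) * L ^ 2 := by
      have : 0 ≤ ∑ i ∈ S, G i ^ 2 := Finset.sum_nonneg fun _ _ => sq_nonneg _
      gcongr
    have h3 : (n / K * (L / (w * K))) ^ 2 = n ^ 2 / (A * K ^ 4) * L ^ 2 := by
      rw [← hw2]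
      field_simp
    rw [h3] at h1
    have h4 := lt_of_lt_of_le h1 (hCS.trans h2)
    exact lt_of_mul_lt_mul_right h4 (by positivity)
  -- large values of G
  obtain ⟨X, hX⟩ : ∃ X : Finset ℤ, X = S.filter fun i => n / (4 * A * K ^ 4) ≤ G i := ⟨_, rfl⟩
  have hXS : X ⊆ S := by rw [hX]; exact Finset.filter_subset _ _
  have hXc : (X.card : ℝ) ≤ 8 * K ^ 4 * A := by
    have h1 : (X.card : ℝ) * (n / (4 * A * K ^ 4)) ≤ 2 * n := by
      calc (X.card : ℝ) * (n / (4 * A * K ^ 4)) = ∑ i ∈ X, n / (4 * A * K ^ 4) := by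
            rw [Finset.sum_const, nsmul_eq_mul]
        _ ≤ ∑ i ∈ X, G i := Finset.sum_le_sum fun i hi => by
            rw [hX] at hi
            exact (Finset.mem_filter.mp hi).2
        _ ≤ ∑ i ∈ S, G i := Finset.sum_le_sum_of_subset_of_nonneg hXS fun i _ _ => hG0 i
        _ ≤ 2 * n := hGsum
    have h2 : 2 * n = (8 * K ^ 4 * A) * (n / (4 * A * K ^ 4)) := by
      field_simp
      ring
    rw [h2] at h1
    exact le_of_mul_le_mul_right h1 (by positivity)
  have hG2X : n ^ 2 / (2 * (A * K ^ 4)) ≤ ∑ i ∈ X, G i ^ 2 := by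
    have h1 := Finset.sum_filter_add_sum_filter_not S (fun i => n / (4 * A * K ^ 4) ≤ G i)
      (fun i => G i ^ 2)
    have h2 : ∑ i ∈ S.filter (fun i => ¬ n / (4 * A * K ^ 4) ≤ G i), G i ^ 2 ≤
        n / (4 * A * K ^ 4) * (2 * n) := by
      calc ∑ i ∈ S.filter (fun i => ¬ n / (4 * A * K ^ 4) ≤ G i), G i ^ 2
          ≤ ∑ i ∈ S.filter (fun i => ¬ n / (4 * A * K ^ 4) ≤ G i), n / (4 * A * K ^ 4) * G i := by
            refine Finset.sum_le_sum fun i hi => ?_
            have h3 := (Finset.mem_filter.mp hi).2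
            push Not at h3
            rw [sq]
            exact mul_le_mul_of_nonneg_right h3.le (hG0 i)
        _ ≤ ∑ i ∈ S, n / (4 * A * K ^ 4) * G i :=
            Finset.sum_le_sum_of_subset_of_nonneg (Finset.filter_subset _ _) fun i _ _ => by
              have := hG0 i
              positivity
        _ = n / (4 * A * K ^ 4) * ∑ i ∈ S, G i := by rw [Finset.mul_sum]
        _ ≤ _ := by gcongr
    have h3 : n / (4 * A * K ^ 4) * (2 * n) = n ^ 2 / (2 * (A * K ^ 4)) := by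
      field_simp
      ring
    have h4 : n ^ 2 / (A * K ^ 4) = n ^ 2 / (2 * (A * K ^ 4)) + n ^ 2 / (2 * (A * K ^ 4)) := by
      field_simp
      ring
    rw [hX]
    rw [h3] at h2
    rw [h4] at hG2
    linarith
  have hGX : n / (4 * K ^ 5) ≤ ∑ i ∈ X, G i := by
    have h1 : ∑ i ∈ X, G i ^ 2 ≤ (2 * n * (K / A)) * ∑ i ∈ X, G i := by
      rw [Finset.mul_sum]
      refine Finset.sum_le_sum fun i _ => ?_
      rw [sq]
      exact mul_le_mul_of_nonneg_right (hGmax i) (hG0 i)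
    have h2 : n ^ 2 / (2 * (A * K ^ 4)) = (2 * n * (K / A)) * (n / (4 * K ^ 5)) := by
      field_simp
      ring
    rw [h2] at hG2X
    exact le_of_mul_le_mul_left (hG2X.trans h1) (by positivity)
  -- large weights
  obtain ⟨Y, hY⟩ : ∃ Y : Finset ℕ, Y = J.filter fun j => 1 / (128 * A * K ^ 9) ≤ m j := ⟨_, rfl⟩
  have hYJ : Y ⊆ J := by rw [hY]; exact Finset.filter_subset _ _
  have hYm : ∀ j ∈ Y, 1 / (128 * A * K ^ 9) ≤ m j := fun j hj => by
    rw [hY] at hj
    exact (Finset.mem_filter.mp hj).2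
  have hYF : ∀ c R : ℝ, 1 ≤ R → ((Y.filter fun y : ℕ => |(y:ℝ) - c| ≤ R).card : ℝ) ≤
      (128 * K ^ 10) * R ^ a := by
    intro c R hR
    have hR0 : 0 < R := by linarith
    have h1 : ((Y.filter fun y : ℕ => |(y:ℝ) - c| ≤ R).card : ℝ) * (1 / (128 * A * K ^ 9)) ≤
        K * (R ^ a / A) := by
      calc ((Y.filter fun y : ℕ => |(y:ℝ) - c| ≤ R).card : ℝ) * (1 / (128 * A * K ^ 9))
          = ∑ j ∈ Y.filter (fun y : ℕ => |(y:ℝ) - c| ≤ R), 1 / (128 * A * K ^ 9) := by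
            rw [Finset.sum_const, nsmul_eq_mul]
        _ ≤ ∑ j ∈ Y.filter (fun y : ℕ => |(y:ℝ) - c| ≤ R), m j :=
            Finset.sum_le_sum fun j hj => hYm j (Finset.mem_filter.mp hj).1
        _ ≤ ∑ j ∈ J.filter (fun y : ℕ => |(y:ℝ) - c| ≤ R), m j :=
            Finset.sum_le_sum_of_subset_of_nonneg (Finset.filter_subset_filter _ hYJ)
              fun i _ _ => hm i
        _ ≤ _ := hFr c R hR
    have h2 : K * (R ^ a / A) = (128 * K ^ 10) * R ^ a * (1 / (128 * A * K ^ 9)) := by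
      field_simp
    rw [h2] at h1
    exact le_of_mul_le_mul_right h1 (by positivity)
  have hYc : (Y.card : ℝ) ≤ 128 * K ^ 9 * A := by
    have h1 : (Y.card : ℝ) * (1 / (128 * A * K ^ 9)) ≤ 1 := by
      calc (Y.card : ℝ) * (1 / (128 * A * K ^ 9)) = ∑ j ∈ Y, 1 / (128 * A * K ^ 9) := by
            rw [Finset.sum_const, nsmul_eq_mul]
        _ ≤ ∑ j ∈ Y, m j := Finset.sum_le_sum fun j hj => hYm j hj
        _ ≤ ∑ j ∈ J, m j := Finset.sum_le_sum_of_subset_of_nonneg hYJ fun i _ _ => hm i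
        _ ≤ 1 := hm1
    have h2 : (128 * K ^ 9 * A) * (1 / (128 * A * K ^ 9)) = 1 := by
      field_simp
    exact le_of_mul_le_mul_right (h1.trans h2.ge) (by positivity)
  -- edges
  have hE : n / (8 * K ^ 5) ≤ ∑ i ∈ X, ∑ k ∈ T, ∑ j ∈ Y, m j * ed N q k i j := by
    have h1 : ∀ i, G i = ∑ k ∈ T, ∑ j ∈ Y, m j * ed N q k i j +
        ∑ k ∈ T, ∑ j ∈ J.filter (fun j => ¬ 1 / (128 * A * K ^ 9) ≤ m j), m j * ed N q k i j := by
      intro i
      rw [← Finset.sum_add_distrib]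
      refine Finset.sum_congr rfl fun k _ => ?_
      rw [hY]
      exact (Finset.sum_filter_add_sum_filter_not _ _ _).symm
    have h2 : ∑ i ∈ X, ∑ k ∈ T, ∑ j ∈ J.filter (fun j => ¬ 1 / (128 * A * K ^ 9) ≤ m j),
        m j * ed N q k i j ≤ (8 * K ^ 4 * A) * (2 * n * (1 / (128 * A * K ^ 9))) := by
      calc _ ≤ ∑ i ∈ X, ∑ k ∈ T, 1 / (128 * A * K ^ 9) := by
            refine Finset.sum_le_sum fun i _ => Finset.sum_le_sum fun k hk => ?_
            refine ed_sum_weight hN (by positivity) ?_ (hT k hk).1 i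
            intro j hj
            have := (Finset.mem_filter.mp hj).2
            push Not at this
            exact this.le
        _ = (X.card : ℝ) * ((T.card : ℝ) * (1 / (128 * A * K ^ 9))) := by
            simp only [Finset.sum_const, nsmul_eq_mul]
        _ ≤ _ := by
            have : 0 ≤ 1 / (128 * A * K ^ 9) := by positivity
            gcongr
    have h3 : (8 * K ^ 4 * A) * (2 * n * (1 / (128 * A * K ^ 9))) = n / (8 * K ^ 5) := by
      field_simp
      ring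
    have h4 : n / (4 * K ^ 5) = n / (8 * K ^ 5) + n / (8 * K ^ 5) := by
      field_simp
      ring
    rw [h3] at h2
    rw [h4, Finset.sum_congr rfl (fun i _ => h1 i), Finset.sum_add_distrib] at hGX
    linarith
  have hE2 : n * A / (8 * K ^ 6) ≤ ∑ k ∈ T, ∑ i ∈ X, ∑ j ∈ Y, ed N q k i j := by
    have h1 : ∑ i ∈ X, ∑ k ∈ T, ∑ j ∈ Y, m j * ed N q k i j ≤
        (K / A) * ∑ k ∈ T, ∑ i ∈ X, ∑ j ∈ Y, ed N q k i j := by
      rw [Finset.sum_comm]
      simp only [Finset.mul_sum]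
      refine Finset.sum_le_sum fun i _ => Finset.sum_le_sum fun k _ => Finset.sum_le_sum fun j hj => ?_
      exact mul_le_mul_of_nonneg_right (hmax j (hYJ hj)) (ed_nonneg _ _ _)
    have h2 : n / (8 * K ^ 5) = (K / A) * (n * A / (8 * K ^ 6)) := by
      field_simp
    rw [h2] at hE
    exact le_of_mul_le_mul_left (hE.trans h1) (by positivity)
  -- apply the graph theorem
  have hK' : (2:ℝ) ^ 39 ≤ 128 * K ^ 10 := by
    calc (2:ℝ) ^ 39 ≤ 128 * 10 ^ 10 := by norm_num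
      _ ≤ 128 * K ^ 10 := by gcongr
  have hmain := graph_main (N := N) (q := q) hN (K := 128 * K ^ 10) (a := a) ha0 ha1 hK'
    (by rw [← hn]; exact hNg) (X := X) (T := T) (Y := Y) hT
    (fun y hy => by
      have := hYJ hy
      rw [hJ, Finset.mem_range] at this
      omega) hYF
    (by
      rw [← hn, ← hA]
      refine hXc.trans ?_
      have h1 : K ^ 4 ≤ K ^ 10 := pow_le_pow_right₀ (by linarith) (by norm_num)
      have h2 : 8 * K ^ 4 ≤ 128 * K ^ 10 := by
        have : 0 ≤ K ^ 10 := by positivity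
        linarith
      gcongr)
    (by
      rw [← hn, ← hA]
      refine hYc.trans ?_
      have h1 : K ^ 9 ≤ K ^ 10 := pow_le_pow_right₀ (by linarith) (by norm_num)
      gcongr)
  rw [← hn, ← hA] at hmain
  have h5 : n * A / (128 * K ^ 10) ≤ n * A / (8 * K ^ 6) := by
    have h1 : K ^ 6 ≤ K ^ 10 := pow_le_pow_right₀ (by linarith) (by norm_num)
    have h2 : 8 * K ^ 6 ≤ 128 * K ^ 10 := by
      have : 0 ≤ K ^ 10 := by positivity
      linarith
    gcongr
  linarith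

end

end Pool.Agent.D0H31.DS
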