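import Pool.Agent.D0H31.DS.Energy2
import Pool.Agent.D0H31.DS.LemmaM

/-! # The difference of two scales -/

set_option autoImplicit false

open MeasureTheory Set

namespace Pool.Agent.D0H31.DS

noncomputable section

variable {d : ℕ}

/-- tent kernel -/
def phi (N z : ℝ) : ℝ := ∫ w, chi N w * chi N (z - w)

/-- the smoothed law of `T x₀ + ⟨t, x⟩` -/
def gg (μ : Measure ℝ) (N T : ℝ) (t : Fin (d + 1) → ℝ) (q : ℝ) : ℝ :=
  ∫ x₀, (∫ x, phi N (T * x₀ + ip t x - q) ∂(PP d μ)) ∂μ

lemma integrable_chi_mul (N : ℝ) {f : ℝ → ℝ} (hf : Measurable f) {B : ℝ} (hB : ∀ x, |f x| ≤ B) :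
    Integrable fun w => chi N w * f w :=
  (integrable_chi N).mul_bdd (c := B) hf.aestronglyMeasurable (Filter.Eventually.of_forall hB)

lemma chi_abs_le {N : ℝ} (hN : 0 < N) (y : ℝ) : |chi N y| ≤ N := by
  rw [abs_of_nonneg (chi_nonneg hN y)]
  exact chi_le hN y

lemma measurable_chi_sub (N z : ℝ) : Measurable fun w => chi N (z - w) :=
  (measurable_chi N).comp (measurable_const.sub measurable_id)

lemma phi_nonneg {N : ℝ} (hN : 0 < N) (z : ℝ) : 0 ≤ phi N z :=
  integral_nonneg fun _ => mul_nonneg (chi_nonneg hN _) (chi_nonneg hN _)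

lemma phi_le {N : ℝ} (hN : 0 < N) (z : ℝ) : phi N z ≤ N := by
  have h1 : phi N z ≤ ∫ w, chi N w * N := by
    refine integral_mono (integrable_chi_mul N (measurable_chi_sub N z) (fun x => chi_abs_le hN _))
      ((integrable_chi N).mul_const N) fun w => ?_
    exact mul_le_mul_of_nonneg_left (chi_le hN _) (chi_nonneg hN _)
  rwa [integral_mul_const, integral_chi hN, one_mul] at h1

lemma measurable_phi (N : ℝ) : Measurable (phi N) := by
  refine (StronglyMeasurable.integral_prod_right' (ν := (volume : Measure ℝ))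
    (f := fun p : ℝ × ℝ => chi N p.2 * chi N (p.1 - p.2)) ?_).measurable
  exact (((measurable_chi N).comp measurable_snd).mul
    ((measurable_chi N).comp (measurable_fst.sub measurable_snd))).stronglyMeasurable

lemma phi_diff {N : ℝ} (hN : 0 < N) (z : ℝ) :
    phi (2 * N) z - phi N z = ∫ w, (chi (2 * N) w + chi N w) * LL N (z - w) := by
  have h2 : 0 < 2 * N := by positivity
  have hAA := integrable_chi_mul (2 * N) (measurable_chi_sub (2 * N) z) (fun x => chi_abs_le h2 _)
  have hAB := integrable_chi_mul (2 * N) (measurable_chi_sub N z) (fun x => chi_abs_le hN _)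
  have hBA := integrable_chi_mul N (measurable_chi_sub (2 * N) z) (fun x => chi_abs_le h2 _)
  have hBB := integrable_chi_mul N (measurable_chi_sub N z) (fun x => chi_abs_le hN _)
  have hsym : ∫ w, chi (2 * N) w * chi N (z - w) = ∫ w, chi N w * chi (2 * N) (z - w) := by
    rw [← integral_sub_left_eq_self (fun w => chi (2 * N) w * chi N (z - w)) volume z]
    refine integral_congr_ae (Filter.Eventually.of_forall fun w => ?_)
    simp only
    rw [sub_sub_cancel, mul_comm]
  have hexp : ∫ w, (chi (2 * N) w + chi N w) * LL N (z - w) =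
      (∫ w, chi (2 * N) w * chi (2 * N) (z - w)) - (∫ w, chi (2 * N) w * chi N (z - w)) +
      (∫ w, chi N w * chi (2 * N) (z - w)) - ∫ w, chi N w * chi N (z - w) := by
    have i1 : Integrable fun w => chi (2 * N) w * chi (2 * N) (z - w) -
      chi (2 * N) w * chi N (z - w) := hAA.sub hAB
    have i2 : Integrable fun w => chi N w * chi (2 * N) (z - w) -
      chi N w * chi N (z - w) := hBA.sub hBB
    have e1 := integral_sub hAA hAB
    have e2 := integral_sub hBA hBB
    have e3 := integral_add i1 i2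
    rw [e1, e2] at e3
    have e4 : ∫ w, (chi (2 * N) w + chi N w) * LL N (z - w) =
        ∫ w, ((chi (2 * N) w * chi (2 * N) (z - w) - chi (2 * N) w * chi N (z - w)) +
          (chi N w * chi (2 * N) (z - w) - chi N w * chi N (z - w))) := by
      refine integral_congr_ae (Filter.Eventually.of_forall fun w => ?_)
      simp only [LL]
      ring
    rw [e4, e3]
    ring
  rw [hexp, hsym]
  unfold phi
  ring

lemma AB_le {N : ℝ} (hN : 0 < N) (w : ℝ) : chi (2 * N) w + chi N w ≤ 3 * chi N w := by
  unfold chi Set.indicator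
  have h1 : 1 / (2 * N) ≤ 1 / N := by
    apply one_div_le_one_div_of_le hN
    linarith
  simp only [mem_Ico]
  by_cases h : 0 ≤ w ∧ w < 1 / (2 * N)
  · rw [if_pos h, if_pos ⟨h.1, h.2.trans_le h1⟩]
    linarith
  · rw [if_neg h]
    split_ifs <;> linarith

variable {μ : Measure ℝ} [IsProbabilityMeasure μ]

lemma measurable_uu (N : ℝ) (t : Fin (d + 1) → ℝ) : Measurable (uu (d := d) μ N t) := by
  refine (StronglyMeasurable.integral_prod_right' (ν := PP d μ)
    (f := fun p : ℝ × (Fin (d + 1) → ℝ) => LL N (ip t p.2 - p.1)) ?_).measurable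
  exact ((measurable_LL N).comp (((measurable_ipt t).comp measurable_snd).sub
    measurable_fst)).stronglyMeasurable

lemma abs_uu_le {N : ℝ} (hN : 0 < N) (t : Fin (d + 1) → ℝ) (y : ℝ) : |uu μ N t y| ≤ N :=
  abs_integral_le_of_bdd (by rw [probReal_univ]) hN.le fun x => abs_LL_le' hN _

/-- the inner difference -/
lemma inner_diff {N : ℝ} (hN : 0 < N) (t : Fin (d + 1) → ℝ) (c : ℝ) :
    |∫ x, (phi (2 * N) (ip t x - c) - phi N (ip t x - c)) ∂(PP d μ)| ≤
      3 * ∫ w, chi N w * |uu μ N t (c + w)| := by
  simp only [phi_diff hN]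
  rw [integral_integral_swap]
  · rw [← integral_const_mul, ← Real.norm_eq_abs]
    have hint : Integrable fun w => 3 * (chi N w * |uu μ N t (c + w)|) := by
      refine Integrable.const_mul ?_ _
      refine integrable_chi_mul N ?_ (B := N) fun w => ?_
      · exact ((measurable_uu N t).comp (measurable_const.add measurable_id)).abs
      · rw [abs_abs]; exact abs_uu_le hN t _
    refine norm_integral_le_of_norm_le hint (Filter.Eventually.of_forall fun w => ?_)
    rw [integral_const_mul, Real.norm_eq_abs, abs_mul, ← mul_assoc]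
    have h1 : |chi (2 * N) w + chi N w| ≤ 3 * chi N w := by
      rw [abs_of_nonneg (add_nonneg (chi_nonneg (by positivity) _) (chi_nonneg hN _))]
      exact AB_le hN w
    have h2 : ∫ x, LL N (ip t x - c - w) ∂(PP d μ) = uu μ N t (c + w) := by
      unfold uu
      refine integral_congr_ae (Filter.Eventually.of_forall fun x => ?_)
      simp only
      rw [sub_sub]
    rw [h2]
    exact mul_le_mul_of_nonneg_right h1 (abs_nonneg _)
  · have h1 : Integrable (fun p : (Fin (d + 1) → ℝ) × ℝ => N * (3 * chi N p.2))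
        ((PP d μ).prod volume) :=
      Integrable.mul_prod (integrable_const N) ((integrable_chi N).const_mul 3)
    refine h1.mono' ?_ (Filter.Eventually.of_forall fun p => ?_)
    · refine Measurable.aestronglyMeasurable ?_
      unfold Function.uncurry
      refine Measurable.mul (((measurable_chi _).comp measurable_snd).add
        ((measurable_chi _).comp measurable_snd)) ((measurable_LL _).comp ?_)
      exact (((measurable_ipt t).comp measurable_fst).sub measurable_const).sub measurable_snd
    · unfold Function.uncurry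
      rw [Real.norm_eq_abs, abs_mul, mul_comm]
      refine mul_le_mul (abs_LL_le' hN _) ?_ (abs_nonneg _) hN.le
      rw [abs_of_nonneg (add_nonneg (chi_nonneg (by positivity) _) (chi_nonneg hN _))]
      exact AB_le hN _

/-- cell averages -/
def UU (μ : Measure ℝ) (N : ℕ) (t : Fin (d + 1) → ℝ) (i : ℤ) : ℝ :=
  N * ∫ y in ((i:ℝ) / N)..(((i:ℝ) + 1) / N), |uu μ N t y|

lemma intervalIntegrable_uu {N : ℕ} (hN : 0 < N) (t : Fin (d + 1) → ℝ) (a b : ℝ) :
    IntervalIntegrable (fun y => |uu (d := d) μ N t y|) volume a b := by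
  have hN' : (0:ℝ) < N := by exact_mod_cast hN
  have h : IntervalIntegrable (fun _ : ℝ => (N:ℝ)) volume a b := intervalIntegrable_const
  refine h.mono_fun (measurable_uu (N:ℝ) t).abs.aestronglyMeasurable
    (Filter.Eventually.of_forall fun y => ?_)
  simp only [Real.norm_eq_abs, abs_abs]
  exact (abs_uu_le hN' t y).trans (le_abs_self _)

omit [IsProbabilityMeasure μ] in
lemma UU_nonneg {N : ℕ} (hN : 0 < N) (t : Fin (d + 1) → ℝ) (i : ℤ) : 0 ≤ UU μ N t i := by
  unfold UU
  refine mul_nonneg (Nat.cast_nonneg _) ?_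
  refine intervalIntegral.integral_nonneg ?_ fun _ _ => abs_nonneg _
  have hN' : (0:ℝ) < N := by exact_mod_cast hN
  gcongr
  linarith

/-- a window is covered by five cells -/
lemma window {N : ℕ} (hN : 0 < N) (t : Fin (d + 1) → ℝ) {y : ℝ} {i : ℤ} (h1 : (i:ℝ) ≤ N * y)
    (h2 : N * y ≤ i + 4) :
    ∫ w, chi N w * |uu μ N t (y + w)| ≤ ∑ l ∈ Finset.range 5, UU μ N t (i + l) := by
  have hN' : (0:ℝ) < N := by exact_mod_cast hN
  have e1 : ∫ w, chi N w * |uu μ N t (y + w)| = N * ∫ z in y..(y + 1 / N), |uu μ N t z| := by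
    have e2 : ∀ w, chi N w * |uu μ N t (y + w)| =
        (Ico (0:ℝ) (1 / N)).indicator (fun w => N * |uu μ N t (y + w)|) w := by
      intro w
      unfold chi Set.indicator
      split_ifs
      · rfl
      · rw [zero_mul]
    simp only [e2]
    rw [integral_indicator measurableSet_Ico, integral_const_mul, integral_Ico_eq_integral_Ioo,
      ← integral_Ioc_eq_integral_Ioo, ← intervalIntegral.integral_of_le (by positivity)]
    rw [intervalIntegral.integral_comp_add_left (fun z => |uu μ N t z|) y, add_zero]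
  rw [e1]
  have e3 : ∑ l ∈ Finset.range 5, UU μ N t (i + l) =
      N * ∫ z in ((i:ℝ) / N)..(((i:ℝ) + 5) / N), |uu μ N t z| := by
    unfold UU
    rw [← Finset.mul_sum]
    congr 1
    have e4 := intervalIntegral.sum_integral_adjacent_intervals (μ := volume)
      (f := fun z => |uu μ N t z|) (a := fun l : ℕ => ((i:ℝ) + l) / N) (n := 5)
      (fun k _ => intervalIntegrable_uu hN t _ _)
    have e5 : ((i:ℝ) + ((5:ℕ):ℝ)) / N = ((i:ℝ) + 5) / N := by norm_num
    have e6 : ((i:ℝ) + ((0:ℕ):ℝ)) / N = (i:ℝ) / N := by norm_num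
    rw [e5, e6] at e4
    rw [← e4]
    refine Finset.sum_congr rfl fun l _ => ?_
    push_cast
    rw [add_assoc]
  rw [e3]
  refine mul_le_mul_of_nonneg_left ?_ hN'.le
  refine intervalIntegral.integral_mono_interval ?_ ?_ ?_ ?_ (intervalIntegrable_uu hN t _ _)
  · rw [div_le_iff₀ hN']; linarith
  · have : 0 < 1 / (N:ℝ) := by positivity
    linarith
  · rw [le_div_iff₀ hN', add_mul, one_div_mul_cancel hN'.ne']
    linarith
  · exact Filter.Eventually.of_forall fun _ => abs_nonneg _

end

end Pool.Agent.D0H31.DS
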