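import Pool.Agent.D0H31.DS.Diff

/-! # The difference of two scales: discretisation -/

set_option autoImplicit false

open MeasureTheory Set

namespace Pool.Agent.D0H31.DS

noncomputable section

variable {d : ℕ}

/-- masses of the cells -/
def mm (μ : Measure ℝ) (N : ℕ) (j : ℕ) : ℝ := μ.real (Ico ((j:ℝ) / N) (((j:ℝ) + 1) / N))

/-- step function -/
def stp (N : ℕ) (g : ℕ → ℝ) (x : ℝ) : ℝ :=
  ∑ j ∈ Finset.range (N + 1), (Ico ((j:ℝ) / N) (((j:ℝ) + 1) / N)).indicator (fun _ => g j) x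

lemma stp_eq {N : ℕ} (hN : 0 < N) (g : ℕ → ℝ) {x : ℝ} (hx : x ∈ Icc (0:ℝ) 1) :
    stp N g x = g ⌊N * x⌋₊ := by
  have hN' : (0:ℝ) < N := by exact_mod_cast hN
  unfold stp
  have hx0 : 0 ≤ N * x := mul_nonneg hN'.le hx.1
  have hmem : ∀ j : ℕ, x ∈ Ico ((j:ℝ) / N) (((j:ℝ) + 1) / N) ↔ j = ⌊N * x⌋₊ := by
    intro j
    rw [mem_Ico, div_le_iff₀ hN', lt_div_iff₀ hN', mul_comm x, eq_comm, Nat.floor_eq_iff hx0]
  rw [Finset.sum_eq_single ⌊N * x⌋₊]
  · rw [Set.indicator_of_mem ((hmem _).mpr rfl)]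
  · intro j _ hj
    exact Set.indicator_of_notMem (fun h => hj ((hmem j).mp h)) _
  · intro h
    exfalso
    apply h
    rw [Finset.mem_range, Nat.lt_succ_iff]
    apply Nat.floor_le_of_le
    nlinarith [hx.2]

variable {μ : Measure ℝ} [IsProbabilityMeasure μ]

lemma integrable_stp (N : ℕ) (g : ℕ → ℝ) : Integrable (stp N g) μ := by
  unfold stp
  exact integrable_finsetSum _ fun j _ => (integrable_const _).indicator measurableSet_Ico

lemma integral_stp (N : ℕ) (g : ℕ → ℝ) :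
    ∫ x, stp N g x ∂μ = ∑ j ∈ Finset.range (N + 1), mm μ N j * g j := by
  unfold stp
  rw [integral_finsetSum _ fun j _ => (integrable_const _).indicator measurableSet_Ico]
  refine Finset.sum_congr rfl fun j _ => ?_
  rw [integral_indicator_const _ measurableSet_Ico, smul_eq_mul]
  rfl

omit [IsProbabilityMeasure μ] in
lemma mm_nonneg (N j : ℕ) : 0 ≤ mm μ N j := measureReal_nonneg

lemma integrable_gin {N : ℝ} (hN : 0 < N) (T : ℝ) (t : Fin (d + 1) → ℝ) (q : ℝ) :
    Integrable (fun x₀ => ∫ x, phi N (T * x₀ + ip t x - q) ∂(PP d μ)) μ := by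
  have hb : ∀ z, |phi N z| ≤ N := fun z => by
    rw [abs_of_nonneg (phi_nonneg hN z)]; exact phi_le hN z
  refine Integrable.of_bound ?_ N (Filter.Eventually.of_forall fun x₀ => ?_)
  · refine (StronglyMeasurable.integral_prod_right' (ν := PP d μ)
      (f := fun p : ℝ × (Fin (d + 1) → ℝ) => phi N (T * p.1 + ip t p.2 - q)) ?_).aestronglyMeasurable
    exact ((measurable_phi N).comp ((((measurable_const.mul measurable_fst).add
      ((measurable_ipt t).comp measurable_snd)).sub measurable_const))).stronglyMeasurable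
  · exact abs_integral_le_of_bdd (by rw [probReal_univ]) hN.le fun x => hb _

lemma integrable_phx {N : ℝ} (hN : 0 < N) (t : Fin (d + 1) → ℝ) (c : ℝ) :
    Integrable (fun x => phi N (ip t x - c)) (PP d μ) := by
  refine Integrable.of_bound ?_ N (Filter.Eventually.of_forall fun x => ?_)
  · exact ((measurable_phi N).comp ((measurable_ipt t).sub measurable_const)).aestronglyMeasurable
  · rw [Real.norm_eq_abs, abs_of_nonneg (phi_nonneg hN _)]; exact phi_le hN _

theorem gg_diff (hμ : μ (Icc (0:ℝ) 1)ᶜ = 0) {N : ℕ} (hN : 0 < N) (t : Fin (d + 1) → ℝ) {T : ℝ}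
    (hT1 : 0 ≤ T) (hT2 : T ≤ 2) {k : ℕ} (hk1 : kap N k ≤ T) (hk2 : T ≤ kap N k + 1 / N) (q : ℝ) :
    |gg μ (2 * N) T t q - gg μ N T t q| ≤
      3 * ∑ l ∈ Finset.range 5, ∑ j ∈ Finset.range (N + 1),
        mm μ N j * UU μ N t ⌊(N * q - 3 + l) - kap N k * j⌋ := by
  have hN' : (0:ℝ) < N := by exact_mod_cast hN
  set g : ℕ → ℝ := fun j => 3 * ∑ l ∈ Finset.range 5, UU μ N t ⌊(N * q - 3 + l) - kap N k * j⌋ with hg
  have h1 : gg μ (2 * N) T t q - gg μ N T t q =
      ∫ x₀, (∫ x, (phi (2 * N) (ip t x - (q - T * x₀)) - phi N (ip t x - (q - T * x₀))) ∂(PP d μ)) ∂μ := by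
    unfold gg
    rw [← integral_sub (integrable_gin (by positivity) T t q) (integrable_gin hN' T t q)]
    refine integral_congr_ae (Filter.Eventually.of_forall fun x₀ => ?_)
    simp only
    rw [integral_sub (integrable_phx (by positivity) t _) (integrable_phx hN' t _)]
    have e : ∀ x, T * x₀ + ip t x - q = ip t x - (q - T * x₀) := fun x => by ring
    simp only [e]
  rw [h1, ← Real.norm_eq_abs]
  have h2 : 3 * ∑ l ∈ Finset.range 5, ∑ j ∈ Finset.range (N + 1),
        mm μ N j * UU μ N t ⌊(N * q - 3 + l) - kap N k * j⌋ = ∫ x, stp N g x ∂μ := by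
    rw [integral_stp, hg, Finset.sum_comm, Finset.mul_sum]
    refine Finset.sum_congr rfl fun j _ => ?_
    rw [← Finset.mul_sum]
    ring
  rw [h2]
  have hae : ∀ᵐ x ∂μ, x ∈ Icc (0:ℝ) 1 := by
    rw [ae_iff]
    exact hμ
  refine norm_integral_le_of_norm_le (integrable_stp N g) ?_
  filter_upwards [hae] with x₀ hx₀
  rw [stp_eq hN g hx₀, Real.norm_eq_abs]
  refine (inner_diff hN' t (q - T * x₀)).trans ?_
  rw [hg]
  refine mul_le_mul_of_nonneg_left ?_ (by norm_num)
  set j : ℕ := ⌊N * x₀⌋₊ with hj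
  have hx0 : 0 ≤ N * x₀ := mul_nonneg hN'.le hx₀.1
  have hj1 : (j:ℝ) ≤ N * x₀ := Nat.floor_le hx0
  have hj2 : N * x₀ < j + 1 := Nat.lt_floor_add_one _
  have hjN : (j:ℝ) ≤ N := by nlinarith [hx₀.2]
  set κ := kap N k with hκ
  set i : ℤ := ⌊(N * q - 3) - κ * j⌋ with hi
  have hi1 : (i:ℝ) ≤ (N * q - 3) - κ * j := Int.floor_le _
  have hi2 : (N * q - 3) - κ * j < i + 1 := Int.lt_floor_add_one _
  have hκ0 : 0 ≤ κ := by rw [hκ]; unfold kap; positivity
  have hlow : κ * j ≤ N * (T * x₀) := by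
    have : κ * j ≤ T * (N * x₀) := mul_le_mul hk1 hj1 (Nat.cast_nonneg _) hT1
    linarith
  have hupp : N * (T * x₀) ≤ κ * j + 3 := by
    have a1 : T * (N * x₀) ≤ T * (j + 1) := mul_le_mul_of_nonneg_left hj2.le hT1
    have a2 : T * j ≤ (κ + 1 / N) * j := mul_le_mul_of_nonneg_right hk2 (Nat.cast_nonneg _)
    have a3 : 1 / (N:ℝ) * j ≤ 1 := by
      rw [one_div_mul_eq_div, div_le_one hN']
      exact hjN
    nlinarith
  have hw := window hN t (μ := μ) (y := q - T * x₀) (i := i) (by nlinarith) (by nlinarith)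
  refine hw.trans (le_of_eq ?_)
  refine Finset.sum_congr rfl fun l _ => ?_
  congr 1
  rw [hi, ← Int.floor_add_natCast]
  congr 1
  ring

lemma integrable_uu_sq {N : ℝ} (hN : 0 < N) (t : Fin (d + 1) → ℝ) :
    Integrable fun y => uu (d := d) μ N t y ^ 2 := by
  have h1 : Integrable (fun p : ℝ × ((Fin (d + 1) → ℝ) × (Fin (d + 1) → ℝ)) =>
      LL N (ip t p.2.1 - p.1) * LL N (ip t p.2.2 - p.1))
      (volume.prod ((PP d μ).prod (PP d μ))) := by
    refine ((integrable_chi_prod (μ := μ) hN t).const_mul N).mono' ?_ ?_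
    · refine Measurable.aestronglyMeasurable ?_
      refine Measurable.mul ((measurable_LL N).comp ?_) ((measurable_LL N).comp ?_)
      · exact ((measurable_ipt t).comp (measurable_fst.comp measurable_snd)).sub measurable_fst
      · exact ((measurable_ipt t).comp (measurable_snd.comp measurable_snd)).sub measurable_fst
    · refine Filter.Eventually.of_forall fun p => ?_
      rw [Real.norm_eq_abs, abs_mul, mul_comm]
      exact mul_le_mul (abs_LL_le' hN _) (abs_LL_le hN _) (abs_nonneg _) hN.le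
  have h2 := h1.integral_prod_left
  refine h2.congr (Filter.Eventually.of_forall fun y => ?_)
  simp only
  rw [uu_sq]

lemma UU_sq_le {N : ℕ} (hN : 0 < N) (t : Fin (d + 1) → ℝ) (i : ℤ) :
    UU μ N t i ^ 2 ≤ N * ∫ y in Ioc ((i:ℝ) / N) (((i:ℝ) + 1) / N), uu μ N t y ^ 2 := by
  have hN' : (0:ℝ) < N := by exact_mod_cast hN
  have hle : (i:ℝ) / N ≤ ((i:ℝ) + 1) / N := by
    gcongr
    linarith
  set c : ℝ := UU μ N t i with hc
  have hc' : c = N * ∫ y in Ioc ((i:ℝ) / N) (((i:ℝ) + 1) / N), |uu μ N t y| := by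
    rw [hc]
    unfold UU
    rw [intervalIntegral.integral_of_le hle]
  have i1 : IntegrableOn (fun y => uu (d := d) μ N t y ^ 2) (Ioc ((i:ℝ) / N) (((i:ℝ) + 1) / N)) :=
    (integrable_uu_sq hN' t).integrableOn
  have i2 : IntegrableOn (fun y => |uu (d := d) μ N t y|) (Ioc ((i:ℝ) / N) (((i:ℝ) + 1) / N)) :=
    (intervalIntegrable_iff_integrableOn_Ioc_of_le hle).mp (intervalIntegrable_uu hN t _ _)
  have h0 : 0 ≤ ∫ y in Ioc ((i:ℝ) / N) (((i:ℝ) + 1) / N), (|uu μ N t y| - c) ^ 2 :=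
    integral_nonneg fun _ => sq_nonneg _
  have hexp : ∫ y in Ioc ((i:ℝ) / N) (((i:ℝ) + 1) / N), (|uu μ N t y| - c) ^ 2 =
      (∫ y in Ioc ((i:ℝ) / N) (((i:ℝ) + 1) / N), uu μ N t y ^ 2) -
      2 * c * (∫ y in Ioc ((i:ℝ) / N) (((i:ℝ) + 1) / N), |uu μ N t y|) + c ^ 2 * (1 / N) := by
    have e0 : ∫ y in Ioc ((i:ℝ) / N) (((i:ℝ) + 1) / N), c ^ 2 = c ^ 2 * (1 / N) := by
      rw [setIntegral_const, measureReal_def, Real.volume_Ioc, smul_eq_mul,
        ENNReal.toReal_ofReal (by linarith), mul_comm]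
      congr 1
      ring
    rw [← e0, ← integral_const_mul]
    have i3 : IntegrableOn (fun y => 2 * c * |uu (d := d) μ N t y|)
      (Ioc ((i:ℝ) / N) (((i:ℝ) + 1) / N)) := i2.const_mul _
    rw [← integral_sub i1 i3]
    have i4 : IntegrableOn (fun y => uu (d := d) μ N t y ^ 2 - 2 * c * |uu (d := d) μ N t y|)
      (Ioc ((i:ℝ) / N) (((i:ℝ) + 1) / N)) := i1.sub i3
    have i5 : IntegrableOn (fun _ : ℝ => c ^ 2) (Ioc ((i:ℝ) / N) (((i:ℝ) + 1) / N)) := by
      refine integrableOn_const ?_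
      rw [Real.volume_Ioc]
      exact ENNReal.ofReal_ne_top
    rw [← integral_add i4 i5]
    refine integral_congr_ae (Filter.Eventually.of_forall fun y => ?_)
    simp only
    rw [← sq_abs (uu μ N t y)]
    ring
  rw [hexp] at h0
  have h1 : 2 * c * (∫ y in Ioc ((i:ℝ) / N) (((i:ℝ) + 1) / N), |uu μ N t y|) = 2 * c ^ 2 * (1 / N) := by
    have : ∫ y in Ioc ((i:ℝ) / N) (((i:ℝ) + 1) / N), |uu μ N t y| = c * (1 / N) := by
      rw [hc']; field_simp
    rw [this]; ring
  rw [h1] at h0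
  have h2 : c ^ 2 * (1 / N) ≤ ∫ y in Ioc ((i:ℝ) / N) (((i:ℝ) + 1) / N), uu μ N t y ^ 2 := by linarith
  calc c ^ 2 = N * (c ^ 2 * (1 / N)) := by field_simp
    _ ≤ _ := mul_le_mul_of_nonneg_left h2 hN'.le

lemma UU_l2 {N : ℕ} (hN : 0 < N) (t : Fin (d + 1) → ℝ) (S : Finset ℤ) :
    ∑ i ∈ S, UU μ N t i ^ 2 ≤ N * EE μ N t := by
  have hN' : (0:ℝ) < N := by exact_mod_cast hN
  calc ∑ i ∈ S, UU μ N t i ^ 2
      ≤ ∑ i ∈ S, N * ∫ y in Ioc ((i:ℝ) / N) (((i:ℝ) + 1) / N), uu μ N t y ^ 2 :=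
        Finset.sum_le_sum fun i _ => UU_sq_le hN t i
    _ = N * ∫ y in ⋃ i ∈ S, Ioc ((i:ℝ) / N) (((i:ℝ) + 1) / N), uu μ N t y ^ 2 := by
        rw [← Finset.mul_sum]
        congr 1
        rw [integral_biUnion_finset S (fun i _ => measurableSet_Ioc)]
        · intro i _ j _ hij
          rw [Function.onFun, Set.disjoint_left]
          intro y hy1 hy2
          apply hij
          rw [mem_Ioc, div_lt_iff₀ hN', le_div_iff₀ hN'] at hy1 hy2
          have h1 : (i:ℝ) < j + 1 := by linarith [hy1.1, hy2.2]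
          have h2 : (j:ℝ) < i + 1 := by linarith [hy2.1, hy1.2]
          have h3 : i < j + 1 := by exact_mod_cast h1
          have h4 : j < i + 1 := by exact_mod_cast h2
          omega
        · exact fun i _ => (integrable_uu_sq hN' t).integrableOn
    _ ≤ N * EE μ N t := by
        refine mul_le_mul_of_nonneg_left ?_ hN'.le
        exact setIntegral_le_integral (integrable_uu_sq hN' t)
          (Filter.Eventually.of_forall fun _ => sq_nonneg _)

end

end Pool.Agent.D0H31.DS
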