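import Pool.Agent.D0H31.DS.Kern

/-! # The energy estimate -/

set_option autoImplicit false

open MeasureTheory Set

namespace Pool.Agent.D0H31.DS

noncomputable section

variable {d : ℕ}

/-- inner product -/
def ip (t x : Fin (d + 1) → ℝ) : ℝ := ∑ j, t j * x j

lemma continuous_ip : Continuous fun p : (Fin (d + 1) → ℝ) × (Fin (d + 1) → ℝ) => ip p.1 p.2 := by
  unfold ip
  fun_prop

lemma ip_sub (t x y : Fin (d + 1) → ℝ) : ip t (x - y) = ip t x - ip t y := by
  unfold ip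
  rw [← Finset.sum_sub_distrib]
  exact Finset.sum_congr rfl fun j _ => by rw [Pi.sub_apply]; ring

/-- product of the tent measures -/
def tau0 (d : ℕ) : Measure (Fin (d + 1) → ℝ) := Measure.pi fun _ => lam

instance : IsFiniteMeasure (tau0 d) := by unfold tau0; infer_instance

lemma pi_lam_univ_le (e : ℕ) : (Measure.pi fun _ : Fin e => lam).real univ ≤ 1 := by
  rw [measureReal_def, Measure.pi_univ, Finset.prod_const]
  refine ENNReal.toReal_le_of_le_ofReal zero_le_one ?_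
  rw [ENNReal.ofReal_one]
  exact pow_le_one' lam_univ_le _

lemma tau0_univ_le : (tau0 d).real univ ≤ 1 := pi_lam_univ_le (d + 1)

lemma tau0_univ_pos : 0 < (tau0 d) univ := by
  unfold tau0
  rw [Measure.pi_univ, Finset.prod_const]
  exact ENNReal.pow_pos lam_univ_pos _

lemma abs_integral_le_of_bdd {α : Type} [MeasurableSpace α] {ρ : Measure α} [IsFiniteMeasure ρ]
    (h1 : ρ.real univ ≤ 1) {f : α → ℝ} {B : ℝ} (hB : 0 ≤ B) (hf : ∀ x, |f x| ≤ B) :
    |∫ x, f x ∂ρ| ≤ B := by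
  rw [← Real.norm_eq_abs]
  refine (norm_integral_le_of_norm_le_const (C := B) (Filter.Eventually.of_forall hf)).trans ?_
  nlinarith [measureReal_nonneg (μ := ρ) (s := univ)]

lemma multi_dim {N : ℝ} (hN : 0 < N) {v : Fin (d + 1) → ℝ} (i : Fin (d + 1)) (hv : v i ≠ 0) (b : ℝ) :
    |∫ t, LL N (b + ip t v) ∂(tau0 d)| ≤ 1 / (N * v i ^ 2) := by
  unfold tau0
  have hmp := (measurePreserving_piFinSuccAbove (fun _ : Fin (d + 1) => lam) i).symm
  rw [← hmp.integral_comp']
  have hF : ∀ p : ℝ × (Fin d → ℝ), LL N (b + ip ((MeasurableEquiv.piFinSuccAbove (fun _ => ℝ) i).symm p) v) =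
      LL N ((b + ∑ j, p.2 j * v (i.succAbove j)) + p.1 * v i) := by
    intro p
    congr 1
    unfold ip
    rw [Fin.sum_univ_succAbove _ i]
    simp only [MeasurableEquiv.piFinSuccAbove_symm_apply, Fin.insertNthEquiv_apply, Fin.insertNth_apply_same,
      Fin.insertNth_apply_succAbove]
    ring
  simp only [hF]
  have hmeas : Measurable fun p : ℝ × (Fin d → ℝ) =>
      LL N ((b + ∑ j, p.2 j * v (i.succAbove j)) + p.1 * v i) := by
    refine (measurable_LL N).comp ?_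
    fun_prop
  have hint : Integrable (fun p : ℝ × (Fin d → ℝ) =>
      LL N ((b + ∑ j, p.2 j * v (i.succAbove j)) + p.1 * v i))
      (lam.prod (Measure.pi fun _ : Fin d => lam)) :=
    Integrable.of_bound hmeas.aestronglyMeasurable N
      (Filter.Eventually.of_forall fun p => abs_LL_le' hN _)
  rw [integral_prod_symm _ hint]
  refine abs_integral_le_of_bdd (pi_lam_univ_le d) (by positivity) fun y => ?_
  exact one_dim hN hv (b + ∑ j, y j * v (i.succAbove j))

/-- dyadic majorant -/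
def hh (k : ℕ) (ρ : ℝ) : ℝ :=
  4 / 4 ^ k + ∑ l ∈ Finset.range (k + 1), 4 / 4 ^ l * (if ρ ≤ 2 ^ l / 2 ^ k then (1:ℝ) else 0)

lemma hh_nonneg (k : ℕ) (ρ : ℝ) : 0 ≤ hh k ρ := by
  unfold hh
  refine add_nonneg (by positivity) (Finset.sum_nonneg fun l _ => ?_)
  split_ifs <;> positivity

lemma dyadic {k : ℕ} {v : Fin (d + 1) → ℝ} {B : ℝ} (hB0 : 0 ≤ B) (hB : B ≤ 2 ^ k)
    (hv : ∀ i, v i ≠ 0 → B ≤ 1 / (2 ^ k * v i ^ 2)) : B ≤ 2 ^ k * hh k ‖v‖ := by
  have hsum0 : ∀ l, 0 ≤ 4 / 4 ^ l * (if ‖v‖ ≤ 2 ^ l / 2 ^ k then (1:ℝ) else 0) := fun l => by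
    split_ifs <;> positivity
  by_cases hex : ∃ l, l ≤ k ∧ ‖v‖ ≤ 2 ^ l / 2 ^ k
  · classical
    set l := Nat.find hex with hl
    obtain ⟨hlk, hlv⟩ := Nat.find_spec hex
    rw [← hl] at hlk hlv
    have hterm : 4 / 4 ^ l ≤ hh k ‖v‖ := by
      unfold hh
      have h1 := Finset.single_le_sum (f := fun l => 4 / 4 ^ l * (if ‖v‖ ≤ 2 ^ l / 2 ^ k then (1:ℝ) else 0))
        (fun l _ => hsum0 l) (Finset.mem_range.mpr (Nat.lt_succ_of_le hlk))
      rw [if_pos hlv, mul_one] at h1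
      have h2 : (0:ℝ) ≤ 4 / 4 ^ k := by positivity
      linarith
    have hgoal : B ≤ 2 ^ k * (4 / 4 ^ l) := by
      rcases Nat.eq_zero_or_pos l with h0 | h0
      · rw [h0, pow_zero, div_one]
        have : (0:ℝ) < 2 ^ k := by positivity
        linarith
      · have hmin := Nat.find_min hex (m := l - 1) (by rw [← hl]; omega)
        push Not at hmin
        have hgt := hmin (by omega)
        have hr0 : (0:ℝ) ≤ 2 ^ (l - 1) / 2 ^ k := by positivity
        have h1 : ¬ ‖v‖ ≤ 2 ^ (l - 1) / 2 ^ k := not_le.mpr hgt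
        rw [pi_norm_le_iff_of_nonneg hr0] at h1
        push Not at h1
        obtain ⟨i, hi⟩ := h1
        rw [Real.norm_eq_abs] at hi
        have hvi : 0 < |v i| := lt_of_le_of_lt hr0 hi
        refine (hv i (abs_pos.mp hvi)).trans ?_
        have h2 : (2 ^ (l - 1) / 2 ^ k : ℝ) ^ 2 ≤ v i ^ 2 := by
          rw [← sq_abs (v i)]
          gcongr
        have h3 : (0:ℝ) < 2 ^ (l - 1) / 2 ^ k := by positivity
        calc 1 / (2 ^ k * v i ^ 2) ≤ 1 / (2 ^ k * (2 ^ (l - 1) / 2 ^ k : ℝ) ^ 2) := by gcongr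
          _ = 2 ^ k * (4 / 4 ^ l) := by
              obtain ⟨l', hl'⟩ : ∃ l', l = l' + 1 := ⟨l - 1, by omega⟩
              rw [hl', Nat.add_sub_cancel]
              have h4 : (4:ℝ) ^ (l' + 1) = 4 * (2 ^ l') ^ 2 := by
                rw [← pow_mul, mul_comm l' 2, pow_mul]
                norm_num
                ring
              rw [h4]
              field_simp
    calc B ≤ 2 ^ k * (4 / 4 ^ l) := hgoal
      _ ≤ 2 ^ k * hh k ‖v‖ := by gcongr
  · push Not at hex
    have hgt := hex k le_rfl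
    rw [div_self (by positivity)] at hgt
    have h1 : ¬ ‖v‖ ≤ 1 := not_le.mpr hgt
    rw [pi_norm_le_iff_of_nonneg zero_le_one] at h1
    push Not at h1
    obtain ⟨i, hi⟩ := h1
    rw [Real.norm_eq_abs] at hi
    have hvi : 0 < |v i| := by linarith
    refine (hv i (abs_pos.mp hvi)).trans ?_
    have h2 : 1 ≤ v i ^ 2 := by
      rw [← sq_abs (v i)]
      nlinarith
    have h3 : 4 / 4 ^ k ≤ hh k ‖v‖ := by
      unfold hh
      have := Finset.sum_nonneg (s := Finset.range (k + 1)) (fun l _ => hsum0 l)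
      linarith
    calc 1 / (2 ^ k * v i ^ 2) ≤ 1 / (2 ^ k * 1) := by gcongr
      _ ≤ 2 ^ k * (4 / 4 ^ k) := by
          rw [show (4:ℝ) ^ k = 2 ^ k * 2 ^ k by rw [← mul_pow]; norm_num]
          rw [mul_one]
          have : (0:ℝ) < 2 ^ k := by positivity
          rw [show (2:ℝ) ^ k * (4 / (2 ^ k * 2 ^ k)) = 4 / 2 ^ k by field_simp]
          gcongr
          norm_num
      _ ≤ 2 ^ k * hh k ‖v‖ := by gcongr

lemma J_bound (k : ℕ) (v : Fin (d + 1) → ℝ) (b : ℝ) :
    |∫ t, LL (2 ^ k) (b + ip t v) ∂(tau0 d)| ≤ 2 ^ k * hh k ‖v‖ := by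
  have hN : (0:ℝ) < 2 ^ k := by positivity
  refine dyadic (abs_nonneg _) ?_ fun i hi => multi_dim hN i hi b
  exact abs_integral_le_of_bdd tau0_univ_le hN.le fun t => abs_LL_le' hN _

end

end Pool.Agent.D0H31.DS
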