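import Pool.Agent.D0H31.DS.Energy

/-! # The energy estimate: Fubini -/

set_option autoImplicit false

open MeasureTheory Set

namespace Pool.Agent.D0H31.DS

noncomputable section

variable {d : ℕ}

/-- the product measure -/
def PP (d : ℕ) (μ : Measure ℝ) : Measure (Fin (d + 1) → ℝ) := Measure.pi fun _ => μ

instance (μ : Measure ℝ) [IsProbabilityMeasure μ] : IsProbabilityMeasure (PP d μ) := by
  unfold PP; infer_instance

/-- the smoothed law of `⟨t, x⟩` -/
def uu (μ : Measure ℝ) (N : ℝ) (t : Fin (d + 1) → ℝ) (y : ℝ) : ℝ :=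
  ∫ x, LL N (ip t x - y) ∂(PP d μ)

/-- the energy -/
def EE (μ : Measure ℝ) (N : ℝ) (t : Fin (d + 1) → ℝ) : ℝ := ∫ y, uu μ N t y ^ 2

variable {μ : Measure ℝ} [IsProbabilityMeasure μ]

lemma measurable_ipt (t : Fin (d + 1) → ℝ) : Measurable (ip t) := by
  unfold ip
  fun_prop

lemma measurable_ip' : Measurable fun p : (Fin (d + 1) → ℝ) × (Fin (d + 1) → ℝ) => ip p.1 p.2 :=
  continuous_ip.measurable

lemma uu_sq (N : ℝ) (t : Fin (d + 1) → ℝ) (y : ℝ) :
    uu μ N t y ^ 2 = ∫ w, LL N (ip t w.1 - y) * LL N (ip t w.2 - y) ∂((PP d μ).prod (PP d μ)) := by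
  rw [integral_prod_mul (fun x => LL N (ip t x - y)) (fun x => LL N (ip t x - y)), sq]
  rfl

lemma integrable_chi_prod {N : ℝ} (hN : 0 < N) (t : Fin (d + 1) → ℝ) :
    Integrable (fun p : ℝ × ((Fin (d + 1) → ℝ) × (Fin (d + 1) → ℝ)) => chi N (ip t p.2.1 - p.1))
      (volume.prod ((PP d μ).prod (PP d μ))) := by
  have hm : Measurable (fun p : ℝ × ((Fin (d + 1) → ℝ) × (Fin (d + 1) → ℝ)) =>
      chi N (ip t p.2.1 - p.1)) := by
    refine (measurable_chi N).comp ?_
    exact ((measurable_ipt t).comp (measurable_fst.comp measurable_snd)).sub measurable_fst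
  rw [integrable_prod_iff' hm.aestronglyMeasurable]
  have h1 : ∀ c : ℝ, Integrable fun y => chi N (c - y) := fun c => (integrable_chi N).comp_sub_left c
  refine ⟨Filter.Eventually.of_forall fun w => h1 (ip t w.1), ?_⟩
  have h2 : (fun w : (Fin (d + 1) → ℝ) × (Fin (d + 1) → ℝ) => ∫ y, ‖chi N (ip t w.1 - y)‖) =
      fun _ => (1:ℝ) := by
    funext w
    have h3 : ∀ y, ‖chi N (ip t w.1 - y)‖ = chi N (ip t w.1 - y) := fun y => by
      rw [Real.norm_eq_abs, abs_of_nonneg (chi_nonneg hN _)]
    simp only [h3]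
    rw [integral_sub_left_eq_self (chi N) volume (ip t w.1), integral_chi hN]
  simp only [h2]
  exact integrable_const _

lemma EE_eq {N : ℝ} (hN : 0 < N) (t : Fin (d + 1) → ℝ) :
    EE μ N t = ∫ w, (∫ s, LL N s * LL N (s + ip t (w.1 - w.2))) ∂((PP d μ).prod (PP d μ)) := by
  unfold EE
  simp only [uu_sq]
  rw [integral_integral_swap]
  · refine integral_congr_ae (Filter.Eventually.of_forall fun w => ?_)
    simp only
    rw [← integral_sub_left_eq_self (fun y => LL N (ip t w.1 - y) * LL N (ip t w.2 - y)) volume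
      (ip t w.2)]
    refine integral_congr_ae (Filter.Eventually.of_forall fun s => ?_)
    simp only
    rw [ip_sub, sub_sub_cancel, mul_comm]
    congr 2
    ring
  · refine ((integrable_chi_prod (μ := μ) hN t).const_mul N).mono' ?_ ?_
    · refine Measurable.aestronglyMeasurable ?_
      unfold Function.uncurry
      refine Measurable.mul ((measurable_LL N).comp ?_) ((measurable_LL N).comp ?_)
      · exact ((measurable_ipt t).comp (measurable_fst.comp measurable_snd)).sub measurable_fst
      · exact ((measurable_ipt t).comp (measurable_snd.comp measurable_snd)).sub measurable_fst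
    · refine Filter.Eventually.of_forall fun p => ?_
      unfold Function.uncurry
      rw [Real.norm_eq_abs, abs_mul, mul_comm]
      exact mul_le_mul (abs_LL_le' hN _) (abs_LL_le hN _) (abs_nonneg _) hN.le

lemma inner_bdd {N : ℝ} (hN : 0 < N) (c : ℝ) : |∫ s, LL N s * LL N (s + c)| ≤ N := by
  rw [← Real.norm_eq_abs]
  refine (norm_integral_le_of_norm_le ((integrable_chi N).mul_const N)
    (Filter.Eventually.of_forall fun s => ?_)).trans ?_
  · rw [Real.norm_eq_abs, abs_mul]
    exact mul_le_mul (abs_LL_le hN _) (abs_LL_le' hN _) (abs_nonneg _) (chi_nonneg hN _)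
  · rw [integral_mul_const, integral_chi hN, one_mul]

lemma measurable_inner (N : ℝ) : Measurable fun c : ℝ => ∫ s, LL N s * LL N (s + c) := by
  refine (StronglyMeasurable.integral_prod_right' (ν := (volume : Measure ℝ))
    (f := fun p : ℝ × ℝ => LL N p.2 * LL N (p.2 + p.1)) ?_).measurable
  refine Measurable.stronglyMeasurable ?_
  exact ((measurable_LL N).comp measurable_snd).mul
    ((measurable_LL N).comp (measurable_snd.add measurable_fst))

lemma measurable_hh (k : ℕ) : Measurable (hh k) := by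
  unfold hh
  refine measurable_const.add (Finset.measurable_fun_sum _ fun l _ => ?_)
  exact measurable_const.mul (Measurable.ite measurableSet_Iic measurable_const measurable_const)

lemma hh_le (k : ℕ) (ρ : ℝ) : hh k ρ ≤ 4 + ∑ _l ∈ Finset.range (k + 1), 4 := by
  unfold hh
  refine add_le_add ?_ (Finset.sum_le_sum fun l _ => ?_)
  · exact div_le_self (by norm_num) (one_le_pow₀ (by norm_num))
  · have : (4:ℝ) / 4 ^ l ≤ 4 := div_le_self (by norm_num) (one_le_pow₀ (by norm_num))
    split_ifs
    · linarith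
    · norm_num

lemma measurable_EE {N : ℝ} (hN : 0 < N) : Measurable (EE (d := d) μ N) := by
  have hthis : EE (d := d) μ N = fun t =>
      ∫ w, (∫ s, LL N s * LL N (s + ip t (w.1 - w.2))) ∂((PP d μ).prod (PP d μ)) := by
    funext t
    rw [EE_eq hN]
  rw [hthis]
  refine (StronglyMeasurable.integral_prod_right' (ν := (PP d μ).prod (PP d μ))
    (f := fun p : (Fin (d + 1) → ℝ) × ((Fin (d + 1) → ℝ) × (Fin (d + 1) → ℝ)) =>
        ∫ s, LL N s * LL N (s + ip p.1 (p.2.1 - p.2.2))) ?_).measurable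
  refine Measurable.stronglyMeasurable ?_
  exact (measurable_inner N).comp (measurable_ip'.comp (measurable_fst.prodMk
    ((measurable_fst.comp measurable_snd).sub (measurable_snd.comp measurable_snd))))

omit [IsProbabilityMeasure μ] in
lemma EE_nonneg (N : ℝ) (t : Fin (d + 1) → ℝ) : 0 ≤ EE μ N t :=
  integral_nonneg fun _ => sq_nonneg _

lemma EE_le {N : ℝ} (hN : 0 < N) (t : Fin (d + 1) → ℝ) : EE μ N t ≤ N := by
  rw [EE_eq hN]
  refine (le_abs_self _).trans ?_
  exact abs_integral_le_of_bdd (by rw [probReal_univ]) hN.le fun w => inner_bdd hN _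

lemma energy_int (k : ℕ) :
    ∫ t, EE (d := d) μ (2 ^ k) t ∂(tau0 d) ≤
      ∫ w, 2 ^ k * hh k ‖w.1 - w.2‖ ∂((PP d μ).prod (PP d μ)) := by
  have hN : (0:ℝ) < 2 ^ k := by positivity
  simp only [EE_eq hN]
  rw [integral_integral_swap]
  · refine (le_abs_self _).trans ?_
    rw [← Real.norm_eq_abs]
    refine norm_integral_le_of_norm_le ?_ (Filter.Eventually.of_forall fun w => ?_)
    · refine Integrable.const_mul ?_ _
      refine Integrable.of_bound ((measurable_hh k).comp (by fun_prop)).aestronglyMeasurable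
        (4 + ∑ _l ∈ Finset.range (k + 1), 4) (Filter.Eventually.of_forall fun w => ?_)
      rw [Real.norm_eq_abs, abs_of_nonneg (hh_nonneg _ _)]
      exact hh_le _ _
    · rw [integral_integral_swap]
      · refine (norm_integral_le_of_norm_le ((integrable_chi (2 ^ k)).mul_const
          (2 ^ k * hh k ‖w.1 - w.2‖)) (Filter.Eventually.of_forall fun s => ?_)).trans ?_
        · rw [integral_const_mul, Real.norm_eq_abs, abs_mul]
          exact mul_le_mul (abs_LL_le hN _) (J_bound k _ _) (abs_nonneg _) (chi_nonneg hN _)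
        · rw [integral_mul_const, integral_chi hN, one_mul]
      · have h1 : Integrable (fun p : (Fin (d + 1) → ℝ) × ℝ => (2:ℝ) ^ k * chi (2 ^ k) p.2)
            ((tau0 d).prod volume) :=
          Integrable.mul_prod (integrable_const ((2:ℝ) ^ k)) (integrable_chi (2 ^ k))
        refine h1.mono' ?_ (Filter.Eventually.of_forall fun p => ?_)
        · refine Measurable.aestronglyMeasurable ?_
          unfold Function.uncurry
          refine Measurable.mul ((measurable_LL _).comp measurable_snd) ((measurable_LL _).comp ?_)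
          refine measurable_snd.add (measurable_ip'.comp (measurable_fst.prodMk measurable_const))
        · unfold Function.uncurry
          rw [Real.norm_eq_abs, abs_mul, mul_comm]
          exact mul_le_mul (abs_LL_le' hN _) (abs_LL_le hN _) (abs_nonneg _) hN.le
  · refine Integrable.of_bound (Measurable.aestronglyMeasurable ?_) (2 ^ k)
      (Filter.Eventually.of_forall fun p => ?_)
    · unfold Function.uncurry
      exact (measurable_inner _).comp (measurable_ip'.comp (measurable_fst.prodMk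
        ((measurable_fst.comp measurable_snd).sub (measurable_snd.comp measurable_snd))))
    · unfold Function.uncurry
      rw [Real.norm_eq_abs]
      exact inner_bdd hN _

lemma ball_int {C s : ℝ} (hC : 0 ≤ C)
    (hF : ∀ z r : ℝ, 0 < r → μ (Metric.closedBall z r) ≤ ENNReal.ofReal (C * r ^ s)) {r : ℝ}
    (hr : 0 < r) :
    ∫ w, (if ‖w.1 - w.2‖ ≤ r then (1:ℝ) else 0) ∂((PP d μ).prod (PP d μ)) ≤
      (C * r ^ s) ^ (d + 1) := by
  have hmeas : Measurable fun w : (Fin (d + 1) → ℝ) × (Fin (d + 1) → ℝ) =>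
      (if ‖w.1 - w.2‖ ≤ r then (1:ℝ) else 0) :=
    Measurable.ite (measurableSet_le (by fun_prop) measurable_const) measurable_const measurable_const
  have hint : Integrable (fun w : (Fin (d + 1) → ℝ) × (Fin (d + 1) → ℝ) =>
      (if ‖w.1 - w.2‖ ≤ r then (1:ℝ) else 0)) ((PP d μ).prod (PP d μ)) := by
    refine Integrable.of_bound hmeas.aestronglyMeasurable 1 (Filter.Eventually.of_forall fun w => ?_)
    split_ifs <;> norm_num
  rw [integral_prod _ hint]
  have h1 : ∀ x : Fin (d + 1) → ℝ, ∫ y, (if ‖x - y‖ ≤ r then (1:ℝ) else 0) ∂(PP d μ) ≤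
      (C * r ^ s) ^ (d + 1) := by
    intro x
    have h2 : (fun y : Fin (d + 1) → ℝ => if ‖x - y‖ ≤ r then (1:ℝ) else 0) =
        (Metric.closedBall x r).indicator 1 := by
      funext y
      unfold Set.indicator
      simp only [Metric.mem_closedBall, dist_comm y x, dist_eq_norm, Pi.one_apply]
    rw [h2, integral_indicator_one Metric.isClosed_closedBall.measurableSet, measureReal_def]
    refine ENNReal.toReal_le_of_le_ofReal (by positivity) ?_
    unfold PP
    rw [Measure.pi_closedBall _ _ hr.le]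
    calc ∏ i : Fin (d + 1), μ (Metric.closedBall (x i) r)
        ≤ ∏ _i : Fin (d + 1), ENNReal.ofReal (C * r ^ s) :=
          Finset.prod_le_prod' fun i _ => hF (x i) r hr
      _ = ENNReal.ofReal ((C * r ^ s) ^ (d + 1)) := by
          rw [Finset.prod_const, Finset.card_univ, Fintype.card_fin, ENNReal.ofReal_pow (by positivity)]
  calc ∫ x, ∫ y, (if ‖(x, y).1 - (x, y).2‖ ≤ r then (1:ℝ) else 0) ∂(PP d μ) ∂(PP d μ)
      ≤ ∫ x, (C * r ^ s) ^ (d + 1) ∂(PP d μ) := by
        refine integral_mono hint.integral_prod_left (integrable_const _) fun x => h1 x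
    _ = (C * r ^ s) ^ (d + 1) := by
        rw [integral_const, probReal_univ, one_smul]

theorem energy_bound {C s : ℝ} (hC : 0 ≤ C) (hs : s * (d + 1) < 2)
    (hF : ∀ z r : ℝ, 0 < r → μ (Metric.closedBall z r) ≤ ENNReal.ofReal (C * r ^ s)) (k : ℕ) :
    ∫ t, EE (d := d) μ (2 ^ k) t ∂(tau0 d) ≤
      (4 + 4 * C ^ (d + 1) / (1 - 2 ^ (s * (d + 1)) / 4)) * (2 / 2 ^ (s * (d + 1))) ^ k := by
  set x : ℝ := 2 ^ (s * (d + 1)) with hx
  have hx0 : 0 < x := by positivity
  have hx4 : x < 4 := by
    calc x < 2 ^ (2:ℝ) := Real.rpow_lt_rpow_of_exponent_lt (by norm_num) hs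
      _ = 4 := by norm_num
  have hρ : 0 < 1 - x / 4 := by linarith
  refine (energy_int k).trans ?_
  rw [integral_const_mul]
  have hint : ∀ l : ℕ, Integrable (fun w : (Fin (d + 1) → ℝ) × (Fin (d + 1) → ℝ) =>
      (4:ℝ) / 4 ^ l * (if ‖w.1 - w.2‖ ≤ 2 ^ l / 2 ^ k then (1:ℝ) else 0))
      ((PP d μ).prod (PP d μ)) := by
    intro l
    refine Integrable.const_mul ?_ _
    refine Integrable.of_bound (Measurable.ite (measurableSet_le (by fun_prop) measurable_const)
      measurable_const measurable_const).aestronglyMeasurable 1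
      (Filter.Eventually.of_forall fun w => ?_)
    split_ifs <;> norm_num
  have h1 : ∫ w, hh k ‖w.1 - w.2‖ ∂((PP d μ).prod (PP d μ)) ≤
      4 / 4 ^ k + ∑ l ∈ Finset.range (k + 1), 4 / 4 ^ l * (C * (2 ^ l / 2 ^ k) ^ s) ^ (d + 1) := by
    unfold hh
    rw [integral_add (integrable_const _) (integrable_finsetSum _ fun l _ => hint l),
      integral_const, probReal_univ, one_smul, integral_finsetSum _ fun l _ => hint l]
    refine add_le_add le_rfl (Finset.sum_le_sum fun l _ => ?_)
    rw [integral_const_mul]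
    exact mul_le_mul_of_nonneg_left (ball_int hC hF (by positivity)) (by positivity)
  have h2 : ∀ l : ℕ, (4:ℝ) / 4 ^ l * (C * (2 ^ l / 2 ^ k) ^ s) ^ (d + 1) =
      4 * C ^ (d + 1) / x ^ k * (x / 4) ^ l := by
    intro l
    have h3 : ((2:ℝ) ^ l / 2 ^ k) ^ s = ((2:ℝ) ^ s) ^ l / ((2:ℝ) ^ s) ^ k := by
      rw [Real.div_rpow (by positivity) (by positivity), ← Real.rpow_natCast 2 l,
        ← Real.rpow_natCast 2 k, ← Real.rpow_natCast _ l, ← Real.rpow_natCast _ k,
        ← Real.rpow_mul (by norm_num), ← Real.rpow_mul (by norm_num), ← Real.rpow_mul (by norm_num),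
        ← Real.rpow_mul (by norm_num), mul_comm s, mul_comm s]
    have h4 : x = ((2:ℝ) ^ s) ^ (d + 1) := by
      rw [hx, ← Real.rpow_natCast, ← Real.rpow_mul (by norm_num)]
      push_cast
      rfl
    rw [h3, h4, mul_pow, div_pow, ← pow_mul, ← pow_mul, div_pow, ← pow_mul, ← pow_mul,
      mul_comm l, mul_comm k]
    field_simp
  have h3 : ∑ l ∈ Finset.range (k + 1), (x / 4) ^ l ≤ 1 / (1 - x / 4) := by
    rw [one_div, ← tsum_geometric_of_lt_one (by positivity) (by linarith)]
    exact Summable.sum_le_tsum _ (fun l _ => by positivity)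
      (summable_geometric_of_lt_one (by positivity) (by linarith))
  calc (2:ℝ) ^ k * ∫ w, hh k ‖w.1 - w.2‖ ∂((PP d μ).prod (PP d μ))
      ≤ 2 ^ k * (4 / 4 ^ k + ∑ l ∈ Finset.range (k + 1), 4 / 4 ^ l * (C * (2 ^ l / 2 ^ k) ^ s) ^ (d + 1)) := by
        gcongr
    _ = 2 ^ k * (4 / 4 ^ k + 4 * C ^ (d + 1) / x ^ k * ∑ l ∈ Finset.range (k + 1), (x / 4) ^ l) := by
        rw [Finset.sum_congr rfl fun l _ => h2 l, Finset.mul_sum]
    _ ≤ 2 ^ k * (4 / x ^ k + 4 * C ^ (d + 1) / x ^ k * (1 / (1 - x / 4))) := by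
        gcongr
    _ = (4 + 4 * C ^ (d + 1) / (1 - x / 4)) * (2 / x) ^ k := by
        rw [div_pow]
        field_simp

end

end Pool.Agent.D0H31.DS
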