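import Pool.Agent.D0H31.DS.Analytic
import Pool.Agent.R280.HC.C0
import Pool.Agent.R280.HC.C0H
import Pool.Agent.R280.HC.SA
import Pool.Agent.R280.HC.SB
import Pool.Agent.R280.HC.WL
import Pool.Agent.R280.HC.FL

/-! # Frostman's lemma for Borel subsets of the line -/

set_option autoImplicit false

open MeasureTheory Set Filter Topology Metric

namespace Pool.Agent.D0H31.DS

open Pool.Agent.R280.HC

noncomputable section

lemma ediam_II (q : ℕ × ℤ) : ediam (II q) ≤ ENNReal.ofReal ((2:ℝ) ^ (-(q.1:ℝ))) := by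
  refine ediam_le fun x hx y hy => ?_
  rw [edist_dist, Real.dist_eq]
  refine ENNReal.ofReal_le_ofReal ?_
  have hx' : ⌊(2:ℝ) ^ q.1 * x⌋ = q.2 := hx
  have hy' : ⌊(2:ℝ) ^ q.1 * y⌋ = q.2 := hy
  rw [Int.floor_eq_iff] at hx' hy'
  have h2 : (0:ℝ) < 2 ^ q.1 := by positivity
  rw [Real.rpow_neg (by norm_num), Real.rpow_natCast, ← one_div, le_div_iff₀ h2,
    ← abs_of_pos h2, ← abs_mul, abs_le]
  constructor <;> nlinarith [hx'.1, hx'.2, hy'.1, hy'.2]

lemma ediam_II_rpow {s : ℝ} (hs : 0 < s) (q : ℕ × ℤ) : (ediam (II q)) ^ s ≤ ww s q := by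
  refine (ENNReal.rpow_le_rpow (ediam_II q) hs.le).trans (le_of_eq ?_)
  unfold ww
  rw [ENNReal.ofReal_rpow_of_pos (by positivity), ← Real.rpow_mul (by norm_num)]
  congr 2
  ring

lemma cont_le_MM {s : ℝ} (hs : 0 < s) (A : Set ℝ) : cont s A ≤ MM s A := by
  classical
  refine le_iInf₂ fun S hS => ?_
  let e : ℕ ≃ ℕ × ℤ := (Denumerable.eqv (ℕ × ℤ)).symm
  have h1 : A ⊆ ⋃ n, (if e n ∈ S then II (e n) else ∅) := by
    intro x hx
    obtain ⟨q, hq, hxq⟩ := mem_UI.mp (hS hx)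
    refine Set.mem_iUnion.mpr ⟨e.symm q, ?_⟩
    rw [Equiv.apply_symm_apply, if_pos hq]
    exact hxq
  unfold cont
  refine (iInf₂_le (fun n => if e n ∈ S then II (e n) else ∅) h1).trans ?_
  rw [WW_apply, ← e.tsum_eq (fun q => S.indicator (ww s) q)]
  refine ENNReal.tsum_le_tsum fun n => ?_
  change ediam (if e n ∈ S then II (e n) else ∅) ^ s ≤ S.indicator (ww s) (e n)
  by_cases h : e n ∈ S
  · rw [if_pos h, Set.indicator_of_mem h]
    exact ediam_II_rpow hs _
  · rw [if_neg h, ediam_empty, ENNReal.zero_rpow_of_pos hs]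
    exact zero_le

lemma MM_iUnion {s : ℝ} (E : ℕ → Set ℝ) : MM s (⋃ n, E n) ≤ ∑' n, MM s (E n) := by
  refine ENNReal.le_of_forall_pos_le_add fun ε hε hfin => ?_
  obtain ⟨ε', hε'pos, hε'sum⟩ := ENNReal.exists_pos_sum_of_countable
    (ε := (ε : ENNReal)) (by exact_mod_cast hε.ne') ℕ
  have hex : ∀ n, ∃ S : Set (ℕ × ℤ), E n ⊆ UI S ∧ WW s S ≤ MM s (E n) + ε' n := fun n =>
    exists_cover (ENNReal.ne_top_of_tsum_ne_top hfin.ne n) (by exact_mod_cast (hε'pos n).ne')
  choose S hSc hSw using hex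
  have h1 : (⋃ n, E n) ⊆ UI (⋃ n, S n) := by
    intro x hx
    obtain ⟨n, hn⟩ := Set.mem_iUnion.mp hx
    obtain ⟨q, hq, hxq⟩ := mem_UI.mp (hSc n hn)
    exact mem_UI.mpr ⟨q, Set.mem_iUnion.mpr ⟨n, hq⟩, hxq⟩
  calc MM s (⋃ n, E n) ≤ WW s (⋃ n, S n) := MM_le h1
    _ ≤ ∑' n, WW s (S n) := measure_iUnion_le S
    _ ≤ ∑' n, (MM s (E n) + ε' n) := ENNReal.tsum_le_tsum hSw
    _ = ∑' n, MM s (E n) + ∑' n, (ε' n : ENNReal) := ENNReal.tsum_add
    _ ≤ ∑' n, MM s (E n) + ε := by gcongr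

lemma WW_singleton (s : ℝ) (q : ℕ × ℤ) : WW s {q} = ww s q := by
  rw [WW_apply, tsum_eq_single q]
  · rw [Set.indicator_of_mem (Set.mem_singleton q)]
  · intro b hb
    exact Set.indicator_of_notMem (s := {q}) (fun h => hb h) _

lemma MM_diam {s : ℝ} (hs : 0 < s) {E : Set ℝ} (hE : E ⊆ Icc 0 1) :
    MM s E ≤ ENNReal.ofReal (3 * 2 ^ s) * (ediam E) ^ s := by
  rcases E.eq_empty_or_nonempty with rfl | ⟨x, hx⟩
  · have : MM s (∅ : Set ℝ) ≤ WW s ∅ := MM_le (Set.empty_subset _)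
    rw [measure_empty] at this
    exact this.trans zero_le
  -- a cover at a given level
  have key : ∀ k : ℕ, (∀ y ∈ E, |y - x| ≤ (2:ℝ) ^ (-(k:ℝ))) →
      MM s E ≤ 3 * ENNReal.ofReal ((2:ℝ) ^ (-(s * k))) := by
    intro k hk
    set j : ℤ := ⌊(2:ℝ) ^ k * x⌋ with hj
    have hcov : E ⊆ UI ({(k, j - 1)} ∪ ({(k, j)} ∪ {(k, j + 1)})) := by
      intro y hy
      have h1 := hk y hy
      have h2 : (0:ℝ) < 2 ^ k := by positivity
      rw [Real.rpow_neg (by norm_num), Real.rpow_natCast, ← one_div, le_div_iff₀ h2,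
        ← abs_of_pos h2, ← abs_mul, abs_le] at h1
      have h3 := Int.floor_le ((2:ℝ) ^ k * x)
      have h4 := Int.lt_floor_add_one ((2:ℝ) ^ k * x)
      rw [← hj] at h3 h4
      rcases lt_or_ge ((2:ℝ) ^ k * y) j with h | h
      · refine mem_UI.mpr ⟨(k, j - 1), Or.inl rfl, ?_⟩
        change ⌊(2:ℝ) ^ k * y⌋ = j - 1
        rw [Int.floor_eq_iff]
        push_cast
        constructor <;> nlinarith [h1.1, h1.2]
      · rcases lt_or_ge ((2:ℝ) ^ k * y) (j + 1) with h' | h'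
        · refine mem_UI.mpr ⟨(k, j), Or.inr (Or.inl rfl), ?_⟩
          change ⌊(2:ℝ) ^ k * y⌋ = j
          rw [Int.floor_eq_iff]
          constructor <;> linarith
        · refine mem_UI.mpr ⟨(k, j + 1), Or.inr (Or.inr rfl), ?_⟩
          change ⌊(2:ℝ) ^ k * y⌋ = j + 1
          rw [Int.floor_eq_iff]
          push_cast
          constructor <;> nlinarith [h1.1, h1.2]
    refine (MM_le hcov).trans ((measure_union_le _ _).trans ?_)
    refine (add_le_add_right (measure_union_le _ _) _).trans (le_of_eq ?_)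
    rw [WW_singleton, WW_singleton, WW_singleton]
    unfold ww
    ring
  rcases (zero_le : (0:ENNReal) ≤ ediam E).eq_or_lt with h0 | hpos
  · -- singleton
    have hsub : E.Subsingleton := ediam_eq_zero_iff.mp h0.symm
    have h1 : ∀ k : ℕ, MM s E ≤ 3 * ENNReal.ofReal ((2:ℝ) ^ (-(s * k))) := by
      intro k
      refine key k fun y hy => ?_
      rw [hsub hy hx, sub_self, abs_zero]
      positivity
    have h2 : Tendsto (fun k : ℕ => 3 * ENNReal.ofReal ((2:ℝ) ^ (-(s * k)))) atTop (𝓝 (3 * 0)) := by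
      refine ENNReal.Tendsto.const_mul ?_ (Or.inr (by norm_num))
      rw [← ENNReal.ofReal_zero]
      refine ENNReal.tendsto_ofReal ?_
      have h3 : ∀ k : ℕ, (2:ℝ) ^ (-(s * k)) = (2 ^ (-s)) ^ k := fun k => by
        rw [← Real.rpow_natCast, ← Real.rpow_mul (by norm_num)]
        congr 1
        ring
      simp only [h3]
      exact tendsto_pow_atTop_nhds_zero_of_lt_one (by positivity)
        (Real.rpow_lt_one_of_one_lt_of_neg (by norm_num) (by linarith))
    rw [mul_zero] at h2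
    exact (ge_of_tendsto' h2 h1).trans zero_le
  · have hle1 : ediam E ≤ 1 := by
      refine ediam_le fun y hy z hz => ?_
      rw [edist_dist, Real.dist_eq, ← ENNReal.ofReal_one]
      refine ENNReal.ofReal_le_ofReal ?_
      rw [abs_le]
      constructor <;> linarith [(hE hy).1, (hE hy).2, (hE hz).1, (hE hz).2]
    have hfin : ediam E ≠ ⊤ := ne_top_of_le_ne_top ENNReal.one_ne_top hle1
    set r : ℝ := (ediam E).toReal with hr
    have hr0 : 0 < r := ENNReal.toReal_pos hpos.ne' hfin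
    have hr1 : r ≤ 1 := by
      have := ENNReal.toReal_mono ENNReal.one_ne_top hle1
      rwa [ENNReal.toReal_one] at this
    obtain ⟨k, hk1, hk2⟩ := exists_nat_pow_near_of_lt_one hr0 hr1
      (by norm_num : (0:ℝ) < 1 / 2) (by norm_num : (1:ℝ) / 2 < 1)
    have hpw : ((1:ℝ) / 2) ^ k = 2 ^ (-(k:ℝ)) := by
      rw [Real.rpow_neg (by norm_num), Real.rpow_natCast, one_div, inv_pow]
    have h1 := key k fun y hy => by
      rw [← hpw]
      refine le_trans ?_ hk2
      rw [← Real.dist_eq, dist_edist, hr]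
      exact ENNReal.toReal_mono hfin (edist_le_ediam_of_mem hy hx)
    refine h1.trans ?_
    have h2 : (ediam E) ^ s = ENNReal.ofReal (r ^ s) := by
      rw [← ENNReal.ofReal_rpow_of_pos hr0, hr, ENNReal.ofReal_toReal hfin]
    rw [h2, ← ENNReal.ofReal_mul (by positivity),
      show (3:ENNReal) = ENNReal.ofReal 3 by simp, ← ENNReal.ofReal_mul (by norm_num)]
    refine ENNReal.ofReal_le_ofReal ?_
    have h3 : (2:ℝ) ^ (-(s * k)) ≤ (2 * r) ^ s := by
      have h4 : (2:ℝ) ^ (-(s * k)) = (2 ^ (-(k:ℝ))) ^ s := by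
        rw [← Real.rpow_mul (by norm_num)]
        congr 1
        ring
      rw [h4, ← hpw]
      refine Real.rpow_le_rpow (by positivity) ?_ hs.le
      rw [pow_succ] at hk1
      linarith
    rw [Real.mul_rpow (by norm_num) hr0.le] at h3
    linarith

lemma MM_le_cont {s : ℝ} (hs : 0 < s) {K : Set ℝ} (hK : K ⊆ Icc 0 1) :
    MM s K ≤ ENNReal.ofReal (3 * 2 ^ s) * cont s K := by
  unfold cont
  rw [ENNReal.mul_iInf_of_ne]
  · refine le_iInf fun U => ?_
    rw [ENNReal.mul_iInf_of_ne]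
    · refine le_iInf fun hU => ?_
      have h1 : K = ⋃ n, U n ∩ K := by
        rw [← Set.iUnion_inter]
        exact (Set.inter_eq_right.mpr hU).symm
      calc MM s K = MM s (⋃ n, U n ∩ K) := by rw [← h1]
        _ ≤ ∑' n, MM s (U n ∩ K) := MM_iUnion _
        _ ≤ ∑' n, ENNReal.ofReal (3 * 2 ^ s) * (ediam (U n)) ^ s := by
            refine ENNReal.tsum_le_tsum fun n => ?_
            refine (MM_diam hs (Set.inter_subset_right.trans hK)).trans ?_
            gcongr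
            exact Set.inter_subset_left
        _ = _ := ENNReal.tsum_mul_left
    · rw [Ne, ENNReal.ofReal_eq_zero, not_le]; positivity
    · exact ENNReal.ofReal_ne_top
  · rw [Ne, ENNReal.ofReal_eq_zero, not_le]; positivity
  · exact ENNReal.ofReal_ne_top

/-- Frostman's lemma for Borel subsets of `[0,1]` -/
theorem frostman_borel {s : ℝ} (hs : 0 < s) {A : Set ℝ} (hA : MeasurableSet A) (hAI : A ⊆ Icc 0 1)
    (hdim : ENNReal.ofReal s < dimH A) :
    ∃ K ⊆ A, IsCompact K ∧ ∃ μ : Measure ℝ, IsProbabilityMeasure μ ∧ μ Kᶜ = 0 ∧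
      ∃ C : ℝ, 0 ≤ C ∧ ∀ z r : ℝ, 0 < r → μ (closedBall z r) ≤ ENNReal.ofReal (C * r ^ s) := by
  have h1 : 0 < cont s A := Pool.Agent.R280.HC.C0H.main ℝ s hs A hdim
  obtain ⟨K, hKA, hK, hKpos⟩ := exists_compact hA (h1.trans_le (cont_le_MM hs A))
  have hcK : 0 < cont s K := by
    by_contra hcon
    have h0 : cont s K = 0 := by simpa using hcon
    have h2 := MM_le_cont hs (hKA.trans hAI)
    rw [h0, mul_zero] at h2
    exact absurd hKpos (not_lt.mpr h2)
  set κ : ℝ := (min (cont s K) 1).toReal with hκ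
  have hκ0 : 0 < κ := ENNReal.toReal_pos (lt_min hcK one_pos).ne'
    (ne_top_of_le_ne_top ENNReal.one_ne_top (min_le_right _ _))
  have hκle : ENNReal.ofReal κ ≤ cont s K := by
    rw [hκ, ENNReal.ofReal_toReal (ne_top_of_le_ne_top ENNReal.one_ne_top (min_le_right _ _))]
    exact min_le_left _ _
  obtain ⟨μ, hμ1, hμ2, hμ3⟩ := Pool.Agent.R280.HC.FL.main Pool.Agent.R280.HC.C0.main
    Pool.Agent.R280.HC.WL.main Pool.Agent.R280.HC.SA.main Pool.Agent.R280.HC.SB.main
    ℝ K hK s hs κ hκ0 hκle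
  exact ⟨K, hKA, hK, μ, hμ1, hμ2, 2 * 120 ^ s / κ, by positivity, hμ3⟩

end

end Pool.Agent.D0H31.DS
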