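import Pool.Agent.D0H31.DS.Upper

/-! # Geometry of the incidence graph -/

set_option autoImplicit false

open Finset

namespace Pool.Agent.D0H31.DS

noncomputable section

/-- slope -/
def kap (N k : ℕ) : ℝ := (k : ℝ) / N

/-- the cell -/
def cell (N : ℕ) (q : ℕ → ℝ) (k y : ℕ) : ℤ := ⌊q k - kap N k * y⌋

/-- indicator of the incidence relation -/
def ed (N : ℕ) (q : ℕ → ℝ) (k : ℕ) (x : ℤ) (y : ℕ) : ℝ := if cell N q k y = x then 1 else 0

variable {N : ℕ} {q : ℕ → ℝ}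

lemma ed_nonneg (k : ℕ) (x : ℤ) (y : ℕ) : 0 ≤ ed N q k x y := by
  unfold ed; split_ifs <;> norm_num

lemma ed_sum_x (X : Finset ℤ) (k y : ℕ) : ∑ x ∈ X, ed N q k x y ≤ 1 := by
  unfold ed
  rw [Finset.sum_ite_eq]
  split_ifs <;> norm_num

lemma cell_inj (hN : 0 < N) {k : ℕ} (hk : N ≤ k) {y y' : ℕ} (h : cell N q k y = cell N q k y') :
    y = y' := by
  have hN' : (0:ℝ) < N := by exact_mod_cast hN
  have hk1 : (1:ℝ) ≤ kap N k := by
    unfold kap
    rw [le_div_iff₀ hN', one_mul]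
    exact_mod_cast hk
  unfold cell at h
  by_contra hne
  have h1 := Int.floor_le (q k - kap N k * y)
  have h2 := Int.lt_floor_add_one (q k - kap N k * y)
  have h3 := Int.floor_le (q k - kap N k * y')
  have h4 := Int.lt_floor_add_one (q k - kap N k * y')
  rw [h] at h1 h2
  rcases lt_or_gt_of_ne hne with hlt | hlt
  · have h5 : (y:ℝ) + 1 ≤ y' := by exact_mod_cast hlt
    nlinarith
  · have h5 : (y':ℝ) + 1 ≤ y := by exact_mod_cast hlt
    nlinarith

lemma ed_sum_y (hN : 0 < N) (Y : Finset ℕ) {k : ℕ} (hk : N ≤ k) (x : ℤ) :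
    ∑ y ∈ Y, ed N q k x y ≤ 1 := by
  unfold ed
  rw [← Finset.sum_filter, Finset.sum_const, nsmul_eq_mul, mul_one]
  have : (Y.filter fun y => cell N q k y = x).card ≤ 1 := by
    rw [Finset.card_le_one]
    intro y hy y' hy'
    rw [Finset.mem_filter] at hy hy'
    exact cell_inj hN hk (hy.2.trans hy'.2.symm)
  exact_mod_cast this

lemma ed_ne {k : ℕ} {x : ℤ} {y : ℕ} (h : ed N q k x y ≠ 0) :
    0 ≤ q k - kap N k * y - x ∧ q k - kap N k * y - x < 1 := by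
  unfold ed cell at h
  have h0 : ⌊q k - kap N k * y⌋ = x := by
    by_contra hne
    exact h (if_neg hne)
  have h1 := Int.floor_le (q k - kap N k * y)
  have h2 := Int.lt_floor_add_one (q k - kap N k * y)
  rw [h0] at h1 h2
  constructor <;> linarith

/-- the translation part -/
def bet (N : ℕ) (q : ℕ → ℝ) (s s' t : ℕ) : ℝ :=
  (kap N s' - kap N s) * q t - kap N t * (q s' - q s)

lemma kap_mem (hN : 0 < N) {k : ℕ} (h1 : N ≤ k) (h2 : k ≤ 2 * N) : 1 ≤ kap N k ∧ kap N k ≤ 2 := by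
  have hN' : (0:ℝ) < N := by exact_mod_cast hN
  unfold kap
  constructor
  · rw [le_div_iff₀ hN', one_mul]; exact_mod_cast h1
  · rw [div_le_iff₀ hN']; exact_mod_cast h2

lemma chain_rel {X : Finset ℤ} {Y : Finset ℕ} {r s s' t z : ℕ} {x : ℤ}
    (hs : 1 ≤ kap N s ∧ kap N s ≤ 2) (hs' : 1 ≤ kap N s' ∧ kap N s' ≤ 2)
    (ht : 1 ≤ kap N t ∧ kap N t ≤ 2)
    (h : P5 X Y (ed N q) r s s' t (fun y => if y = z then 1 else 0) x ≠ 0) :
    |kap N s' * x - (kap N s * (q r - kap N r * z) + bet N q s s' t)| ≤ 8 := by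
  obtain ⟨y1, -, x', -, y0, -, x0, -, e1, e2, e3, e4, e5⟩ := P5_support h
  obtain ⟨a1, b1⟩ := ed_ne e1
  obtain ⟨a2, b2⟩ := ed_ne e2
  obtain ⟨a3, b3⟩ := ed_ne e3
  obtain ⟨a4, b4⟩ := ed_ne e4
  obtain ⟨a5, b5⟩ := ed_ne e5
  set ks := kap N s
  set ks' := kap N s'
  set kt := kap N t
  set θ1 := q t - kt * y1 - x with h1
  set θ2 := q s' - ks' * y1 - x' with h2
  set θ3 := q s - ks * y0 - x' with h3
  set θ4 := q t - kt * y0 - x0 with h4
  set θ5 := q r - kap N r * z - x0 with h5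
  have key : ks' * x - (ks * (q r - kap N r * z) + bet N q s s' t) =
      -ks' * θ1 + kt * (θ2 - θ3) + ks * θ4 - ks * θ5 := by
    rw [h1, h2, h3, h4, h5]
    unfold bet
    ring
  rw [key, abs_le]
  obtain ⟨hs1, hs2⟩ := hs
  obtain ⟨hs1', hs2'⟩ := hs'
  obtain ⟨ht1, ht2⟩ := ht
  have p1 : 0 ≤ ks' * θ1 ∧ ks' * θ1 ≤ 2 := ⟨by positivity, by nlinarith⟩
  have p2 : -2 ≤ kt * (θ2 - θ3) ∧ kt * (θ2 - θ3) ≤ 2 := ⟨by nlinarith, by nlinarith⟩
  have p4 : 0 ≤ ks * θ4 ∧ ks * θ4 ≤ 2 := ⟨by positivity, by nlinarith⟩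
  have p5 : 0 ≤ ks * θ5 ∧ ks * θ5 ≤ 2 := ⟨by positivity, by nlinarith⟩
  constructor <;> linarith [p1.1, p1.2, p2.1, p2.2, p4.1, p4.2, p5.1, p5.2]

/-- the translation -/
def tau (N : ℕ) (q : ℕ → ℝ) (s s' t t' : ℕ) : ℝ :=
  (bet N q s s' t - bet N q s s' t') / kap N s

lemma rel_of_chains {X : Finset ℤ} {Y : Finset ℕ} {r s s' t t' z z' : ℕ} {x : ℤ}
    (hs : 1 ≤ kap N s ∧ kap N s ≤ 2) (hs' : 1 ≤ kap N s' ∧ kap N s' ≤ 2)
    (ht : 1 ≤ kap N t ∧ kap N t ≤ 2) (ht' : 1 ≤ kap N t' ∧ kap N t' ≤ 2)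
    (h : P5 X Y (ed N q) r s s' t (fun y => if y = z then 1 else 0) x ≠ 0)
    (h' : P5 X Y (ed N q) r s s' t' (fun y => if y = z' then 1 else 0) x ≠ 0) :
    |kap N r * ((z':ℝ) - z) + tau N q s s' t t'| ≤ 16 := by
  have c1 := chain_rel hs hs' ht h
  have c2 := chain_rel hs hs' ht' h'
  rw [abs_le] at c1 c2
  have hs0 : 0 < kap N s := by linarith [hs.1]
  have key : kap N r * ((z':ℝ) - z) + tau N q s s' t t' =
      (kap N s * (kap N r * ((z':ℝ) - z)) + (bet N q s s' t - bet N q s s' t')) / kap N s := by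
    unfold tau
    field_simp
  rw [key, abs_div, abs_of_pos hs0, div_le_iff₀ hs0]
  have : |kap N s * (kap N r * ((z':ℝ) - z)) + (bet N q s s' t - bet N q s s' t')| ≤ 16 := by
    rw [abs_le]
    constructor <;> nlinarith [c1.1, c1.2, c2.1, c2.2]
  nlinarith [hs.1]

lemma card_near_nat (T : Finset ℕ) (c : ℝ) {L : ℝ} (hL : 0 ≤ L) :
    ((T.filter fun r : ℕ => |(r:ℝ) - c| ≤ L).card : ℝ) ≤ 2 * L + 1 := by
  have h1 : (T.filter fun r : ℕ => |(r:ℝ) - c| ≤ L).card ≤ (Finset.Icc ⌈c - L⌉ ⌊c + L⌋).card := by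
    refine Finset.card_le_card_of_injOn (fun r : ℕ => (r : ℤ)) ?_ ?_
    · intro r hr
      rw [Finset.mem_coe, Finset.mem_filter] at hr
      have := abs_le.mp hr.2
      rw [Finset.mem_coe, Finset.mem_Icc]
      constructor
      · rw [Int.ceil_le]; push_cast; linarith
      · rw [Int.le_floor]; push_cast; linarith
    · intro a _ b _ h
      have h' : (a : ℤ) = b := h
      exact_mod_cast h'
  have h2 : ((Finset.Icc ⌈c - L⌉ ⌊c + L⌋).card : ℝ) ≤ 2 * L + 1 := by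
    rw [Int.card_Icc]
    have h3 : ((⌊c + L⌋ + 1 - ⌈c - L⌉).toNat : ℝ) = ((max (⌊c + L⌋ + 1 - ⌈c - L⌉) 0 : ℤ) : ℝ) := by
      rw [← Int.toNat_eq_max]; push_cast; rfl
    rw [h3]
    push_cast
    refine max_le ?_ (by linarith)
    have := Int.floor_le (c + L)
    have := Int.le_ceil (c - L)
    linarith
  exact le_trans (by exact_mod_cast h1) h2

lemma card_near_int (T : Finset ℤ) (c : ℝ) {L : ℝ} (hL : 0 ≤ L) :
    ((T.filter fun r : ℤ => |(r:ℝ) - c| ≤ L).card : ℝ) ≤ 2 * L + 1 := by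
  have h1 : (T.filter fun r : ℤ => |(r:ℝ) - c| ≤ L).card ≤ (Finset.Icc ⌈c - L⌉ ⌊c + L⌋).card := by
    refine Finset.card_le_card ?_
    intro r hr
    rw [Finset.mem_filter] at hr
    have := abs_le.mp hr.2
    rw [Finset.mem_Icc]
    constructor
    · rw [Int.ceil_le]; linarith
    · rw [Int.le_floor]; linarith
  have h2 : ((Finset.Icc ⌈c - L⌉ ⌊c + L⌋).card : ℝ) ≤ 2 * L + 1 := by
    rw [Int.card_Icc]
    have h3 : ((⌊c + L⌋ + 1 - ⌈c - L⌉).toNat : ℝ) = ((max (⌊c + L⌋ + 1 - ⌈c - L⌉) 0 : ℤ) : ℝ) := by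
      rw [← Int.toNat_eq_max]; push_cast; rfl
    rw [h3]
    push_cast
    refine max_le ?_ (by linarith)
    have := Int.floor_le (c + L)
    have := Int.le_ceil (c - L)
    linarith
  exact le_trans (by exact_mod_cast h1) h2

/-- number of slopes for a given pair -/
lemma card_slopes (hN : 0 < N) (T : Finset ℕ) (w τ : ℝ) (hw : w ≠ 0) {L : ℝ} (hL : 0 ≤ L) :
    ((T.filter fun r : ℕ => |kap N r * w + τ| ≤ L).card : ℝ) ≤ 2 * (L * N / |w|) + 1 := by
  have hN' : (0:ℝ) < N := by exact_mod_cast hN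
  have hw' : 0 < |w| := abs_pos.mpr hw
  have h1 : (T.filter fun r : ℕ => |kap N r * w + τ| ≤ L) =
      T.filter fun r : ℕ => |(r:ℝ) - (-(τ * N / w))| ≤ L * N / |w| := by
    refine Finset.filter_congr fun r _ => ?_
    have : kap N r * w + τ = ((r:ℝ) - (-(τ * N / w))) * (w / N) := by
      unfold kap
      field_simp
      ring
    rw [this, abs_mul, abs_div, abs_of_pos hN', le_div_iff₀ hw', ← mul_div_assoc, div_le_iff₀ hN']
  rw [h1]
  exact card_near_nat T _ (by positivity)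

lemma pairs_bound (hN : 0 < N) {T Y : Finset ℕ} (hT : ∀ k ∈ T, N ≤ k ∧ k ≤ 2 * N)
    (hY : ∀ y ∈ Y, y ≤ N) {K a : ℝ} (hK : 0 ≤ K) (ha0 : 0 < a) (ha1 : a < 1)
    (hF : ∀ c R : ℝ, 1 ≤ R → ((Y.filter fun y : ℕ => |(y:ℝ) - c| ≤ R).card : ℝ) ≤ K * R ^ a)
    {τ : ℝ} (hτ : 100 ≤ |τ|) :
    ∑ r ∈ T, ∑ z ∈ Y, ∑ z' ∈ Y, (if |kap N r * ((z':ℝ) - z) + τ| ≤ 16 then (1:ℝ) else 0) ≤
      264 * K * N * Y.card * |τ| ^ (a - 1) := by
  have hN' : (0:ℝ) < N := by exact_mod_cast hN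
  have hτ0 : 0 < |τ| := by linarith
  -- swap
  have h0 : ∑ r ∈ T, ∑ z ∈ Y, ∑ z' ∈ Y, (if |kap N r * ((z':ℝ) - z) + τ| ≤ 16 then (1:ℝ) else 0) =
      ∑ z ∈ Y, ∑ z' ∈ Y, ∑ r ∈ T, (if |kap N r * ((z':ℝ) - z) + τ| ≤ 16 then (1:ℝ) else 0) := by
    rw [Finset.sum_comm]
    exact Finset.sum_congr rfl fun z _ => Finset.sum_comm
  rw [h0]
  have h1 : ∀ z ∈ Y, ∀ z' ∈ Y, ∑ r ∈ T, (if |kap N r * ((z':ℝ) - z) + τ| ≤ 16 then (1:ℝ) else 0) ≤
      if |(z':ℝ) - z| ≤ 2 * |τ| then 132 * N / |τ| else 0 := by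
    intro z hz z' hz'
    rw [← Finset.sum_filter, Finset.sum_const, nsmul_eq_mul, mul_one]
    by_cases hne : (T.filter fun r : ℕ => |kap N r * ((z':ℝ) - z) + τ| ≤ 16).Nonempty
    · obtain ⟨r, hr⟩ := hne
      rw [Finset.mem_filter] at hr
      obtain ⟨hr1, hr2⟩ := hr
      obtain ⟨k1, k2⟩ := kap_mem hN (hT r hr1).1 (hT r hr1).2
      set w : ℝ := (z':ℝ) - z with hw
      have hk : kap N r * |w| = |kap N r * w| := by
        rw [abs_mul, abs_of_nonneg (by linarith : (0:ℝ) ≤ kap N r)]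
      have e1 : |τ| - 16 ≤ kap N r * |w| := by
        rw [hk]
        have := abs_sub_abs_le_abs_sub τ (-(kap N r * w))
        rw [abs_neg, sub_neg_eq_add, add_comm τ] at this
        linarith
      have e2 : kap N r * |w| ≤ |τ| + 16 := by
        rw [hk]
        have := abs_sub_abs_le_abs_sub (kap N r * w) (-τ)
        rw [abs_neg, sub_neg_eq_add] at this
        linarith
      have hw0 : 0 ≤ |w| := abs_nonneg w
      have hwl : |τ| / 4 ≤ |w| := by nlinarith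
      have hwu : |w| ≤ 2 * |τ| := by nlinarith
      have hwN : |w| ≤ N := by
        rw [hw, abs_le]
        have a1 : (z:ℝ) ≤ N := by exact_mod_cast hY z hz
        have a2 : (z':ℝ) ≤ N := by exact_mod_cast hY z' hz'
        have a3 : (0:ℝ) ≤ z := Nat.cast_nonneg _
        have a4 : (0:ℝ) ≤ z' := Nat.cast_nonneg _
        constructor <;> linarith
      rw [if_pos hwu]
      have hwpos : 0 < |w| := by linarith
      have hwne : w ≠ 0 := abs_pos.mp hwpos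
      refine (card_slopes hN T w τ hwne (by norm_num : (0:ℝ) ≤ 16)).trans ?_
      have e3 : (1:ℝ) ≤ N / |w| := by rwa [le_div_iff₀ hwpos, one_mul]
      have e4 : N / |w| ≤ 4 * (N / |τ|) := by
        rw [div_le_iff₀ hwpos]
        have : 4 * (N / |τ|) * |w| = N * (4 * |w| / |τ|) := by ring
        rw [this]
        have : 1 ≤ 4 * |w| / |τ| := by rw [le_div_iff₀ hτ0]; linarith
        nlinarith
      have e5 : 2 * (16 * N / |w|) + 1 ≤ 33 * (N / |w|) := by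
        have : 2 * (16 * N / |w|) = 32 * (N / |w|) := by ring
        rw [this]; linarith
      calc 2 * (16 * N / |w|) + 1 ≤ 33 * (N / |w|) := e5
        _ ≤ 33 * (4 * (N / |τ|)) := by linarith
        _ = 132 * N / |τ| := by ring
    · rw [Finset.not_nonempty_iff_eq_empty] at hne
      rw [hne, Finset.card_empty, Nat.cast_zero]
      split_ifs
      · positivity
      · exact le_rfl
  calc ∑ z ∈ Y, ∑ z' ∈ Y, ∑ r ∈ T, (if |kap N r * ((z':ℝ) - z) + τ| ≤ 16 then (1:ℝ) else 0)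
      ≤ ∑ z ∈ Y, ∑ z' ∈ Y, (if |(z':ℝ) - z| ≤ 2 * |τ| then 132 * N / |τ| else 0) :=
        Finset.sum_le_sum fun z hz => Finset.sum_le_sum fun z' hz' => h1 z hz z' hz'
    _ ≤ ∑ z ∈ Y, (K * (2 * |τ|) ^ a) * (132 * N / |τ|) := by
        refine Finset.sum_le_sum fun z _ => ?_
        rw [← Finset.sum_filter, Finset.sum_const, nsmul_eq_mul]
        exact mul_le_mul_of_nonneg_right (hF z (2 * |τ|) (by linarith)) (by positivity)
    _ = Y.card * ((K * (2 * |τ|) ^ a) * (132 * N / |τ|)) := by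
        rw [Finset.sum_const, nsmul_eq_mul]
    _ ≤ Y.card * ((K * (2 * |τ| ^ a)) * (132 * N / |τ|)) := by
        have : (2 * |τ|) ^ a ≤ 2 * |τ| ^ a := by
          rw [Real.mul_rpow (by norm_num) hτ0.le]
          refine mul_le_mul_of_nonneg_right ?_ (by positivity)
          calc (2:ℝ) ^ a ≤ 2 ^ (1:ℝ) := Real.rpow_le_rpow_of_exponent_le (by norm_num) ha1.le
            _ = 2 := Real.rpow_one 2
        gcongr
    _ = _ := by
        rw [Real.rpow_sub hτ0, Real.rpow_one]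
        field_simp
        ring

end

end Pool.Agent.D0H31.DS
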