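import Pool.Agent.D0H31.DS.Geom

/-! # The incidence theorem: assembling the pieces -/

set_option autoImplicit false

open Finset

namespace Pool.Agent.D0H31.DS

noncomputable section

variable {N : ℕ} {q : ℕ → ℝ}

/-- number of quadruples with a small translation part -/
def QQ (N : ℕ) (q : ℕ → ℝ) (T : Finset ℕ) (R : ℝ) : ℝ :=
  ∑ s ∈ T, ∑ s' ∈ T, ∑ t ∈ T, ∑ t' ∈ T, if |tau N q s s' t t'| < R then (1:ℝ) else 0

theorem N6_upper (hN : 0 < N) {X : Finset ℤ} {T Y : Finset ℕ} (hT : ∀ k ∈ T, N ≤ k ∧ k ≤ 2 * N)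
    (hY : ∀ y ∈ Y, y ≤ N) {K a : ℝ} (hK : 0 ≤ K) (ha0 : 0 < a) (ha1 : a < 1)
    (hF : ∀ c R : ℝ, 1 ≤ R → ((Y.filter fun y : ℕ => |(y:ℝ) - c| ≤ R).card : ℝ) ≤ K * R ^ a)
    {R : ℝ} (hR : 100 ≤ R) :
    ∑ r ∈ T, ∑ s ∈ T, ∑ s' ∈ T, ∑ x ∈ X, cnt T X Y (ed N q) r s s' x ^ 2 ≤
      (T.card : ℝ) ^ 4 * (264 * K * N * Y.card * R ^ (a - 1)) + T.card * Y.card * QQ N q T R := by
  rw [N6_eq]
  have hR0 : 0 < R := by linarith
  have he : ∀ k x y, 0 ≤ ed N q k x y := ed_nonneg
  have hc : ∀ k y, ∑ x ∈ X, ed N q k x y ≤ 1 := fun k y => ed_sum_x X k y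
  have hr : ∀ k ∈ T, ∀ x, ∑ y ∈ Y, ed N q k x y ≤ 1 := fun k hk x => ed_sum_y hN Y (hT k hk).1 x
  have hB0 : 0 ≤ 264 * K * N * Y.card * R ^ (a - 1) := by positivity
  calc ∑ s ∈ T, ∑ s' ∈ T, ∑ t ∈ T, ∑ t' ∈ T, ∑ r ∈ T, ∑ x ∈ X,
        P5 X Y (ed N q) r s s' t (fun _ => 1) x * P5 X Y (ed N q) r s s' t' (fun _ => 1) x
      ≤ ∑ s ∈ T, ∑ s' ∈ T, ∑ t ∈ T, ∑ t' ∈ T, (264 * K * N * Y.card * R ^ (a - 1) +
          T.card * Y.card * (if |tau N q s s' t t'| < R then (1:ℝ) else 0)) := by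
        refine Finset.sum_le_sum fun s hs => Finset.sum_le_sum fun s' hs' =>
          Finset.sum_le_sum fun t ht => Finset.sum_le_sum fun t' ht' => ?_
        by_cases hτ : |tau N q s s' t t'| < R
        · rw [if_pos hτ, mul_one]
          have := M_le_one he hc hr hs hs' ht ht'
          linarith
        · rw [if_neg hτ, mul_zero, add_zero]
          push Not at hτ
          have h1 := M_le_pairs he hc hr hs hs' ht ht'
            (fun r z z' => |kap N r * ((z':ℝ) - z) + tau N q s s' t t'| ≤ 16)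
            (fun r _ z _ z' _ x _ h h' => rel_of_chains (kap_mem hN (hT s hs).1 (hT s hs).2)
              (kap_mem hN (hT s' hs').1 (hT s' hs').2) (kap_mem hN (hT t ht).1 (hT t ht).2)
              (kap_mem hN (hT t' ht').1 (hT t' ht').2) h h')
          refine h1.trans ((pairs_bound hN hT hY hK ha0 ha1 hF (hR.trans hτ)).trans ?_)
          have h2 : |tau N q s s' t t'| ^ (a - 1) ≤ R ^ (a - 1) :=
            Real.rpow_le_rpow_of_nonpos hR0 hτ (by linarith)
          gcongr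
    _ = _ := by
        simp only [Finset.sum_add_distrib, Finset.sum_const, nsmul_eq_mul, ← Finset.mul_sum, QQ]
        ring

lemma near_diag (hN : 0 < N) {T : Finset ℕ} {c : ℝ} (hc : 0 ≤ c) :
    ∑ s ∈ T, ∑ s' ∈ T, (if |(s:ℝ) - s'| < c * N then (1:ℝ) else 0) ≤ T.card * (2 * (c * N) + 1) := by
  calc ∑ s ∈ T, ∑ s' ∈ T, (if |(s:ℝ) - s'| < c * N then (1:ℝ) else 0)
      ≤ ∑ s ∈ T, (2 * (c * N) + 1) := by
        refine Finset.sum_le_sum fun s _ => ?_
        refine le_trans ?_ (card_near_nat T (s:ℝ) (L := c * N) (by positivity))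
        rw [← Finset.sum_filter, Finset.sum_const, nsmul_eq_mul, mul_one]
        have : (T.filter fun a : ℕ => |(s:ℝ) - a| < c * N) ⊆ (T.filter fun r : ℕ => |(r:ℝ) - s| ≤ c * N) := by
          intro r hr
          rw [Finset.mem_filter] at hr ⊢
          refine ⟨hr.1, ?_⟩
          rw [abs_sub_comm]; exact hr.2.le
        exact_mod_cast Finset.card_le_card this
    _ = _ := by rw [Finset.sum_const, nsmul_eq_mul]

/-- pigeonhole -/
lemma pigeon (hN : 0 < N) {T : Finset ℕ} {R c B : ℝ} (hc : 0 ≤ c) (hB : 0 ≤ B)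
    (h : (T.card : ℝ) ^ 3 * B + (T.card : ℝ) ^ 3 * (2 * (c * N) + 1) < QQ N q T R) :
    ∃ s ∈ T, ∃ s' ∈ T, ∃ t' ∈ T, c * N ≤ |(s:ℝ) - s'| ∧
      B < ((T.filter fun t => |tau N q s s' t t'| < R).card : ℝ) := by
  by_contra hcon
  push Not at hcon
  apply absurd h
  push Not
  unfold QQ
  calc ∑ s ∈ T, ∑ s' ∈ T, ∑ t ∈ T, ∑ t' ∈ T, (if |tau N q s s' t t'| < R then (1:ℝ) else 0)
      = ∑ s ∈ T, ∑ s' ∈ T, ∑ t' ∈ T, ∑ t ∈ T, (if |tau N q s s' t t'| < R then (1:ℝ) else 0) :=
        Finset.sum_congr rfl fun s _ => Finset.sum_congr rfl fun s' _ => Finset.sum_comm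
    _ ≤ ∑ s ∈ T, ∑ s' ∈ T, ∑ t' ∈ T, (B + T.card * (if |(s:ℝ) - s'| < c * N then (1:ℝ) else 0)) := by
        refine Finset.sum_le_sum fun s hs => Finset.sum_le_sum fun s' hs' =>
          Finset.sum_le_sum fun t' ht' => ?_
        rw [← Finset.sum_filter, Finset.sum_const, nsmul_eq_mul, mul_one]
        by_cases hd : |(s:ℝ) - s'| < c * N
        · rw [if_pos hd, mul_one]
          have : ((T.filter fun t => |tau N q s s' t t'| < R).card : ℝ) ≤ T.card := by
            exact_mod_cast Finset.card_filter_le _ _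
          linarith
        · rw [if_neg hd, mul_zero, add_zero]
          push Not at hd
          exact hcon s hs s' hs' t' ht' hd
    _ = (T.card : ℝ) ^ 3 * B + (T.card : ℝ) ^ 2 *
          ∑ s ∈ T, ∑ s' ∈ T, (if |(s:ℝ) - s'| < c * N then (1:ℝ) else 0) := by
        simp only [Finset.sum_add_distrib, Finset.sum_const, nsmul_eq_mul, ← Finset.mul_sum]
        ring
    _ ≤ (T.card : ℝ) ^ 3 * B + (T.card : ℝ) ^ 2 * (T.card * (2 * (c * N) + 1)) := by
        have := near_diag (N := N) hN (T := T) hc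
        gcongr
    _ = _ := by ring

/-- If the translation parts are small then `q` is almost affine. -/
lemma affine_of_tau (hN : 0 < N) {s s' t t' : ℕ} {c R : ℝ} (hc : 0 < c)
    (hs : 1 ≤ kap N s ∧ kap N s ≤ 2)
    (hd : c * N ≤ |(s:ℝ) - s'|) (hR : 0 ≤ R) (h : |tau N q s s' t t'| < R) :
    |q t - ((q s' - q s) / (kap N s' - kap N s) * kap N t +
      bet N q s s' t' / (kap N s' - kap N s))| ≤ 2 * R / c := by
  have hN' : (0:ℝ) < N := by exact_mod_cast hN
  have hκ : c ≤ |kap N s' - kap N s| := by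
    have : kap N s' - kap N s = ((s':ℝ) - s) / N := by unfold kap; ring
    rw [this, abs_div, abs_of_pos hN', le_div_iff₀ hN', abs_sub_comm]
    exact hd
  have hκ0 : 0 < |kap N s' - kap N s| := lt_of_lt_of_le hc hκ
  have hκne : kap N s' - kap N s ≠ 0 := abs_pos.mp hκ0
  have hs0 : 0 < kap N s := by linarith [hs.1]
  have hβ : |bet N q s s' t - bet N q s s' t'| ≤ 2 * R := by
    unfold tau at h
    rw [abs_div, abs_of_pos hs0, div_lt_iff₀ hs0] at h
    nlinarith [hs.2]
  have key : q t - ((q s' - q s) / (kap N s' - kap N s) * kap N t +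
      bet N q s s' t' / (kap N s' - kap N s)) =
      (bet N q s s' t - bet N q s s' t') / (kap N s' - kap N s) := by
    rw [eq_div_iff hκne, sub_mul, add_mul, div_mul_cancel₀ _ hκne]
    have : (q s' - q s) / (kap N s' - kap N s) * kap N t * (kap N s' - kap N s) =
      (q s' - q s) * kap N t := by field_simp
    rw [this]
    unfold bet
    ring
  rw [key, abs_div]
  calc |bet N q s s' t - bet N q s s' t'| / |kap N s' - kap N s| ≤ 2 * R / |kap N s' - kap N s| := by
        gcongr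
    _ ≤ 2 * R / c := by gcongr

/-- few edges in the affine case -/
lemma affine_count (hN : 0 < N) {X : Finset ℤ} {T Y : Finset ℕ}
    (hT : ∀ k ∈ T, N ≤ k ∧ k ≤ 2 * N) {K a : ℝ} (hK : 0 ≤ K) (ha0 : 0 < a) (ha1 : a < 1)
    (hF : ∀ c R : ℝ, 1 ≤ R → ((Y.filter fun y : ℕ => |(y:ℝ) - c| ≤ R).card : ℝ) ≤ K * R ^ a)
    {l m R1 W : ℝ} (hR1 : 1 ≤ R1) (hW : 2 * R1 ≤ W)
    (hq : ∀ t ∈ T, |q t - (l * kap N t + m)| ≤ R1 - 1) :
    ∑ t ∈ T, ∑ x ∈ X, ∑ y ∈ Y, ed N q t x y ≤ T.card * (2 * W + 1) +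
      X.card * (16 * K * R1 * N * W ^ (a - 1) + Y.card) := by
  have hN' : (0:ℝ) < N := by exact_mod_cast hN
  have hW0 : 0 < W := by linarith
  have hrel : ∀ t ∈ T, ∀ x : ℤ, ∀ y : ℕ, ed N q t x y ≠ 0 →
      |kap N t * ((y:ℝ) - l) + ((x:ℝ) - m)| ≤ R1 := by
    intro t ht x y h
    obtain ⟨h1, h2⟩ := ed_ne h
    have h3 := abs_le.mp (hq t ht)
    rw [abs_le]
    constructor <;> nlinarith [h3.1, h3.2]
  have hsplit : ∑ t ∈ T, ∑ x ∈ X, ∑ y ∈ Y, ed N q t x y =
      ∑ t ∈ T, ∑ x ∈ X.filter (fun x : ℤ => |(x:ℝ) - m| ≤ W), ∑ y ∈ Y, ed N q t x y +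
      ∑ x ∈ X.filter (fun x : ℤ => ¬ |(x:ℝ) - m| ≤ W), ∑ y ∈ Y, ∑ t ∈ T, ed N q t x y := by
    have e1 : ∑ x ∈ X.filter (fun x : ℤ => ¬ |(x:ℝ) - m| ≤ W), ∑ y ∈ Y, ∑ t ∈ T, ed N q t x y =
      ∑ t ∈ T, ∑ x ∈ X.filter (fun x : ℤ => ¬ |(x:ℝ) - m| ≤ W), ∑ y ∈ Y, ed N q t x y := by
      rw [Finset.sum_comm (s := T)]
      exact Finset.sum_congr rfl fun x _ => Finset.sum_comm
    rw [e1, ← Finset.sum_add_distrib]
    exact Finset.sum_congr rfl fun t _ => (Finset.sum_filter_add_sum_filter_not _ _ _).symm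
  rw [hsplit]
  refine add_le_add ?_ ?_
  · calc ∑ t ∈ T, ∑ x ∈ X.filter (fun x : ℤ => |(x:ℝ) - m| ≤ W), ∑ y ∈ Y, ed N q t x y
        ≤ ∑ t ∈ T, ∑ x ∈ X.filter (fun x : ℤ => |(x:ℝ) - m| ≤ W), (1:ℝ) :=
          Finset.sum_le_sum fun t ht => Finset.sum_le_sum fun x _ => ed_sum_y hN Y (hT t ht).1 x
      _ ≤ ∑ t ∈ T, (2 * W + 1) := by
          refine Finset.sum_le_sum fun t _ => ?_
          rw [Finset.sum_const, nsmul_eq_mul, mul_one]
          exact card_near_int X m hW0.le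
      _ = _ := by rw [Finset.sum_const, nsmul_eq_mul]
  · have hx : ∀ x ∈ X.filter (fun x : ℤ => ¬ |(x:ℝ) - m| ≤ W),
        ∑ y ∈ Y, ∑ t ∈ T, ed N q t x y ≤ 16 * K * R1 * N * W ^ (a - 1) + Y.card := by
      intro x hx
      rw [Finset.mem_filter] at hx
      have hw := hx.2
      push Not at hw
      set w : ℝ := (x:ℝ) - m with hwdef
      have hw0 : 0 < |w| := hW0.trans hw
      have h1 : ∀ y ∈ Y, ∑ t ∈ T, ed N q t x y ≤
          if |(y:ℝ) - l| ≤ 2 * |w| then 8 * R1 * N / |w| + 1 else 0 := by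
        intro y hy
        by_cases hne : ∃ t ∈ T, ed N q t x y ≠ 0
        · obtain ⟨t, ht, hne⟩ := hne
          have h2 := hrel t ht x y hne
          obtain ⟨k1, k2⟩ := kap_mem hN (hT t ht).1 (hT t ht).2
          set v : ℝ := (y:ℝ) - l with hv
          have hk : kap N t * |v| = |kap N t * v| := by
            rw [abs_mul, abs_of_nonneg (by linarith : (0:ℝ) ≤ kap N t)]
          have e1 : |w| - R1 ≤ kap N t * |v| := by
            rw [hk]
            have := abs_sub_abs_le_abs_sub w (-(kap N t * v))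
            rw [abs_neg, sub_neg_eq_add, add_comm w] at this
            linarith
          have e2 : kap N t * |v| ≤ |w| + R1 := by
            rw [hk]
            have := abs_sub_abs_le_abs_sub (kap N t * v) (-w)
            rw [abs_neg, sub_neg_eq_add] at this
            linarith
          have hv0 : 0 ≤ |v| := abs_nonneg v
          have hvl : |w| / 4 ≤ |v| := by nlinarith
          have hvu : |v| ≤ 2 * |w| := by nlinarith
          rw [if_pos hvu]
          have hvpos : 0 < |v| := by linarith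
          calc ∑ t ∈ T, ed N q t x y ≤ ∑ t ∈ T, (if |kap N t * v + w| ≤ R1 then (1:ℝ) else 0) := by
                refine Finset.sum_le_sum fun t ht => ?_
                by_cases h0 : ed N q t x y = 0
                · rw [h0]; split_ifs <;> norm_num
                · rw [if_pos (hrel t ht x y h0)]
                  unfold ed
                  split_ifs <;> norm_num
            _ = ((T.filter fun t : ℕ => |kap N t * v + w| ≤ R1).card : ℝ) := by
                rw [← Finset.sum_filter, Finset.sum_const, nsmul_eq_mul, mul_one]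
            _ ≤ 2 * (R1 * N / |v|) + 1 :=
                card_slopes hN T v w (abs_pos.mp hvpos) (by linarith)
            _ ≤ 8 * R1 * N / |w| + 1 := by
                have : R1 * N / |v| ≤ R1 * N / (|w| / 4) := by gcongr
                have e3 : R1 * N / (|w| / 4) = 4 * R1 * N / |w| := by field_simp
                rw [e3] at this
                have e4 : 8 * R1 * N / |w| = 2 * (4 * R1 * N / |w|) := by ring
                rw [e4]; linarith
        · push Not at hne
          rw [Finset.sum_eq_zero hne]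
          split_ifs
          · positivity
          · exact le_rfl
      calc ∑ y ∈ Y, ∑ t ∈ T, ed N q t x y
          ≤ ∑ y ∈ Y, (if |(y:ℝ) - l| ≤ 2 * |w| then 8 * R1 * N / |w| + 1 else 0) :=
            Finset.sum_le_sum h1
        _ = ((Y.filter fun y : ℕ => |(y:ℝ) - l| ≤ 2 * |w|).card : ℝ) * (8 * R1 * N / |w| + 1) := by
            rw [← Finset.sum_filter, Finset.sum_const, nsmul_eq_mul]
        _ = ((Y.filter fun y : ℕ => |(y:ℝ) - l| ≤ 2 * |w|).card : ℝ) * (8 * R1 * N / |w|) +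
            ((Y.filter fun y : ℕ => |(y:ℝ) - l| ≤ 2 * |w|).card : ℝ) := by ring
        _ ≤ (K * (2 * |w|) ^ a) * (8 * R1 * N / |w|) + Y.card := by
            refine add_le_add ?_ (by exact_mod_cast Finset.card_filter_le _ _)
            refine mul_le_mul_of_nonneg_right (hF l (2 * |w|) (by linarith)) (by positivity)
        _ ≤ (K * (2 * |w| ^ a)) * (8 * R1 * N / |w|) + Y.card := by
            have : (2 * |w|) ^ a ≤ 2 * |w| ^ a := by
              rw [Real.mul_rpow (by norm_num) hw0.le]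
              refine mul_le_mul_of_nonneg_right ?_ (by positivity)
              calc (2:ℝ) ^ a ≤ 2 ^ (1:ℝ) := Real.rpow_le_rpow_of_exponent_le (by norm_num) ha1.le
                _ = 2 := Real.rpow_one 2
            gcongr
        _ = 16 * K * R1 * N * |w| ^ (a - 1) + Y.card := by
            rw [Real.rpow_sub hw0, Real.rpow_one]
            field_simp
            ring
        _ ≤ _ := by
            have : |w| ^ (a - 1) ≤ W ^ (a - 1) :=
              Real.rpow_le_rpow_of_nonpos hW0 hw.le (by linarith)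
            gcongr
    calc ∑ x ∈ X.filter (fun x : ℤ => ¬ |(x:ℝ) - m| ≤ W), ∑ y ∈ Y, ∑ t ∈ T, ed N q t x y
        ≤ ∑ x ∈ X.filter (fun x : ℤ => ¬ |(x:ℝ) - m| ≤ W),
            (16 * K * R1 * N * W ^ (a - 1) + Y.card) := Finset.sum_le_sum hx
      _ = ((X.filter (fun x : ℤ => ¬ |(x:ℝ) - m| ≤ W)).card : ℝ) *
            (16 * K * R1 * N * W ^ (a - 1) + Y.card) := by rw [Finset.sum_const, nsmul_eq_mul]
      _ ≤ _ := by
          have : ((X.filter (fun x : ℤ => ¬ |(x:ℝ) - m| ≤ W)).card : ℝ) ≤ X.card := by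
            exact_mod_cast Finset.card_filter_le _ _
          have h0 : 0 ≤ 16 * K * R1 * N * W ^ (a - 1) + Y.card := by positivity
          gcongr

end

end Pool.Agent.D0H31.DS
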