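import Pool.Agent.D0H31.DS.Graph

/-! # The incidence theorem: numerics -/

set_option autoImplicit false

open Finset

namespace Pool.Agent.D0H31.DS

noncomputable section

variable {N : ℕ} {q : ℕ → ℝ}

lemma card_T_le (hN : 0 < N) {T : Finset ℕ} (hT : ∀ k ∈ T, N ≤ k ∧ k ≤ 2 * N) :
    (T.card : ℝ) ≤ 2 * N := by
  have h1 : T ⊆ Finset.Icc N (2 * N) := fun k hk => Finset.mem_Icc.mpr (hT k hk)
  have h2 := Finset.card_le_card h1
  rw [Nat.card_Icc] at h2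
  have h3 : T.card ≤ 2 * N := by omega
  exact_mod_cast h3

theorem graph_main (hN : 0 < N) {K a : ℝ} (ha0 : 0 < a) (ha1 : a < 1) (hK : 2 ^ 39 ≤ K)
    (hNg : K ^ 46 * K ^ (22 / (1 - a)) ≤ (N:ℝ) ^ (a * (1 - a) / 2))
    {X : Finset ℤ} {T Y : Finset ℕ} (hT : ∀ k ∈ T, N ≤ k ∧ k ≤ 2 * N)
    (hY : ∀ y ∈ Y, y ≤ N)
    (hF : ∀ c R : ℝ, 1 ≤ R → ((Y.filter fun y : ℕ => |(y:ℝ) - c| ≤ R).card : ℝ) ≤ K * R ^ a)
    (hXc : (X.card : ℝ) ≤ K * (N:ℝ) ^ a) (hYc : (Y.card : ℝ) ≤ K * (N:ℝ) ^ a) :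
    ∑ k ∈ T, ∑ x ∈ X, ∑ y ∈ Y, ed N q k x y < N * (N:ℝ) ^ a / K := by
  by_contra hcon
  push Not at hcon
  have hn1 : (1:ℝ) ≤ N := by exact_mod_cast hN
  set n : ℝ := (N:ℝ) with hn
  have hn0 : 0 < n := by linarith
  set A : ℝ := n ^ a with hA
  have hA1 : 1 ≤ A := Real.one_le_rpow hn1 ha0.le
  have hA0 : 0 < A := by linarith
  have hK0 : 0 < K := by linarith [show (0:ℝ) < 2 ^ 39 by norm_num]
  have hK1 : 1 ≤ K := by linarith [show (1:ℝ) ≤ 2 ^ 39 by norm_num]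
  set R : ℝ := K ^ (22 / (1 - a)) with hRdef
  have h1a : 0 < 1 - a := by linarith
  have hRK : K ^ 22 ≤ R := by
    rw [hRdef, ← Real.rpow_natCast K 22]
    apply Real.rpow_le_rpow_of_exponent_le hK1
    rw [le_div_iff₀ h1a]
    push_cast
    nlinarith
  have hR100 : 100 ≤ R := by
    have : K ≤ K ^ 22 := le_self_pow₀ hK1 (by norm_num)
    linarith [show (100:ℝ) ≤ 2 ^ 39 by norm_num]
  have hR0 : 0 < R := by linarith
  have hRa : R ^ (a - 1) = (K ^ 22)⁻¹ := by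
    rw [hRdef, ← Real.rpow_mul hK0.le]
    have : 22 / (1 - a) * (a - 1) = -((22:ℕ):ℝ) := by
      field_simp
      push_cast
      ring
    rw [this, Real.rpow_neg hK0.le, Real.rpow_natCast]
  set G : ℝ := n ^ (a * (1 - a) / 2) with hG
  have hG0 : 0 < G := Real.rpow_pos_of_pos hn0 _
  have hGn : G ≤ n := by
    calc G ≤ n ^ (1:ℝ) := Real.rpow_le_rpow_of_exponent_le hn1 (by nlinarith)
      _ = n := Real.rpow_one n
  -- pruning
  set T' : Finset ℕ := T.filter fun k => A / (4 * K) ≤ ∑ x ∈ X, ∑ y ∈ Y, ed N q k x y with hT'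
  have hTc : (T.card : ℝ) ≤ 2 * n := card_T_le hN hT
  have hT's : ∀ k ∈ T', N ≤ k ∧ k ≤ 2 * N := fun k hk => hT k (Finset.mem_filter.mp hk).1
  have hT'c : (T'.card : ℝ) ≤ 2 * n := card_T_le hN hT's
  have hE1 : n * A / (2 * K) ≤ ∑ k ∈ T', ∑ x ∈ X, ∑ y ∈ Y, ed N q k x y := by
    have h1 := Finset.sum_filter_add_sum_filter_not T
      (fun k => A / (4 * K) ≤ ∑ x ∈ X, ∑ y ∈ Y, ed N q k x y)
      (fun k => ∑ x ∈ X, ∑ y ∈ Y, ed N q k x y)
    have h2 : ∑ k ∈ T.filter (fun k => ¬ A / (4 * K) ≤ ∑ x ∈ X, ∑ y ∈ Y, ed N q k x y),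
        ∑ x ∈ X, ∑ y ∈ Y, ed N q k x y ≤ 2 * n * (A / (4 * K)) := by
      calc _ ≤ ∑ k ∈ T.filter (fun k => ¬ A / (4 * K) ≤ ∑ x ∈ X, ∑ y ∈ Y, ed N q k x y),
            A / (4 * K) := Finset.sum_le_sum fun k hk => by
              have := (Finset.mem_filter.mp hk).2
              push Not at this
              exact this.le
        _ = ((T.filter (fun k => ¬ A / (4 * K) ≤ ∑ x ∈ X, ∑ y ∈ Y, ed N q k x y)).card : ℝ) *
            (A / (4 * K)) := by rw [Finset.sum_const, nsmul_eq_mul]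
        _ ≤ (T.card : ℝ) * (A / (4 * K)) := by
            have : ((T.filter (fun k => ¬ A / (4 * K) ≤ ∑ x ∈ X, ∑ y ∈ Y, ed N q k x y)).card : ℝ) ≤
              T.card := by exact_mod_cast Finset.card_filter_le _ _
            have h0 : 0 ≤ A / (4 * K) := by positivity
            gcongr
        _ ≤ _ := by
            have h0 : 0 ≤ A / (4 * K) := by positivity
            gcongr
    have h3 : n * A / K = n * A / (2 * K) + 2 * n * (A / (4 * K)) := by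
      field_simp
      ring
    rw [h3] at hcon
    rw [← h1] at hcon
    linarith
  set X' : Finset ℤ := X.filter fun x => n / (4 * K ^ 2) ≤ ∑ k ∈ T', ∑ y ∈ Y, ed N q k x y with hX'
  have hX'c : (X'.card : ℝ) ≤ K * A := by
    refine le_trans ?_ hXc
    exact_mod_cast Finset.card_filter_le _ _
  have hE2 : n * A / (4 * K) ≤ ∑ k ∈ T', ∑ x ∈ X', ∑ y ∈ Y, ed N q k x y := by
    have h1 := Finset.sum_filter_add_sum_filter_not X
      (fun x => n / (4 * K ^ 2) ≤ ∑ k ∈ T', ∑ y ∈ Y, ed N q k x y)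
      (fun x => ∑ k ∈ T', ∑ y ∈ Y, ed N q k x y)
    have h2 : ∑ x ∈ X.filter (fun x => ¬ n / (4 * K ^ 2) ≤ ∑ k ∈ T', ∑ y ∈ Y, ed N q k x y),
        ∑ k ∈ T', ∑ y ∈ Y, ed N q k x y ≤ K * A * (n / (4 * K ^ 2)) := by
      calc _ ≤ ∑ x ∈ X.filter (fun x => ¬ n / (4 * K ^ 2) ≤ ∑ k ∈ T', ∑ y ∈ Y, ed N q k x y),
            n / (4 * K ^ 2) := Finset.sum_le_sum fun k hk => by
              have := (Finset.mem_filter.mp hk).2
              push Not at this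
              exact this.le
        _ = ((X.filter (fun x => ¬ n / (4 * K ^ 2) ≤ ∑ k ∈ T', ∑ y ∈ Y, ed N q k x y)).card : ℝ) *
            (n / (4 * K ^ 2)) := by rw [Finset.sum_const, nsmul_eq_mul]
        _ ≤ (X.card : ℝ) * (n / (4 * K ^ 2)) := by
            have : ((X.filter (fun x => ¬ n / (4 * K ^ 2) ≤ ∑ k ∈ T', ∑ y ∈ Y, ed N q k x y)).card : ℝ) ≤
              X.card := by exact_mod_cast Finset.card_filter_le _ _
            have h0 : 0 ≤ n / (4 * K ^ 2) := by positivity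
            gcongr
        _ ≤ _ := by
            have h0 : 0 ≤ n / (4 * K ^ 2) := by positivity
            gcongr
    rw [Finset.sum_comm] at hE1
    rw [Finset.sum_comm]
    have h3 : n * A / (2 * K) = n * A / (4 * K) + K * A * (n / (4 * K ^ 2)) := by
      field_simp
      ring
    rw [h3, ← h1] at hE1
    linarith
  -- the lower bound
  have hlow := lower T' X' Y (e := ed N q) ed_nonneg (D := n / (4 * K ^ 2)) (E0 := n * A / (4 * K))
    (by positivity) (fun x hx => (Finset.mem_filter.mp hx).2) (by positivity) hE2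
  have hup := N6_upper hN (q := q) (X := X') hT's hY hK0.le ha0 ha1 hF hR100
  set N6 : ℝ := ∑ r ∈ T', ∑ s ∈ T', ∑ s' ∈ T', ∑ x ∈ X', cnt T' X' Y (ed N q) r s s' x ^ 2 with hN6
  have hN60 : 0 ≤ N6 := Finset.sum_nonneg fun _ _ => Finset.sum_nonneg fun _ _ =>
    Finset.sum_nonneg fun _ _ => Finset.sum_nonneg fun _ _ => sq_nonneg _
  have hQQ0 : 0 ≤ QQ N q T' R := Finset.sum_nonneg fun _ _ => Finset.sum_nonneg fun _ _ =>
    Finset.sum_nonneg fun _ _ => Finset.sum_nonneg fun _ _ => by split_ifs <;> norm_num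
  have hlow2 : n ^ 5 * A / (2 ^ 25 * K ^ 19) ≤ N6 := by
    have h1 : (n / (4 * K ^ 2)) ^ 2 * (n * A / (4 * K)) ^ 8 ≤
        (K * A) ^ 4 * (2 * n) ^ 5 * (K * A) ^ 3 * N6 := by
      refine hlow.trans ?_
      gcongr
    have h2 : (n / (4 * K ^ 2)) ^ 2 * (n * A / (4 * K)) ^ 8 =
        (n ^ 5 * A / (2 ^ 25 * K ^ 19)) * ((K * A) ^ 4 * (2 * n) ^ 5 * (K * A) ^ 3) := by
      field_simp
      ring
    rw [h2, mul_comm _ N6] at h1
    exact le_of_mul_le_mul_right h1 (by positivity)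
  have hup2 : N6 ≤ 4224 * n ^ 5 * A / K ^ 20 + 2 * K * n * A * QQ N q T' R := by
    refine hup.trans ?_
    rw [hRa]
    have h1 : (T'.card : ℝ) ^ 4 * (264 * K * n * Y.card * (K ^ 22)⁻¹) ≤
        (2 * n) ^ 4 * (264 * K * n * (K * A) * (K ^ 22)⁻¹) := by gcongr
    have h2 : (T'.card : ℝ) * Y.card * QQ N q T' R ≤ (2 * n) * (K * A) * QQ N q T' R := by gcongr
    have h3 : (2 * n) ^ 4 * (264 * K * n * (K * A) * (K ^ 22)⁻¹) = 4224 * n ^ 5 * A / K ^ 20 := by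
      field_simp
      ring
    rw [h3] at h1
    linarith
  have hQQ : n ^ 4 / (2 ^ 27 * K ^ 20) ≤ QQ N q T' R := by
    have h1 : 4224 * n ^ 5 * A / K ^ 20 ≤ n ^ 5 * A / (2 ^ 26 * K ^ 19) := by
      rw [div_le_div_iff₀ (by positivity) (by positivity)]
      have h2 : 4224 * n ^ 5 * A * (2 ^ 26 * K ^ 19) = (4224 * 2 ^ 26) * (n ^ 5 * A * K ^ 19) := by ring
      have h3 : n ^ 5 * A * K ^ 20 = K * (n ^ 5 * A * K ^ 19) := by ring
      rw [h2, h3]
      have h4 : (4224 * 2 ^ 26 : ℝ) ≤ K := le_trans (by norm_num) hK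
      gcongr
    have h2 : n ^ 5 * A / (2 ^ 25 * K ^ 19) = 2 * (n ^ 5 * A / (2 ^ 26 * K ^ 19)) := by
      field_simp
    have h3 : n ^ 5 * A / (2 ^ 26 * K ^ 19) ≤ 2 * K * n * A * QQ N q T' R := by linarith
    have h4 : n ^ 5 * A / (2 ^ 26 * K ^ 19) = (n ^ 4 / (2 ^ 27 * K ^ 20)) * (2 * K * n * A) := by
      field_simp
    rw [h4, mul_comm _ (QQ N q T' R)] at h3
    exact le_of_mul_le_mul_right h3 (by positivity)
  -- pigeonhole
  set c : ℝ := 1 / (2 ^ 33 * K ^ 20) with hc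
  have hc0 : 0 < c := by positivity
  set B : ℝ := n / (2 ^ 31 * K ^ 20) with hB
  have hB0 : 0 < B := by positivity
  have hnbig : 2 ^ 32 * K ^ 20 < n := by
    have h1 : K ^ 46 * R ≤ n := hNg.trans hGn
    have h2 : K ^ 21 ≤ K ^ 46 := pow_le_pow_right₀ hK1 (by norm_num)
    have h3 : (2:ℝ) ^ 32 * K ^ 20 < K ^ 21 := by
      rw [pow_succ K 20, mul_comm]
      have : (2:ℝ) ^ 32 < K := lt_of_lt_of_le (by norm_num) hK
      have h0 : 0 < K ^ 20 := by positivity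
      nlinarith
    have h4 : K ^ 46 ≤ K ^ 46 * R := le_mul_of_one_le_right (by positivity) (by linarith)
    linarith
  have hpig : (T'.card : ℝ) ^ 3 * B + (T'.card : ℝ) ^ 3 * (2 * (c * n) + 1) < QQ N q T' R := by
    refine lt_of_lt_of_le ?_ hQQ
    have h1 : (T'.card : ℝ) ^ 3 * B + (T'.card : ℝ) ^ 3 * (2 * (c * n) + 1) ≤
        (2 * n) ^ 3 * (B + (2 * (c * n) + 1)) := by
      rw [← mul_add]
      gcongr
    refine lt_of_le_of_lt h1 ?_
    have h2 : n ^ 4 / (2 ^ 27 * K ^ 20) = (2 * n) ^ 3 * (n / (2 ^ 30 * K ^ 20)) := by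
      field_simp
    rw [h2]
    have h3 : B + (2 * (c * n) + 1) < n / (2 ^ 30 * K ^ 20) := by
      have e1 : n / (2 ^ 30 * K ^ 20) = B + 2 * (c * n) + n / (2 ^ 32 * K ^ 20) := by
        rw [hB, hc]
        field_simp
        ring
      rw [e1]
      have : 1 < n / (2 ^ 32 * K ^ 20) := by
        rw [one_lt_div (by positivity)]
        exact hnbig
      linarith
    gcongr
  obtain ⟨s, hs, s', hs', t', ht', hd, hBc⟩ := pigeon hN hc0.le hB0.le hpig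
  set T'' : Finset ℕ := T'.filter fun t => |tau N q s s' t t'| < R with hT''
  have hT''s : ∀ k ∈ T'', N ≤ k ∧ k ≤ 2 * N := fun k hk => hT's k (Finset.mem_filter.mp hk).1
  have hq : ∀ t ∈ T'', |q t - ((q s' - q s) / (kap N s' - kap N s) * kap N t +
      bet N q s s' t' / (kap N s' - kap N s))| ≤ (2 * R / c + 1) - 1 := by
    intro t ht
    rw [add_sub_cancel_right]
    exact affine_of_tau hN hc0 (kap_mem hN (hT's s hs).1 (hT's s hs).2) hd hR0.le
      (Finset.mem_filter.mp ht).2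
  set R1 : ℝ := 2 * R / c + 1 with hR1
  have hR1' : R1 = 2 ^ 34 * K ^ 20 * R + 1 := by
    rw [hR1, hc]
    field_simp
  have hKR : 1 ≤ K ^ 20 * R := by
    have : 1 ≤ K ^ 20 := one_le_pow₀ hK1
    nlinarith
  have hR1le : R1 ≤ 2 ^ 35 * (K ^ 20 * R) := by
    rw [hR1']
    nlinarith
  have hR11 : 1 ≤ R1 := by
    rw [hR1']
    have : 0 ≤ 2 ^ 34 * K ^ 20 * R := by positivity
    linarith
  -- W
  set W : ℝ := n ^ (a / 2) with hW
  have hGW : G ≤ W := Real.rpow_le_rpow_of_exponent_le hn1 (by nlinarith)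
  have hWA : W * W = A := by
    rw [hW, hA, ← Real.rpow_add hn0]
    congr 1
    ring
  have hWa : W ^ (a - 1) = G⁻¹ := by
    rw [hW, hG, ← Real.rpow_mul hn0.le, ← Real.rpow_neg hn0.le]
    congr 1
    ring
  have hGK : K ^ 26 * (K ^ 20 * R) ≤ G := by
    have : K ^ 26 * (K ^ 20 * R) = K ^ 46 * R := by ring
    rw [this]
    exact hNg
  have hK2 : (2:ℝ) ^ 36 ≤ K ^ 26 := by
    have h1 : K ≤ K ^ 26 := le_self_pow₀ hK1 (by norm_num)
    have h2 : (2:ℝ) ^ 36 ≤ 2 ^ 39 := by norm_num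
    linarith
  have hWR : 2 * R1 ≤ W := by
    have h1 : 2 * R1 ≤ 2 ^ 36 * (K ^ 20 * R) := by linarith
    have h2 : 2 ^ 36 * (K ^ 20 * R) ≤ K ^ 26 * (K ^ 20 * R) := by gcongr
    linarith
  have hcount := affine_count hN (q := q) (X := X) hT''s hK0.le ha0 ha1 hF hR11 hWR hq
  have hmany : (T''.card : ℝ) * (A / (4 * K)) ≤ ∑ t ∈ T'', ∑ x ∈ X, ∑ y ∈ Y, ed N q t x y := by
    rw [← nsmul_eq_mul, ← Finset.sum_const]
    exact Finset.sum_le_sum fun t ht => (Finset.mem_filter.mp (Finset.mem_filter.mp ht).1).2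
  have hW24 : 24 * K ≤ W := by
    have h1 : K ^ 2 ≤ K ^ 26 := pow_le_pow_right₀ hK1 (by norm_num)
    have h2 : 24 * K ≤ K ^ 2 := by nlinarith [show (24:ℝ) ≤ 2 ^ 39 by norm_num]
    have h3 : K ^ 26 ≤ K ^ 26 * (K ^ 20 * R) := le_mul_of_one_le_right (by positivity) hKR
    linarith
  have hW1 : 2 * W + 1 ≤ A / (8 * K) := by
    rw [le_div_iff₀ (by positivity), ← hWA]
    have : 1 ≤ W := by linarith
    nlinarith
  have hfin : (T''.card : ℝ) * (A / (8 * K)) ≤ (K * A) * (16 * K * R1 * n * G⁻¹ + K * A) := by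
    have h1 : (T''.card : ℝ) * (2 * W + 1) ≤ (T''.card : ℝ) * (A / (8 * K)) := by gcongr
    have h2 : (X.card : ℝ) * (16 * K * R1 * n * W ^ (a - 1) + Y.card) ≤
        (K * A) * (16 * K * R1 * n * G⁻¹ + K * A) := by
      rw [hWa]
      gcongr
    have h3 : (T''.card : ℝ) * (A / (4 * K)) = 2 * ((T''.card : ℝ) * (A / (8 * K))) := by
      field_simp
      ring
    linarith
  have hfin2 : B * (A / (8 * K)) < (K * A) * (16 * K * R1 * n * G⁻¹ + K * A) := by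
    refine lt_of_lt_of_le ?_ hfin
    have : 0 < A / (8 * K) := by positivity
    exact mul_lt_mul_of_pos_right hBc this
  have hAG : A ≤ n * G⁻¹ := by
    rw [hA, hG, ← Real.rpow_neg hn0.le]
    calc n ^ a ≤ n ^ (1 + -(a * (1 - a) / 2)) := Real.rpow_le_rpow_of_exponent_le hn1 (by nlinarith)
      _ = n * n ^ (-(a * (1 - a) / 2)) := by rw [Real.rpow_add hn0, Real.rpow_one]
  have hfin3 : B * (A / (8 * K)) < (K * A) * (16 * K * (2 ^ 35 * (K ^ 20 * R)) * n * G⁻¹ +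
      K * (n * G⁻¹)) := by
    refine lt_of_lt_of_le hfin2 ?_
    have h0 : 0 < G⁻¹ := by positivity
    gcongr
  have hfin4 : (K * A) * (16 * K * (2 ^ 35 * (K ^ 20 * R)) * n * G⁻¹ + K * (n * G⁻¹)) ≤
      (K * A) * (K * (2 ^ 40 * (K ^ 20 * R)) * n * G⁻¹) := by
    have h0 : 0 < G⁻¹ := by positivity
    have h1 : 16 * K * (2 ^ 35 * (K ^ 20 * R)) * n * G⁻¹ + K * (n * G⁻¹) =
      K * n * G⁻¹ * (2 ^ 39 * (K ^ 20 * R) + 1) := by ring
    have h2 : K * (2 ^ 40 * (K ^ 20 * R)) * n * G⁻¹ = K * n * G⁻¹ * (2 ^ 40 * (K ^ 20 * R)) := by ring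
    rw [h1, h2]
    have h3 : 2 ^ 39 * (K ^ 20 * R) + 1 ≤ 2 ^ 40 * (K ^ 20 * R) := by nlinarith
    gcongr
  have hfin5 : B * (A / (8 * K)) < (K * A) * (K * (2 ^ 40 * (K ^ 20 * R)) * n * G⁻¹) :=
    lt_of_lt_of_le hfin3 hfin4
  have hfin6 : G < 2 ^ 74 * K ^ 23 * (K ^ 20 * R) := by
    rw [hB] at hfin5
    have h1 : n / (2 ^ 31 * K ^ 20) * (A / (8 * K)) = G * (n * A / (2 ^ 34 * K ^ 21 * G)) := by
      field_simp
      ring
    have h2 : (K * A) * (K * (2 ^ 40 * (K ^ 20 * R)) * n * G⁻¹) =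
        (2 ^ 74 * K ^ 23 * (K ^ 20 * R)) * (n * A / (2 ^ 34 * K ^ 21 * G)) := by
      field_simp
    rw [h1, h2] at hfin5
    exact lt_of_mul_lt_mul_right hfin5 (by positivity)
  have hlast : 2 ^ 74 * K ^ 23 * (K ^ 20 * R) ≤ K ^ 26 * (K ^ 20 * R) := by
    have h1 : (2:ℝ) ^ 74 * K ^ 23 ≤ K ^ 26 := by
      have h2 : (2:ℝ) ^ 74 ≤ K ^ 3 := by
        calc (2:ℝ) ^ 74 ≤ (2 ^ 39) ^ 3 := by norm_num
          _ ≤ K ^ 3 := by gcongr
      have h3 : K ^ 26 = K ^ 3 * K ^ 23 := by ring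
      rw [h3]
      gcongr
    gcongr
  linarith

end

end Pool.Agent.D0H31.DS
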