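import Pool.Agent.D0H31.DS.Scales

/-! # The interval -/

set_option autoImplicit false

open MeasureTheory Set Filter

namespace Pool.Agent.D0H31.DS

noncomputable section

variable {d : ℕ}

lemma phi_lower {N : ℝ} (hN : 0 < N) {z : ℝ} (h1 : 1 / (2 * N) ≤ z) (h2 : z ≤ 3 / (2 * N)) :
    N / 2 ≤ phi N z := by
  have e1 : 1 / (2 * N) = (1 / N) / 2 := by field_simp
  have e2 : 3 / (2 * N) = 3 * (1 / N) / 2 := by field_simp
  set δ : ℝ := 1 / N with hδ
  have hδ0 : 0 < δ := by positivity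
  rw [e1] at h1
  rw [e2] at h2
  have h3 : ∫ w, (Ioo (max 0 (z - δ)) (min δ z)).indicator (fun _ => N * N) w ≤ phi N z := by
    refine integral_mono ?_ (integrable_chi_mul N (measurable_chi_sub N z)
      (fun x => chi_abs_le hN _)) fun w => ?_
    · rw [integrable_indicator_iff measurableSet_Ioo]
      refine integrableOn_const ?_
      rw [Real.volume_Ioo]
      exact ENNReal.ofReal_ne_top
    · by_cases hw : w ∈ Ioo (max 0 (z - δ)) (min δ z)
      · rw [Set.indicator_of_mem hw]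
        obtain ⟨hw1, hw2⟩ := hw
        rw [max_lt_iff] at hw1
        rw [lt_min_iff] at hw2
        have m1 : w ∈ Ico (0:ℝ) (1 / N) := ⟨hw1.1.le, hw2.1⟩
        have m2 : z - w ∈ Ico (0:ℝ) (1 / N) := ⟨by linarith [hw2.2], by linarith [hw1.2]⟩
        unfold chi
        rw [Set.indicator_of_mem m1, Set.indicator_of_mem m2]
      · rw [Set.indicator_of_notMem hw]
        exact mul_nonneg (chi_nonneg hN _) (chi_nonneg hN _)
  refine le_trans ?_ h3
  rw [integral_indicator_const _ measurableSet_Ioo, measureReal_def, Real.volume_Ioo, smul_eq_mul]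
  have h4 : δ / 2 ≤ min δ z - max 0 (z - δ) := by
    rcases le_total z δ with h | h
    · rw [min_eq_right h, max_eq_left (by linarith)]
      linarith
    · rw [min_eq_left h, max_eq_right (by linarith)]
      linarith
  rw [ENNReal.toReal_ofReal (by linarith)]
  calc N / 2 = δ / 2 * (N * N) := by rw [hδ]; field_simp
    _ ≤ _ := by gcongr

lemma phi_ne {N : ℝ} {z : ℝ} (h : phi N z ≠ 0) : 0 ≤ z ∧ z ≤ 2 / N := by
  by_contra hcon
  apply h
  unfold phi
  have h0 : ∀ w, chi N w * chi N (z - w) = 0 := by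
    intro w
    by_contra hne
    obtain ⟨a1, a2⟩ := chi_ne_zero (left_ne_zero_of_mul hne)
    obtain ⟨b1, b2⟩ := chi_ne_zero (right_ne_zero_of_mul hne)
    apply hcon
    constructor
    · linarith
    · have : 2 / N = 1 / N + 1 / N := by ring
      rw [this]; linarith
  simp only [h0, integral_zero]

variable {μ : Measure ℝ} [IsProbabilityMeasure μ]

/-- the linear form -/
def ZZ (T : ℝ) (t : Fin (d + 1) → ℝ) (p : ℝ × (Fin (d + 1) → ℝ)) : ℝ := T * p.1 + ip t p.2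

lemma continuous_ZZ (T : ℝ) (t : Fin (d + 1) → ℝ) : Continuous (ZZ T t) := by
  unfold ZZ ip
  fun_prop

lemma gg_eq {N : ℝ} (hN : 0 < N) (T : ℝ) (t : Fin (d + 1) → ℝ) (q : ℝ) :
    Integrable (fun p => phi N (ZZ T t p - q)) (μ.prod (PP d μ)) ∧
    gg μ N T t q = ∫ p, phi N (ZZ T t p - q) ∂(μ.prod (PP d μ)) := by
  have hint : Integrable (fun p => phi N (ZZ T t p - q)) (μ.prod (PP d μ)) := by
    refine Integrable.of_bound ?_ N (Filter.Eventually.of_forall fun x => ?_)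
    · exact ((measurable_phi N).comp ((continuous_ZZ T t).measurable.sub
        measurable_const)).aestronglyMeasurable
    · rw [Real.norm_eq_abs, abs_of_nonneg (phi_nonneg hN _)]; exact phi_le hN _
  refine ⟨hint, ?_⟩
  rw [integral_prod _ hint]
  rfl

lemma ae_mem {K : Set ℝ} (hμK : μ Kᶜ = 0) :
    ∀ᵐ p ∂(μ.prod (PP d μ)), p.1 ∈ K ∧ ∀ i, p.2 i ∈ K := by
  have h0 : ∀ᵐ x ∂μ, x ∈ K := by rw [ae_iff]; exact hμK
  have h1 : ∀ᵐ x ∂(PP d μ), ∀ i, x i ∈ K := by
    rw [ae_all_iff]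
    intro i
    exact (Measure.quasiMeasurePreserving_eval (fun _ : Fin (d + 1) => μ) i).ae h0
  have h2 := (Measure.quasiMeasurePreserving_fst (μ := μ) (ν := PP d μ)).ae h0
  have h3 := (Measure.quasiMeasurePreserving_snd (μ := μ) (ν := PP d μ)).ae h1
  filter_upwards [h2, h3] with p hp1 hp2
  exact ⟨hp1, hp2⟩

lemma exists_cell (hμ : μ (Icc (0:ℝ) 1)ᶜ = 0) {T : ℝ} (hT : T ∈ Ico (1:ℝ) 2)
    {t : Fin (d + 1) → ℝ} (ht : ∀ i, t i ∈ Icc (1:ℝ) 2) {N : ℕ} (hN : 0 < N) :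
    ∃ j : ℕ, 1 / (8 * ((d:ℝ) + 2) * N + 1) ≤
      (μ.prod (PP d μ)).real (ZZ T t ⁻¹' Ico ((j:ℝ) / (4 * N : ℕ)) (((j:ℝ) + 1) / (4 * N : ℕ))) := by
  have hN' : (0:ℝ) < N := by exact_mod_cast hN
  have hN4 : 0 < 4 * N := by positivity
  have hN4' : (0:ℝ) < (4 * N : ℕ) := by exact_mod_cast hN4
  set M : ℕ := 8 * (d + 2) * N + 1 with hM
  have hMr : (M:ℝ) = 8 * ((d:ℝ) + 2) * N + 1 := by rw [hM]; push_cast; ring
  have hM0 : (0:ℝ) < M := by rw [hMr]; positivity
  rw [← hMr]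
  by_contra hcon
  push Not at hcon
  have hZ : ∀ᵐ p ∂(μ.prod (PP d μ)), ZZ T t p ∈ Icc (0:ℝ) (2 * (d + 2)) := by
    filter_upwards [ae_mem hμ] with p hp
    obtain ⟨hp1, hp2⟩ := hp
    unfold ZZ ip
    have h1 : 0 ≤ ∑ j, t j * p.2 j := Finset.sum_nonneg fun j _ =>
      mul_nonneg (by linarith [(ht j).1]) (hp2 j).1
    have h2 : ∑ j, t j * p.2 j ≤ ∑ _j : Fin (d + 1), (2:ℝ) := Finset.sum_le_sum fun j _ => by
      nlinarith [(ht j).1, (ht j).2, (hp2 j).1, (hp2 j).2]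
    rw [Finset.sum_const, Finset.card_univ, Fintype.card_fin, nsmul_eq_mul] at h2
    push_cast at h2
    have h3 : 0 ≤ T * p.1 := mul_nonneg (by linarith [hT.1]) hp1.1
    have h4 : T * p.1 ≤ 2 := by nlinarith [hT.1, hT.2, hp1.1, hp1.2]
    constructor
    · linarith
    · linarith
  have hcover : ∀ᵐ p ∂(μ.prod (PP d μ)), p ∈ ⋃ j ∈ Finset.range M,
      ZZ T t ⁻¹' Ico ((j:ℝ) / (4 * N : ℕ)) (((j:ℝ) + 1) / (4 * N : ℕ)) := by
    filter_upwards [hZ] with p hp
    have h0 : 0 ≤ ((4 * N : ℕ) : ℝ) * ZZ T t p := mul_nonneg hN4'.le hp.1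
    rw [Set.mem_iUnion₂]
    refine ⟨⌊((4 * N : ℕ) : ℝ) * ZZ T t p⌋₊, ?_, ?_⟩
    · rw [Finset.mem_range, hM, Nat.lt_succ_iff]
      apply Nat.floor_le_of_le
      push_cast
      nlinarith [hp.2]
    · rw [Set.mem_preimage, mem_Ico, div_le_iff₀ hN4', lt_div_iff₀ hN4']
      have a1 := Nat.floor_le h0
      have a2 := Nat.lt_floor_add_one (((4 * N : ℕ) : ℝ) * ZZ T t p)
      constructor <;> linarith
  have h1 : (μ.prod (PP d μ)).real (⋃ j ∈ Finset.range M,
      ZZ T t ⁻¹' Ico ((j:ℝ) / (4 * N : ℕ)) (((j:ℝ) + 1) / (4 * N : ℕ))) = 1 := by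
    rw [measureReal_def, (prob_compl_eq_zero_iff ?_).mp ?_, ENNReal.toReal_one]
    · exact Finset.measurableSet_biUnion _ fun j _ =>
        (continuous_ZZ T t).measurable measurableSet_Ico
    · rw [ae_iff] at hcover
      exact hcover
  rw [measureReal_biUnion_finset] at h1
  · have h2 : ∑ j ∈ Finset.range M, (μ.prod (PP d μ)).real
        (ZZ T t ⁻¹' Ico ((j:ℝ) / (4 * N : ℕ)) (((j:ℝ) + 1) / (4 * N : ℕ))) <
        ∑ _j ∈ Finset.range M, 1 / (M:ℝ) := by
      refine Finset.sum_lt_sum_of_nonempty ?_ fun j _ => hcon j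
      rw [Finset.nonempty_range_iff]
      omega
    rw [Finset.sum_const, Finset.card_range, nsmul_eq_mul, mul_one_div_cancel hM0.ne', h1] at h2
    exact lt_irrefl _ h2
  · intro i _ j _ hij
    exact Disjoint.preimage _ (cells_disjoint hN4 (univ : Set ℕ) (mem_univ i) (mem_univ j) hij)
  · exact fun j _ => (continuous_ZZ T t).measurable measurableSet_Ico

theorem interval_main (hd : 1 ≤ d) (hμ : μ (Icc (0:ℝ) 1)ᶜ = 0) {C : ℝ} (hC : 0 ≤ C)
    (hF : ∀ z r : ℝ, 0 < r → μ (Metric.closedBall z r) ≤ ENNReal.ofReal (C * r ^ (aa d - eps d)))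
    {K : Set ℝ} (hK : IsCompact K) (hμK : μ Kᶜ = 0) :
    ∃ T ∈ Ico (1:ℝ) 2, ∃ t : Fin (d + 1) → ℝ,
      (interior {z : ℝ | ∃ x₀ ∈ K, ∃ x : Fin (d + 1) → ℝ, (∀ i, x i ∈ K) ∧
        z = T * x₀ + ∑ i, t i * x i}).Nonempty := by
  obtain ⟨k₀, T, hT, t, ht, b, hb0, hb1, hsum, hdiff⟩ :=
    good_pair hd hμ hC hF (δ := 1 / (36 * ((d:ℝ) + 2))) (by positivity)
  refine ⟨T, hT, t, ?_⟩
  have h1b : 0 < 1 - b := by linarith
  -- telescoping
  have htel : ∀ k q, |gg μ (2 ^ (k₀ + k)) T t q - gg μ (2 ^ k₀) T t q| ≤ 1 / (36 * ((d:ℝ) + 2)) := by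
    intro k q
    have h1 : ∀ k, |gg μ (2 ^ (k₀ + k)) T t q - gg μ (2 ^ k₀) T t q| ≤
        15 * b ^ k₀ * ∑ i ∈ Finset.range k, b ^ i := by
      intro k
      induction k with
      | zero => simp
      | succ k ih =>
        rw [Finset.sum_range_succ, mul_add]
        have h2 := hdiff k q
        have h3 := abs_add_le (gg μ (2 ^ (k₀ + k + 1)) T t q - gg μ (2 ^ (k₀ + k)) T t q)
          (gg μ (2 ^ (k₀ + k)) T t q - gg μ (2 ^ k₀) T t q)
        rw [sub_add_sub_cancel] at h3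
        rw [← add_assoc]
        linarith
    refine (h1 k).trans (le_trans ?_ hsum)
    have h2 : ∑ i ∈ Finset.range k, b ^ i ≤ 1 / (1 - b) := by
      rw [one_div, ← tsum_geometric_of_lt_one hb0.le hb1]
      exact Summable.sum_le_tsum _ (fun l _ => by positivity)
        (summable_geometric_of_lt_one hb0.le hb1)
    rw [div_eq_mul_one_div]
    gcongr
  -- the cell
  set N : ℕ := 2 ^ k₀ with hN
  have hN0 : 0 < N := by positivity
  have hN' : (0:ℝ) < N := by exact_mod_cast hN0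
  have hN1 : (1:ℝ) ≤ N := by exact_mod_cast hN0
  have hNr : (N:ℝ) = 2 ^ k₀ := by rw [hN]; push_cast; rfl
  obtain ⟨j, hj⟩ := exists_cell hμ hT ht hN0 (d := d)
  have hd0 : (0:ℝ) ≤ d := Nat.cast_nonneg _
  have hlow : ∀ q ∈ Ioo (((j:ℝ) - 5) / (4 * N)) (((j:ℝ) - 2) / (4 * N)),
      1 / (18 * ((d:ℝ) + 2)) ≤ gg μ (2 ^ k₀) T t q := by
    intro q hq
    obtain ⟨hint, heq⟩ := gg_eq (μ := μ) hN' T t q
    rw [← hNr, heq]
    have hmeasS : MeasurableSet (ZZ T t ⁻¹' Ico ((j:ℝ) / (4 * N : ℕ)) (((j:ℝ) + 1) / (4 * N : ℕ))) :=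
      (continuous_ZZ T t).measurable measurableSet_Ico
    have h1 : ∫ p, (ZZ T t ⁻¹' Ico ((j:ℝ) / (4 * N : ℕ)) (((j:ℝ) + 1) / (4 * N : ℕ))).indicator
        (fun _ => (N:ℝ) / 2) p ∂(μ.prod (PP d μ)) ≤ ∫ p, phi N (ZZ T t p - q) ∂(μ.prod (PP d μ)) := by
      refine integral_mono ((integrable_const _).indicator hmeasS) hint fun p => ?_
      by_cases hp : p ∈ ZZ T t ⁻¹' Ico ((j:ℝ) / (4 * N : ℕ)) (((j:ℝ) + 1) / (4 * N : ℕ))
      · rw [Set.indicator_of_mem hp]
        rw [Set.mem_preimage, mem_Ico] at hp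
        push_cast at hp
        apply phi_lower hN'
        · have e : 1 / (2 * (N:ℝ)) = (j:ℝ) / (4 * N) - ((j:ℝ) - 2) / (4 * N) := by
            field_simp
            ring
          rw [e]
          linarith [hp.1, hq.2]
        · have e : 3 / (2 * (N:ℝ)) = ((j:ℝ) + 1) / (4 * N) - ((j:ℝ) - 5) / (4 * N) := by
            field_simp
            ring
          rw [e]
          linarith [hp.2, hq.1]
      · rw [Set.indicator_of_notMem hp]
        exact phi_nonneg hN' _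
    rw [integral_indicator_const _ hmeasS, smul_eq_mul] at h1
    refine le_trans ?_ h1
    calc 1 / (18 * ((d:ℝ) + 2)) ≤ 1 / (8 * ((d:ℝ) + 2) * N + 1) * (N / 2) := by
          rw [div_mul_div_comm, one_mul, div_le_div_iff₀ (by positivity) (by positivity)]
          nlinarith
      _ ≤ _ := by gcongr
  -- the conclusion
  refine ⟨((j:ℝ) - 7 / 2) / (4 * N), ?_⟩
  rw [mem_interior]
  refine ⟨Ioo (((j:ℝ) - 5) / (4 * N)) (((j:ℝ) - 2) / (4 * N)), ?_, isOpen_Ioo, ?_⟩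
  · intro q hq
    set S : Set (ℝ × (Fin (d + 1) → ℝ)) := K ×ˢ (Set.univ.pi fun _ => K) with hS
    have hScpt : IsCompact S := hK.prod (isCompact_univ_pi fun _ => hK)
    have hcl : IsClosed (ZZ T t '' S) := (hScpt.image (continuous_ZZ T t)).isClosed
    have hmem : q ∈ closure (ZZ T t '' S) := by
      rw [Metric.mem_closure_iff]
      intro r hr
      obtain ⟨k, hk⟩ : ∃ k : ℕ, 2 / (2:ℝ) ^ (k₀ + k) < r := by
        have h1 : Tendsto (fun k : ℕ => (2:ℝ) * (1 / 2) ^ k) atTop (nhds (2 * 0)) :=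
          (tendsto_pow_atTop_nhds_zero_of_lt_one (by norm_num) (by norm_num)).const_mul 2
        rw [mul_zero] at h1
        obtain ⟨k, hk⟩ := (h1.eventually_lt_const hr).exists
        refine ⟨k, lt_of_le_of_lt ?_ hk⟩
        rw [one_div, inv_pow, ← div_eq_mul_inv]
        have : (2:ℝ) ^ k ≤ 2 ^ (k₀ + k) := pow_le_pow_right₀ (by norm_num) (Nat.le_add_left _ _)
        gcongr
      have hpos : 0 < gg μ (2 ^ (k₀ + k)) T t q := by
        have h1 := hlow q hq
        have h2 := (abs_le.mp (htel k q)).1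
        have h3 : 1 / (36 * ((d:ℝ) + 2)) < 1 / (18 * ((d:ℝ) + 2)) := by
          apply one_div_lt_one_div_of_lt (by positivity)
          linarith
        linarith
      have hNk : (0:ℝ) < 2 ^ (k₀ + k) := by positivity
      obtain ⟨p, hpS, hp⟩ : ∃ p ∈ S, phi (2 ^ (k₀ + k)) (ZZ T t p - q) ≠ 0 := by
        by_contra hcon
        push Not at hcon
        rw [(gg_eq (μ := μ) hNk T t q).2] at hpos
        rw [integral_eq_zero_of_ae] at hpos
        · exact lt_irrefl _ hpos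
        · filter_upwards [ae_mem hμK] with p hp
          exact hcon p (Set.mem_prod.mpr ⟨hp.1, Set.mem_univ_pi.mpr hp.2⟩)
      obtain ⟨z1, z2⟩ := phi_ne hp
      refine ⟨ZZ T t p, Set.mem_image_of_mem _ hpS, ?_⟩
      rw [Real.dist_eq, abs_sub_comm, abs_of_nonneg z1]
      linarith
    rw [hcl.closure_eq] at hmem
    obtain ⟨p, hp, hpq⟩ := hmem
    rw [hS, Set.mem_prod, Set.mem_univ_pi] at hp
    exact ⟨p.1, hp.1, p.2, hp.2, hpq.symm⟩
  · have h4N : (0:ℝ) < 4 * N := by positivity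
    constructor
    · gcongr
      linarith
    · gcongr
      linarith

end

end Pool.Agent.D0H31.DS
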