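import Mathlib

/-! # Kernels -/

set_option autoImplicit false

open MeasureTheory Set

namespace Pool.Agent.D0H31.DS

noncomputable section

/-- box kernel of height `N` -/
def chi (N : ℝ) : ℝ → ℝ := (Ico (0:ℝ) (1 / N)).indicator (fun _ => N)

/-- difference of two box kernels -/
def LL (N : ℝ) (y : ℝ) : ℝ := chi (2 * N) y - chi N y

lemma measurable_chi (N : ℝ) : Measurable (chi N) :=
  measurable_const.indicator measurableSet_Ico

lemma measurable_LL (N : ℝ) : Measurable (LL N) :=
  (measurable_chi _).sub (measurable_chi _)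

lemma chi_nonneg {N : ℝ} (hN : 0 < N) (y : ℝ) : 0 ≤ chi N y :=
  Set.indicator_nonneg (fun _ _ => hN.le) y

lemma chi_le {N : ℝ} (hN : 0 < N) (y : ℝ) : chi N y ≤ N := by
  unfold chi Set.indicator
  split_ifs
  · exact le_rfl
  · exact hN.le

lemma integrable_chi (N : ℝ) : Integrable (chi N) := by
  unfold chi
  rw [integrable_indicator_iff measurableSet_Ico]
  refine integrableOn_const ?_
  rw [Real.volume_Ico]
  exact ENNReal.ofReal_ne_top

lemma integral_chi {N : ℝ} (hN : 0 < N) : ∫ y, chi N y = 1 := by
  unfold chi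
  rw [integral_indicator measurableSet_Ico, setIntegral_const, measureReal_def, Real.volume_Ico,
    sub_zero, ENNReal.toReal_ofReal (by positivity), smul_eq_mul, one_div_mul_cancel hN.ne']

lemma integrable_LL (N : ℝ) : Integrable (LL N) := (integrable_chi _).sub (integrable_chi _)

lemma integral_LL {N : ℝ} (hN : 0 < N) : ∫ y, LL N y = 0 := by
  unfold LL
  rw [integral_sub (integrable_chi _) (integrable_chi _), integral_chi hN,
    integral_chi (by positivity), sub_self]

lemma abs_LL_le {N : ℝ} (hN : 0 < N) (y : ℝ) : |LL N y| ≤ chi N y := by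
  unfold LL chi Set.indicator
  have h1 : 1 / (2 * N) ≤ 1 / N := by
    apply one_div_le_one_div_of_le hN
    linarith
  simp only [mem_Ico]
  by_cases h : 0 ≤ y ∧ y < 1 / (2 * N)
  · rw [if_pos h, if_pos ⟨h.1, h.2.trans_le h1⟩]
    rw [abs_le]
    constructor <;> linarith
  · rw [if_neg h]
    split_ifs
    · rw [zero_sub, abs_neg, abs_of_pos hN]
    · rw [sub_zero, abs_zero]

lemma abs_LL_le' {N : ℝ} (hN : 0 < N) (y : ℝ) : |LL N y| ≤ N :=
  (abs_LL_le hN y).trans (chi_le hN y)

lemma chi_ne_zero {N : ℝ} {y : ℝ} (h : chi N y ≠ 0) : 0 ≤ y ∧ y < 1 / N := by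
  by_contra hc
  apply h
  have hm : y ∉ Ico (0:ℝ) (1 / N) := fun hm => hc hm
  unfold chi
  exact Set.indicator_of_notMem hm _

/-- the tent density -/
def tent (t : ℝ) : ℝ := max 0 (1 / 2 - |t - 3 / 2|)

lemma continuous_tent : Continuous tent := by
  unfold tent
  fun_prop

lemma tent_nonneg (t : ℝ) : 0 ≤ tent t := le_max_left _ _

lemma tent_le (t : ℝ) : tent t ≤ 1 / 2 := by
  unfold tent
  refine max_le (by norm_num) ?_
  linarith [abs_nonneg (t - 3 / 2)]

lemma tent_lip (t t' : ℝ) : |tent t - tent t'| ≤ |t - t'| := by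
  unfold tent
  have h1 := abs_max_sub_max_le_abs (1 / 2 - |t - 3 / 2|) (1 / 2 - |t' - 3 / 2|) 0
  rw [max_comm _ (0:ℝ), max_comm _ (0:ℝ)] at h1
  refine h1.trans ?_
  rw [show 1 / 2 - |t - 3 / 2| - (1 / 2 - |t' - 3 / 2|) = |t' - 3 / 2| - |t - 3 / 2| by ring]
  refine (abs_abs_sub_abs_le (t' - 3/2) (t - 3/2)).trans ?_
  rw [show t' - 3 / 2 - (t - 3 / 2) = t' - t by ring, abs_sub_comm]

lemma tent_ne_zero {t : ℝ} (h : tent t ≠ 0) : 1 ≤ t ∧ t ≤ 2 := by
  by_contra hc
  apply h
  unfold tent
  apply max_eq_left
  rw [sub_nonpos]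
  rcases lt_or_ge t 1 with h1 | h1
  · rw [abs_of_neg (by linarith)]; linarith
  · have h2 : 2 < t := by
      by_contra h3
      push Not at h3
      exact hc ⟨h1, h3⟩
    rw [abs_of_pos (by linarith)]; linarith

/-- the measure with tent density -/
def lam : Measure ℝ := volume.withDensity fun t => ENNReal.ofReal (tent t)

lemma lam_integral (f : ℝ → ℝ) : ∫ t, f t ∂lam = ∫ t, tent t * f t := by
  unfold lam
  rw [integral_withDensity_eq_integral_toReal_smul
    (by have := continuous_tent; fun_prop) (Filter.Eventually.of_forall fun _ => ENNReal.ofReal_lt_top)]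
  refine integral_congr_ae (Filter.Eventually.of_forall fun t => ?_)
  simp only [smul_eq_mul]
  rw [ENNReal.toReal_ofReal (tent_nonneg t)]

lemma lam_univ_le : lam univ ≤ 1 := by
  unfold lam
  rw [withDensity_apply _ MeasurableSet.univ, Measure.restrict_univ]
  calc ∫⁻ t, ENNReal.ofReal (tent t) ≤ ∫⁻ t, (Icc (1:ℝ) 2).indicator (fun _ => 1) t := by
        refine lintegral_mono fun t => ?_
        by_cases h : t ∈ Icc (1:ℝ) 2
        · rw [Set.indicator_of_mem h]
          refine ENNReal.ofReal_le_one.mpr ?_
          linarith [tent_le t]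
        · rw [Set.indicator_of_notMem h]
          have : tent t = 0 := by
            by_contra h2
            exact h (tent_ne_zero h2)
          rw [this, ENNReal.ofReal_zero]
    _ = 1 := by
        rw [lintegral_indicator measurableSet_Icc, setLIntegral_const, Real.volume_Icc]
        norm_num

instance : IsFiniteMeasure lam := ⟨lt_of_le_of_lt lam_univ_le ENNReal.one_lt_top⟩

lemma lam_univ_pos : 0 < lam univ := by
  unfold lam
  rw [withDensity_apply _ MeasurableSet.univ, Measure.restrict_univ]
  calc (0:ENNReal) < ∫⁻ t, (Icc (5/4:ℝ) (7/4)).indicator (fun _ => ENNReal.ofReal (1/4)) t := by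
        rw [lintegral_indicator measurableSet_Icc, setLIntegral_const, Real.volume_Icc]
        refine ENNReal.mul_pos ?_ ?_
        · rw [Ne, ENNReal.ofReal_eq_zero]; norm_num
        · rw [Ne, ENNReal.ofReal_eq_zero]; norm_num
    _ ≤ _ := by
        refine lintegral_mono fun t => ?_
        by_cases h : t ∈ Icc (5/4:ℝ) (7/4)
        · rw [Set.indicator_of_mem h]
          refine ENNReal.ofReal_le_ofReal ?_
          unfold tent
          refine le_max_of_le_right ?_
          have : |t - 3/2| ≤ 1/4 := by
            rw [abs_le]; constructor <;> linarith [h.1, h.2]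
          linarith
        · rw [Set.indicator_of_notMem h]
          exact zero_le

lemma lam_compl : lam (Icc (1:ℝ) 2)ᶜ = 0 := by
  unfold lam
  rw [withDensity_apply _ measurableSet_Icc.compl, setLIntegral_eq_zero_iff measurableSet_Icc.compl
    (by have := continuous_tent; fun_prop)]
  refine Filter.Eventually.of_forall fun t ht => ?_
  have : tent t = 0 := by
    by_contra h2
    exact ht (tent_ne_zero h2)
  rw [this, ENNReal.ofReal_zero]

/-- one-dimensional cancellation -/
lemma one_dim {N : ℝ} (hN : 0 < N) {v : ℝ} (hv : v ≠ 0) (b : ℝ) :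
    |∫ t, LL N (b + t * v) ∂lam| ≤ 1 / (N * v ^ 2) := by
  rw [lam_integral]
  have hsub : ∀ f : ℝ → ℝ, ∫ t, f (b + t * v) = |v|⁻¹ * ∫ y, f y := by
    intro f
    have h1 := Measure.integral_comp_mul_right (fun y => f (b + y)) v
    rw [integral_add_left_eq_self (μ := volume) f b] at h1
    rw [h1, smul_eq_mul, abs_inv]
  have hint : ∀ f : ℝ → ℝ, Integrable f → Integrable fun t => f (b + t * v) := by
    intro f hf
    have h1 : Integrable fun y => f (b + y) := hf.comp_add_left b
    exact h1.comp_mul_right' hv
  set t0 : ℝ := -b / v with ht0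
  have hLLi := hint _ (integrable_LL N)
  have h1 : ∫ t, tent t * LL N (b + t * v) = ∫ t, (tent t - tent t0) * LL N (b + t * v) := by
    have h2 : ∫ t, tent t0 * LL N (b + t * v) = 0 := by
      rw [integral_const_mul, hsub, integral_LL hN, mul_zero, mul_zero]
    have h3 : Integrable fun t => tent t * LL N (b + t * v) := by
      refine hLLi.bdd_mul (c := 1 / 2) continuous_tent.aestronglyMeasurable ?_
      refine Filter.Eventually.of_forall fun t => ?_
      rw [Real.norm_eq_abs, abs_of_nonneg (tent_nonneg t)]
      exact tent_le t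
    have h4 : ∫ t, (tent t - tent t0) * LL N (b + t * v) =
        (∫ t, tent t * LL N (b + t * v)) - ∫ t, tent t0 * LL N (b + t * v) := by
      rw [← integral_sub h3 (hLLi.const_mul _)]
      exact integral_congr_ae (Filter.Eventually.of_forall fun t => by ring)
    rw [h4, h2, sub_zero]
  rw [h1]
  have hv' : 0 < |v| := abs_pos.mpr hv
  have hdom : Integrable fun t => 1 / (N * |v|) * chi N (b + t * v) :=
    (hint _ (integrable_chi N)).const_mul _
  calc |∫ t, (tent t - tent t0) * LL N (b + t * v)|
      ≤ ∫ t, 1 / (N * |v|) * chi N (b + t * v) := by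
        rw [← Real.norm_eq_abs]
        refine norm_integral_le_of_norm_le hdom (Filter.Eventually.of_forall fun t => ?_)
        rw [Real.norm_eq_abs, abs_mul]
        by_cases hc : chi N (b + t * v) = 0
        · have : |LL N (b + t * v)| ≤ 0 := by rw [← hc]; exact abs_LL_le hN _
          rw [le_antisymm this (abs_nonneg _), mul_zero, hc, mul_zero]
        · obtain ⟨h5, h6⟩ := chi_ne_zero hc
          have h7 : |tent t - tent t0| ≤ 1 / (N * |v|) := by
            refine (tent_lip t t0).trans ?_
            have h8 : t - t0 = (b + t * v) / v := by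
              rw [ht0]; field_simp; ring
            rw [h8, abs_div, abs_of_nonneg h5, div_le_iff₀ hv']
            have : 1 / (N * |v|) * |v| = 1 / N := by field_simp
            rw [this]
            exact h6.le
          exact mul_le_mul h7 (abs_LL_le hN _) (abs_nonneg _) (by positivity)
    _ = 1 / (N * v ^ 2) := by
        rw [integral_const_mul, hsub, integral_chi hN, ← sq_abs v]
        field_simp

end

end Pool.Agent.D0H31.DS
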