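import Mathlib

/-! # Counting paths (abstract part of the maximal estimate) -/

set_option autoImplicit false

open Finset

namespace Pool.Agent.D0H31.DS

variable {ι α β : Type} (T : Finset ι) (X : Finset α) (Y : Finset β)

/-- apply the kernel `M` to a function of `y` -/
def push (M : α → β → ℝ) (f : β → ℝ) : α → ℝ := fun x => ∑ y ∈ Y, M x y * f y

/-- apply the transposed kernel to a function of `x` -/
def pull (M : α → β → ℝ) (g : α → ℝ) : β → ℝ := fun y => ∑ x ∈ X, M x y * g x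

lemma adj (M : α → β → ℝ) (f : β → ℝ) (g : α → ℝ) :
    ∑ x ∈ X, g x * push Y M f x = ∑ y ∈ Y, pull X M g y * f y := by
  unfold push pull
  simp only [Finset.mul_sum, Finset.sum_mul]
  rw [Finset.sum_comm]
  exact Finset.sum_congr rfl fun y _ => Finset.sum_congr rfl fun x _ => by ring

lemma push_sum (M : ι → α → β → ℝ) (f : β → ℝ) (x : α) :
    ∑ k ∈ T, push Y (M k) f x = push Y (fun x y => ∑ k ∈ T, M k x y) f x := by
  unfold push
  rw [Finset.sum_comm]
  exact Finset.sum_congr rfl fun y _ => by rw [Finset.sum_mul]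

lemma pull_sum (M : ι → α → β → ℝ) (g : α → ℝ) (y : β) :
    ∑ k ∈ T, pull X (M k) g y = pull X (fun x y => ∑ k ∈ T, M k x y) g y := by
  unfold pull
  rw [Finset.sum_comm]
  exact Finset.sum_congr rfl fun y _ => by rw [Finset.sum_mul]

lemma push_sum' (M : α → β → ℝ) (f : ι → β → ℝ) (x : α) :
    ∑ k ∈ T, push Y M (f k) x = push Y M (fun y => ∑ k ∈ T, f k y) x := by
  unfold push
  rw [Finset.sum_comm]
  exact Finset.sum_congr rfl fun y _ => by rw [Finset.mul_sum]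

lemma pull_sum' (M : α → β → ℝ) (g : ι → α → ℝ) (y : β) :
    ∑ k ∈ T, pull X M (g k) y = pull X M (fun x => ∑ k ∈ T, g k x) y := by
  unfold pull
  rw [Finset.sum_comm]
  exact Finset.sum_congr rfl fun y _ => by rw [Finset.mul_sum]

variable {X Y}

lemma push_mono {M : α → β → ℝ} (hM : ∀ x y, 0 ≤ M x y) {f g : β → ℝ} (h : ∀ y ∈ Y, f y ≤ g y)
    (x : α) : push Y M f x ≤ push Y M g x :=
  Finset.sum_le_sum fun y hy => mul_le_mul_of_nonneg_left (h y hy) (hM x y)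

lemma pull_mono {M : α → β → ℝ} (hM : ∀ x y, 0 ≤ M x y) {f g : α → ℝ} (h : ∀ x ∈ X, f x ≤ g x)
    (y : β) : pull X M f y ≤ pull X M g y :=
  Finset.sum_le_sum fun x hx => mul_le_mul_of_nonneg_left (h x hx) (hM x y)

lemma push_nonneg {M : α → β → ℝ} (hM : ∀ x y, 0 ≤ M x y) {f : β → ℝ} (h : ∀ y ∈ Y, 0 ≤ f y)
    (x : α) : 0 ≤ push Y M f x :=
  Finset.sum_nonneg fun y hy => mul_nonneg (hM x y) (h y hy)

lemma pull_nonneg {M : α → β → ℝ} (hM : ∀ x y, 0 ≤ M x y) {f : α → ℝ} (h : ∀ x ∈ X, 0 ≤ f x)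
    (y : β) : 0 ≤ pull X M f y :=
  Finset.sum_nonneg fun x hx => mul_nonneg (hM x y) (h x hx)

lemma push_smul (M : α → β → ℝ) (f : β → ℝ) (D : ℝ) (x : α) :
    push Y M (fun y => D * f y) x = D * push Y M f x := by
  unfold push
  rw [Finset.mul_sum]
  exact Finset.sum_congr rfl fun y _ => by ring

lemma pull_smul (M : α → β → ℝ) (f : α → ℝ) (D : ℝ) (y : β) :
    pull X M (fun x => D * f x) y = D * pull X M f y := by
  unfold pull
  rw [Finset.mul_sum]
  exact Finset.sum_congr rfl fun y _ => by ring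

variable (X Y)

/-- the five-edge path kernel applied to `f`: labels `r, t, s, s', t` -/
def P5 (e : ι → α → β → ℝ) (r s s' t : ι) (f : β → ℝ) : α → ℝ :=
  push Y (e t) (pull X (e s') (push Y (e s) (pull X (e t) (push Y (e r) f))))

/-- the number of paths ending in `x` -/
def cnt (e : ι → α → β → ℝ) (r s s' : ι) (x : α) : ℝ := ∑ t ∈ T, P5 X Y e r s s' t (fun _ => 1) x

theorem lower {e : ι → α → β → ℝ} (he : ∀ k x y, 0 ≤ e k x y) {D E0 : ℝ} (hD : 0 ≤ D)
    (hdeg : ∀ x ∈ X, D ≤ ∑ r ∈ T, ∑ z ∈ Y, e r x z) (hE0 : 0 ≤ E0)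
    (hE : E0 ≤ ∑ k ∈ T, ∑ x ∈ X, ∑ y ∈ Y, e k x y) :
    D ^ 2 * E0 ^ 8 ≤ (Y.card : ℝ) ^ 4 * (T.card : ℝ) ^ 5 * (X.card : ℝ) ^ 3 *
      ∑ r ∈ T, ∑ s ∈ T, ∑ s' ∈ T, ∑ x ∈ X, cnt T X Y e r s s' x ^ 2 := by
  classical
  set N : α → β → ℝ := fun x y => ∑ k ∈ T, e k x y with hN
  have hN0 : ∀ x y, 0 ≤ N x y := fun x y => Finset.sum_nonneg fun k _ => he k x y
  set N6 := ∑ r ∈ T, ∑ s ∈ T, ∑ s' ∈ T, ∑ x ∈ X, cnt T X Y e r s s' x ^ 2 with hN6
  set N5 := ∑ r ∈ T, ∑ s ∈ T, ∑ s' ∈ T, ∑ x ∈ X, cnt T X Y e r s s' x with hN5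
  set v : ι → α → ℝ := fun t => push Y N (pull X (e t) (fun _ => 1)) with hv
  set N4 := ∑ t ∈ T, ∑ x ∈ X, v t x ^ 2 with hN4
  set dg : β → ℝ := fun y => pull X N (fun _ => 1) y with hdg
  have hT0 : (0:ℝ) ≤ T.card := Nat.cast_nonneg _
  have hX0 : (0:ℝ) ≤ X.card := Nat.cast_nonneg _
  have hY0 : (0:ℝ) ≤ Y.card := Nat.cast_nonneg _
  -- step A : E0 ^ 2 ≤ |Y| * ∑ dg ^ 2
  have hA1 : ∑ y ∈ Y, dg y = ∑ k ∈ T, ∑ x ∈ X, ∑ y ∈ Y, e k x y := by
    simp only [hdg, pull, hN, mul_one]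
    rw [Finset.sum_comm]
    rw [Finset.sum_comm (s := T)]
    refine Finset.sum_congr rfl fun x _ => ?_
    rw [Finset.sum_comm]
  have hA : E0 ^ 2 ≤ Y.card * ∑ y ∈ Y, dg y ^ 2 := by
    calc E0 ^ 2 ≤ (∑ y ∈ Y, dg y) ^ 2 := by
          rw [hA1]; exact pow_le_pow_left₀ hE0 hE 2
      _ ≤ _ := sq_sum_le_card_mul_sum_sq
  -- step B : ∑_t ∑_x v = ∑ dg ^ 2
  have hB : ∑ t ∈ T, ∑ x ∈ X, v t x = ∑ y ∈ Y, dg y ^ 2 := by
    have h1 : ∀ t, ∑ x ∈ X, v t x = ∑ y ∈ Y, dg y * pull X (e t) (fun _ => 1) y := by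
      intro t
      have := adj X Y N (pull X (e t) (fun _ => 1)) (fun _ => 1)
      simpa [hv, hdg] using this
    simp only [h1]
    rw [Finset.sum_comm]
    refine Finset.sum_congr rfl fun y _ => ?_
    rw [← Finset.mul_sum, pull_sum, sq]
  have hC : (∑ y ∈ Y, dg y ^ 2) ^ 2 ≤ T.card * X.card * N4 := by
    rw [← hB, hN4]
    calc (∑ t ∈ T, ∑ x ∈ X, v t x) ^ 2 ≤ T.card * ∑ t ∈ T, (∑ x ∈ X, v t x) ^ 2 :=
          sq_sum_le_card_mul_sum_sq
      _ ≤ T.card * ∑ t ∈ T, (X.card * ∑ x ∈ X, v t x ^ 2) := by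
          refine mul_le_mul_of_nonneg_left (Finset.sum_le_sum fun t _ => ?_) hT0
          exact sq_sum_le_card_mul_sum_sq
      _ = _ := by rw [← Finset.mul_sum]; ring
  -- step D : D * N4 ≤ N5
  have hD5 : D * N4 ≤ N5 := by
    have h1 : N5 = ∑ t ∈ T, ∑ x ∈ X,
        push Y (e t) (pull X N (push Y N (pull X (e t) (push Y N (fun _ => 1))))) x := by
      have e1 : N5 = ∑ t ∈ T, ∑ x ∈ X, ∑ s' ∈ T, ∑ s ∈ T, ∑ r ∈ T,
          P5 X Y e r s s' t (fun _ => 1) x := by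
        simp only [hN5, cnt]
        calc ∑ r ∈ T, ∑ s ∈ T, ∑ s' ∈ T, ∑ x ∈ X, ∑ t ∈ T, P5 X Y e r s s' t (fun _ => 1) x
            = ∑ r ∈ T, ∑ s ∈ T, ∑ x ∈ X, ∑ s' ∈ T, ∑ t ∈ T, P5 X Y e r s s' t (fun _ => 1) x := by
              refine Finset.sum_congr rfl fun r _ => Finset.sum_congr rfl fun s _ => ?_
              rw [Finset.sum_comm]
          _ = ∑ r ∈ T, ∑ x ∈ X, ∑ s ∈ T, ∑ s' ∈ T, ∑ t ∈ T, P5 X Y e r s s' t (fun _ => 1) x := by
              refine Finset.sum_congr rfl fun r _ => ?_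
              rw [Finset.sum_comm]
          _ = ∑ x ∈ X, ∑ r ∈ T, ∑ s ∈ T, ∑ s' ∈ T, ∑ t ∈ T, P5 X Y e r s s' t (fun _ => 1) x := by
              rw [Finset.sum_comm]
          _ = ∑ x ∈ X, ∑ t ∈ T, ∑ s' ∈ T, ∑ s ∈ T, ∑ r ∈ T, P5 X Y e r s s' t (fun _ => 1) x := by
              refine Finset.sum_congr rfl fun x _ => ?_
              calc ∑ r ∈ T, ∑ s ∈ T, ∑ s' ∈ T, ∑ t ∈ T, P5 X Y e r s s' t (fun _ => 1) x
                  = ∑ r ∈ T, ∑ s ∈ T, ∑ t ∈ T, ∑ s' ∈ T, P5 X Y e r s s' t (fun _ => 1) x := by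
                    refine Finset.sum_congr rfl fun r _ => Finset.sum_congr rfl fun s _ => ?_
                    rw [Finset.sum_comm]
                _ = ∑ r ∈ T, ∑ t ∈ T, ∑ s ∈ T, ∑ s' ∈ T, P5 X Y e r s s' t (fun _ => 1) x := by
                    refine Finset.sum_congr rfl fun r _ => ?_
                    rw [Finset.sum_comm]
                _ = ∑ t ∈ T, ∑ r ∈ T, ∑ s ∈ T, ∑ s' ∈ T, P5 X Y e r s s' t (fun _ => 1) x := by
                    rw [Finset.sum_comm]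
                _ = ∑ t ∈ T, ∑ s' ∈ T, ∑ s ∈ T, ∑ r ∈ T, P5 X Y e r s s' t (fun _ => 1) x := by
                    refine Finset.sum_congr rfl fun t _ => ?_
                    calc ∑ r ∈ T, ∑ s ∈ T, ∑ s' ∈ T, P5 X Y e r s s' t (fun _ => 1) x
                        = ∑ r ∈ T, ∑ s' ∈ T, ∑ s ∈ T, P5 X Y e r s s' t (fun _ => 1) x := by
                          refine Finset.sum_congr rfl fun r _ => ?_
                          rw [Finset.sum_comm]
                      _ = ∑ s' ∈ T, ∑ r ∈ T, ∑ s ∈ T, P5 X Y e r s s' t (fun _ => 1) x := by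
                          rw [Finset.sum_comm]
                      _ = _ := by
                          refine Finset.sum_congr rfl fun s' _ => ?_
                          rw [Finset.sum_comm]
          _ = _ := by rw [Finset.sum_comm]
      rw [e1]
      refine Finset.sum_congr rfl fun t _ => Finset.sum_congr rfl fun x _ => ?_
      unfold P5
      have h2 : ∀ s' s, ∑ r ∈ T, push Y (e t) (pull X (e s') (push Y (e s) (pull X (e t)
          (push Y (e r) (fun _ => 1))))) x = push Y (e t) (pull X (e s') (push Y (e s) (pull X (e t)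
          (push Y N (fun _ => 1))))) x := by
        intro s' s
        rw [push_sum']
        congr 1; funext y
        rw [pull_sum']
        congr 1; funext y
        rw [push_sum']
        congr 1; funext y
        rw [pull_sum']
        congr 1; funext y
        rw [push_sum]
      have h3 : ∀ s', ∑ s ∈ T, push Y (e t) (pull X (e s') (push Y (e s) (pull X (e t)
          (push Y N (fun _ => 1))))) x = push Y (e t) (pull X (e s') (push Y N (pull X (e t)
          (push Y N (fun _ => 1))))) x := by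
        intro s'
        rw [push_sum']
        congr 1; funext y
        rw [pull_sum']
        congr 1; funext y
        rw [push_sum]
      simp only [h2, h3]
      rw [push_sum']
      congr 1; funext y
      rw [pull_sum]
    rw [h1, hN4, Finset.mul_sum]
    refine Finset.sum_le_sum fun t _ => ?_
    have hd : ∀ x ∈ X, D * 1 ≤ push Y N (fun _ => 1) x := by
      intro x hx
      rw [mul_one]
      refine (hdeg x hx).trans (le_of_eq ?_)
      simp only [push, hN, mul_one]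
      rw [Finset.sum_comm]
    have h4 : ∀ x ∈ X, D * v t x ≤ push Y N (pull X (e t) (push Y N (fun _ => 1))) x := by
      intro x _
      rw [hv, ← push_smul]
      refine push_mono hN0 (fun y _ => ?_) x
      rw [← pull_smul]
      exact pull_mono (he t) hd y
    have h5 : ∀ w : α → ℝ, ∑ x ∈ X, push Y (e t) (pull X N w) x = ∑ x ∈ X, v t x * w x := by
      intro w
      have a1 := adj X Y (e t) (pull X N w) (fun _ => 1)
      simp only [one_mul] at a1
      rw [a1]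
      have a2 := adj X Y N (pull X (e t) (fun _ => 1)) w
      calc ∑ y ∈ Y, pull X (e t) (fun _ => 1) y * pull X N w y
          = ∑ y ∈ Y, pull X N w y * pull X (e t) (fun _ => 1) y :=
            Finset.sum_congr rfl fun y _ => mul_comm _ _
        _ = ∑ x ∈ X, w x * push Y N (pull X (e t) (fun _ => 1)) x := a2.symm
        _ = _ := Finset.sum_congr rfl fun x _ => mul_comm _ _
    rw [h5, Finset.mul_sum]
    refine Finset.sum_le_sum fun x hx => ?_
    have h6 : 0 ≤ v t x := by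
      rw [hv]
      exact push_nonneg hN0 (fun y _ => pull_nonneg (he t) (fun _ _ => zero_le_one) y) x
    calc D * v t x ^ 2 = v t x * (D * v t x) := by ring
      _ ≤ _ := mul_le_mul_of_nonneg_left (h4 x hx) h6
  -- step E : N5 ^ 2 ≤ |T| ^ 3 * |X| * N6
  have hE6 : N5 ^ 2 ≤ (T.card : ℝ) ^ 3 * X.card * N6 := by
    calc N5 ^ 2 ≤ T.card * ∑ r ∈ T, (∑ s ∈ T, ∑ s' ∈ T, ∑ x ∈ X, cnt T X Y e r s s' x) ^ 2 :=
          sq_sum_le_card_mul_sum_sq
      _ ≤ T.card * ∑ r ∈ T, (T.card * ∑ s ∈ T, (∑ s' ∈ T, ∑ x ∈ X, cnt T X Y e r s s' x) ^ 2) := by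
          refine mul_le_mul_of_nonneg_left (Finset.sum_le_sum fun r _ => ?_) hT0
          exact sq_sum_le_card_mul_sum_sq
      _ ≤ T.card * ∑ r ∈ T, (T.card * ∑ s ∈ T, (T.card * ∑ s' ∈ T,
            (∑ x ∈ X, cnt T X Y e r s s' x) ^ 2)) := by
          refine mul_le_mul_of_nonneg_left (Finset.sum_le_sum fun r _ => ?_) hT0
          refine mul_le_mul_of_nonneg_left (Finset.sum_le_sum fun s _ => ?_) hT0
          exact sq_sum_le_card_mul_sum_sq
      _ ≤ T.card * ∑ r ∈ T, (T.card * ∑ s ∈ T, (T.card * ∑ s' ∈ T,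
            (X.card * ∑ x ∈ X, cnt T X Y e r s s' x ^ 2))) := by
          refine mul_le_mul_of_nonneg_left (Finset.sum_le_sum fun r _ => ?_) hT0
          refine mul_le_mul_of_nonneg_left (Finset.sum_le_sum fun s _ => ?_) hT0
          refine mul_le_mul_of_nonneg_left (Finset.sum_le_sum fun s' _ => ?_) hT0
          exact sq_sum_le_card_mul_sum_sq
      _ = _ := by
          simp only [← Finset.mul_sum, hN6]
          ring
  have hN40 : 0 ≤ N4 := Finset.sum_nonneg fun t _ => Finset.sum_nonneg fun x _ => sq_nonneg _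
  have hd0 : 0 ≤ ∑ y ∈ Y, dg y ^ 2 := Finset.sum_nonneg fun y _ => sq_nonneg _
  -- combine
  have c1 : E0 ^ 4 ≤ (Y.card : ℝ) ^ 2 * (T.card * X.card * N4) := by
    calc E0 ^ 4 = (E0 ^ 2) ^ 2 := by ring
      _ ≤ (Y.card * ∑ y ∈ Y, dg y ^ 2) ^ 2 := pow_le_pow_left₀ (sq_nonneg _) hA 2
      _ = (Y.card : ℝ) ^ 2 * (∑ y ∈ Y, dg y ^ 2) ^ 2 := by ring
      _ ≤ _ := mul_le_mul_of_nonneg_left hC (sq_nonneg _)
  have c2 : D * E0 ^ 4 ≤ (Y.card : ℝ) ^ 2 * (T.card * X.card * N5) := by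
    calc D * E0 ^ 4 ≤ D * ((Y.card : ℝ) ^ 2 * (T.card * X.card * N4)) :=
          mul_le_mul_of_nonneg_left c1 hD
      _ = (Y.card : ℝ) ^ 2 * (T.card * X.card * (D * N4)) := by ring
      _ ≤ _ := by gcongr
  have c3 : (D * E0 ^ 4) ^ 2 ≤ ((Y.card : ℝ) ^ 2 * (T.card * X.card * N5)) ^ 2 :=
    pow_le_pow_left₀ (by positivity) c2 2
  calc D ^ 2 * E0 ^ 8 = (D * E0 ^ 4) ^ 2 := by ring
    _ ≤ ((Y.card : ℝ) ^ 2 * (T.card * X.card * N5)) ^ 2 := c3
    _ = (Y.card : ℝ) ^ 4 * (T.card : ℝ) ^ 2 * (X.card : ℝ) ^ 2 * N5 ^ 2 := by ring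
    _ ≤ (Y.card : ℝ) ^ 4 * (T.card : ℝ) ^ 2 * (X.card : ℝ) ^ 2 * ((T.card : ℝ) ^ 3 * X.card * N6) := by
        gcongr
    _ = _ := by ring

end Pool.Agent.D0H31.DS
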