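import Pool.Agent.D0H31.DS.Slopes

/-! # All scales -/

set_option autoImplicit false

open MeasureTheory Set Filter

namespace Pool.Agent.D0H31.DS

noncomputable section

variable {d : ℕ}

lemma measure_iUnion_small {α : Type} [MeasurableSpace α] (ρ : Measure α) (S : ℕ → Set α)
    {c b : ℝ} (hc : 0 ≤ c) (hb0 : 0 ≤ b) (hb1 : b < 1)
    (hS : ∀ k, ρ (S k) ≤ ENNReal.ofReal (c * b ^ k)) : ρ (⋃ k, S k) ≤ ENNReal.ofReal (c / (1 - b)) := by
  calc ρ (⋃ k, S k) ≤ ∑' k, ρ (S k) := measure_iUnion_le S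
    _ ≤ ∑' k, ENNReal.ofReal (c * b ^ k) := ENNReal.tsum_le_tsum hS
    _ = ENNReal.ofReal (∑' k, c * b ^ k) :=
        (ENNReal.ofReal_tsum_of_nonneg (fun k => by positivity)
          ((summable_geometric_of_lt_one hb0 hb1).mul_left c)).symm
    _ = ENNReal.ofReal (c / (1 - b)) := by
        rw [tsum_mul_left, tsum_geometric_of_lt_one hb0 hb1, div_eq_mul_inv]

lemma ev_rpow {δ : ℝ} (hδ : 0 < δ) (M : ℝ) : ∀ᶠ k : ℕ in atTop, M ≤ (2:ℝ) ^ (δ * k) := by
  have h1 : (1:ℝ) < 2 ^ δ := Real.one_lt_rpow (by norm_num) hδ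
  have h2 := (tendsto_pow_atTop_atTop_of_one_lt h1).eventually_ge_atTop M
  filter_upwards [h2] with k hk
  rwa [Real.rpow_mul (by norm_num), Real.rpow_natCast]

/-- exponent of the slope -/
def aa (d : ℕ) : ℝ := 2 / (d + 2)
/-- the gain -/
def gam (d : ℕ) : ℝ := aa d * (1 - aa d) / 2
/-- auxiliary -/
def ee (d : ℕ) : ℝ := 46 + 22 / (1 - aa d)
/-- exponent of `K` -/
def eta (d : ℕ) : ℝ := gam d / (20 * ee d)
/-- the epsilon -/
def eps (d : ℕ) : ℝ := eta d / (2 * (d + 2))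

lemma aa_pos : 0 < aa d := by unfold aa; positivity

lemma aa_lt (hd : 1 ≤ d) : aa d < 1 := by
  unfold aa
  have : (1:ℝ) ≤ d := by exact_mod_cast hd
  rw [div_lt_one (by positivity)]
  linarith

lemma gam_pos (hd : 1 ≤ d) : 0 < gam d := by
  unfold gam
  have := aa_lt hd
  have := aa_pos (d := d)
  have : 0 < 1 - aa d := by linarith
  positivity

lemma ee_pos (hd : 1 ≤ d) : 46 < ee d := by
  unfold ee
  have := aa_lt hd
  have : 0 < 1 - aa d := by linarith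
  have : 0 < 22 / (1 - aa d) := by positivity
  linarith

lemma eta_pos (hd : 1 ≤ d) : 0 < eta d := by
  unfold eta
  have := gam_pos hd
  have := ee_pos hd
  positivity

lemma eta_lt (hd : 1 ≤ d) : eta d < 1 := by
  unfold eta
  have h1 := gam_pos hd
  have h2 := ee_pos hd
  rw [div_lt_one (by positivity)]
  have h3 : gam d < 1 := by
    unfold gam
    have := aa_lt hd
    have := aa_pos (d := d)
    nlinarith
  linarith

lemma eps_pos (hd : 1 ≤ d) : 0 < eps d := by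
  unfold eps
  have := eta_pos hd
  positivity

lemma eps_lt_eta (hd : 1 ≤ d) : eps d < eta d := by
  unfold eps
  have h := eta_pos hd
  rw [div_lt_iff₀ (by positivity)]
  have : (0:ℝ) ≤ d := Nat.cast_nonneg _
  nlinarith

lemma eps_lt_aa (hd : 1 ≤ d) : eps d < aa d := by
  unfold eps aa
  have h := eta_lt hd
  rw [div_lt_div_iff₀ (by positivity) (by positivity)]
  have : (0:ℝ) ≤ d := Nat.cast_nonneg _
  nlinarith

/-- the combinatorial condition holds for all large scales -/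
lemma ev_cond (hd : 1 ≤ d) (C : ℝ) : ∀ᶠ k : ℕ in atTop,
    10 ≤ (2:ℝ) ^ (eta d * k) ∧ 2 * C * ((2 ^ k : ℕ) : ℝ) ^ (aa d - (aa d - eps d)) ≤ (2:ℝ) ^ (eta d * k) ∧
    (128 * ((2:ℝ) ^ (eta d * k)) ^ 10) ^ 46 * (128 * ((2:ℝ) ^ (eta d * k)) ^ 10) ^ (22 / (1 - aa d)) ≤
      ((2 ^ k : ℕ) : ℝ) ^ (aa d * (1 - aa d) / 2) := by
  have hη := eta_pos hd
  have hε := eps_pos hd
  have hεη := eps_lt_eta hd
  have hg := gam_pos hd
  have he := ee_pos hd
  filter_upwards [ev_rpow hη 10, ev_rpow (sub_pos.mpr hεη) (2 * C),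
    ev_rpow (half_pos hg) ((128:ℝ) ^ ee d)] with k h1 h2 h3
  refine ⟨h1, ?_, ?_⟩
  · have e1 : ((2 ^ k : ℕ) : ℝ) ^ (aa d - (aa d - eps d)) = 2 ^ (eps d * k) := by
      push_cast
      rw [sub_sub_cancel, ← Real.rpow_natCast, ← Real.rpow_mul (by norm_num), mul_comm]
    rw [e1]
    have e2 : (2:ℝ) ^ (eta d * k) = 2 ^ ((eta d - eps d) * k) * 2 ^ (eps d * k) := by
      rw [← Real.rpow_add (by norm_num)]
      congr 1
      ring
    rw [e2]
    gcongr
  · set B : ℝ := 128 * ((2:ℝ) ^ (eta d * k)) ^ 10 with hB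
    have hB0 : 0 < B := by positivity
    have e1 : B ^ 46 * B ^ (22 / (1 - aa d)) = B ^ ee d := by
      rw [← Real.rpow_natCast B 46, ← Real.rpow_add hB0]
      unfold ee
      norm_num
    have e2 : B ^ ee d = 128 ^ ee d * 2 ^ (gam d / 2 * k) := by
      rw [hB, Real.mul_rpow (by norm_num) (by positivity)]
      congr 1
      rw [← Real.rpow_natCast _ 10, ← Real.rpow_mul (by positivity : (0:ℝ) ≤ 2 ^ (eta d * k)),
        ← Real.rpow_mul (by norm_num : (0:ℝ) ≤ 2)]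
      congr 1
      unfold eta
      push_cast
      field_simp
      ring
    have e3 : ((2 ^ k : ℕ) : ℝ) ^ (aa d * (1 - aa d) / 2) = 2 ^ (gam d / 2 * k) * 2 ^ (gam d / 2 * k) := by
      push_cast
      rw [← Real.rpow_natCast, ← Real.rpow_mul (by norm_num), ← Real.rpow_add (by norm_num)]
      congr 1
      unfold gam
      ring
    rw [e1, e2, e3]
    gcongr

variable {μ : Measure ℝ} [IsProbabilityMeasure μ]

/-- a good choice of all coefficients -/
theorem good_pair (hd : 1 ≤ d) (hμ : μ (Icc (0:ℝ) 1)ᶜ = 0) {C : ℝ} (hC : 0 ≤ C)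
    (hF : ∀ z r : ℝ, 0 < r → μ (Metric.closedBall z r) ≤ ENNReal.ofReal (C * r ^ (aa d - eps d)))
    {δ : ℝ} (hδ : 0 < δ) :
    ∃ k₀ : ℕ, ∃ T ∈ Ico (1:ℝ) 2, ∃ t : Fin (d + 1) → ℝ, (∀ i, t i ∈ Icc (1:ℝ) 2) ∧
      ∃ b : ℝ, 0 < b ∧ b < 1 ∧ 15 * b ^ k₀ / (1 - b) ≤ δ ∧ ∀ k : ℕ, ∀ q : ℝ,
        |gg μ (2 ^ (k₀ + k + 1)) T t q - gg μ (2 ^ (k₀ + k)) T t q| ≤ 15 * b ^ k₀ * b ^ k := by
  have hη := eta_pos hd
  have hε := eps_pos hd
  have hεη := eps_lt_eta hd
  have hεa := eps_lt_aa hd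
  have ha0 := aa_pos (d := d)
  have ha1 := aa_lt hd
  set s : ℝ := aa d - eps d with hs
  have hs0 : 0 ≤ s := by rw [hs]; linarith
  have hsa : s ≤ aa d := by rw [hs]; linarith
  have had : aa d * (d + 1) = 2 - aa d := by
    unfold aa
    field_simp
    ring
  have hs2 : s * (d + 1) < 2 := by
    have : 0 ≤ eps d * (d + 1) := by positivity
    rw [hs, sub_mul]
    linarith
  set x : ℝ := 2 ^ (s * (d + 1)) with hx
  have hx0 : 0 < x := by positivity
  have hx4 : x < 4 := by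
    calc x < 2 ^ (2:ℝ) := Real.rpow_lt_rpow_of_exponent_lt (by norm_num) hs2
      _ = 4 := by norm_num
  set c : ℝ := 4 + 4 * C ^ (d + 1) / (1 - x / 4) with hc
  have hc0 : 0 < c := by
    have : 0 < 1 - x / 4 := by linarith
    positivity
  set b : ℝ := 2 ^ (-(eta d / 2)) with hb
  have hb0 : 0 < b := by positivity
  have hb1 : b < 1 := by
    rw [hb]
    exact Real.rpow_lt_one_of_one_lt_of_neg (by norm_num) (by linarith)
  have h1b : 0 < 1 - b := by linarith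
  have hbk : ∀ k : ℕ, b ^ k = 2 ^ (-(eta d / 2) * k) := fun k => by
    rw [hb, ← Real.rpow_natCast, ← Real.rpow_mul (by norm_num)]
  -- choice of k₀
  have hτ : 0 < (tau0 d).real univ := by
    rw [measureReal_def]
    exact ENNReal.toReal_pos tau0_univ_pos.ne' (measure_ne_top _ _)
  have hsmall : ∀ᶠ k : ℕ in atTop, b ^ k < (1 - b) * min (min 1 (δ / 15)) ((tau0 d).real univ / c) := by
    have h1 := tendsto_pow_atTop_nhds_zero_of_lt_one hb0.le hb1
    refine h1.eventually_lt_const ?_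
    have : 0 < min (min 1 (δ / 15)) ((tau0 d).real univ / c) :=
      lt_min (lt_min one_pos (by positivity)) (by positivity)
    positivity
  obtain ⟨k₁, hk₁⟩ := eventually_atTop.mp (ev_cond hd C)
  obtain ⟨k₂, hk₂⟩ := eventually_atTop.mp hsmall
  set k₀ : ℕ := max k₁ k₂ with hk₀
  have hcond : ∀ k, k₀ ≤ k → _ := fun k hk => hk₁ k ((le_max_left _ _).trans hk)
  have hsm := hk₂ k₀ (le_max_right _ _)
  have hsm1 : b ^ k₀ / (1 - b) < min (min 1 (δ / 15)) ((tau0 d).real univ / c) := by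
    rw [div_lt_iff₀ h1b, mul_comm]
    exact hsm
  have hsmA : b ^ k₀ / (1 - b) < 1 := lt_of_lt_of_le hsm1 ((min_le_left _ _).trans (min_le_left _ _))
  have hsmB : b ^ k₀ / (1 - b) < δ / 15 :=
    lt_of_lt_of_le hsm1 ((min_le_left _ _).trans (min_le_right _ _))
  have hsmC : b ^ k₀ / (1 - b) < (tau0 d).real univ / c := lt_of_lt_of_le hsm1 (min_le_right _ _)
  -- the good t
  set Λ : ℕ → ℝ := fun k => (2 / x) ^ k * 2 ^ (eta d / 2 * k) with hΛ
  have hΛ0 : ∀ k, 0 < Λ k := fun k => by rw [hΛ]; positivity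
  have hBk : ∀ k, (tau0 d) {t | Λ k ≤ EE μ (2 ^ k) t} ≤ ENNReal.ofReal (c * b ^ k) := by
    intro k
    have hN : (0:ℝ) < 2 ^ k := by positivity
    have h1 := mul_meas_ge_le_integral_of_nonneg (μ := tau0 d) (f := EE μ (2 ^ k))
      (Eventually.of_forall fun t => EE_nonneg _ t)
      (Integrable.of_bound (measurable_EE hN).aestronglyMeasurable (2 ^ k)
        (Eventually.of_forall fun t => by
          rw [Real.norm_eq_abs, abs_of_nonneg (EE_nonneg _ _)]
          exact EE_le hN t)) (Λ k)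
    have h2 := h1.trans (energy_bound hC hs2 hF k)
    have h3 : (tau0 d).real {t | Λ k ≤ EE μ (2 ^ k) t} ≤ c * b ^ k := by
      have h4 : c * (2 / x) ^ k = Λ k * (c * b ^ k) := by
        rw [hΛ]
        simp only
        rw [hbk]
        have : (2:ℝ) ^ (eta d / 2 * k) * 2 ^ (-(eta d / 2) * k) = 1 := by
          rw [← Real.rpow_add (by norm_num)]
          rw [show eta d / 2 * (k:ℝ) + -(eta d / 2) * k = 0 by ring, Real.rpow_zero]
        calc c * (2 / x) ^ k = (2 / x) ^ k * c * ((2:ℝ) ^ (eta d / 2 * k) * 2 ^ (-(eta d / 2) * k)) := by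
              rw [this]; ring
          _ = _ := by ring
      rw [← hx, ← hc, h4] at h2
      exact le_of_mul_le_mul_left h2 (hΛ0 k)
    rw [← ENNReal.ofReal_toReal (measure_ne_top (tau0 d) _)]
    exact ENNReal.ofReal_le_ofReal h3
  have hUB : (tau0 d) (⋃ k, {t | Λ (k₀ + k) ≤ EE μ (2 ^ (k₀ + k)) t}) ≤
      ENNReal.ofReal (c * b ^ k₀ / (1 - b)) := by
    refine measure_iUnion_small _ _ (by positivity) hb0.le hb1 fun k => ?_
    refine (hBk (k₀ + k)).trans (le_of_eq ?_)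
    rw [pow_add, mul_assoc]
  have hUBlt : (tau0 d) (⋃ k, {t | Λ (k₀ + k) ≤ EE μ (2 ^ (k₀ + k)) t}) < (tau0 d) univ := by
    refine lt_of_le_of_lt hUB ?_
    rw [← ENNReal.ofReal_toReal (measure_ne_top (tau0 d) univ)]
    have hτ' : 0 < ((tau0 d) univ).toReal := hτ
    rw [ENNReal.ofReal_lt_ofReal_iff hτ']
    rw [lt_div_iff₀ hc0] at hsmC
    calc c * b ^ k₀ / (1 - b) = b ^ k₀ / (1 - b) * c := by ring
      _ < _ := hsmC
  have haet : ∀ᵐ t ∂(tau0 d), ∀ i, t i ∈ Icc (1:ℝ) 2 := by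
    rw [ae_all_iff]
    intro i
    have h1 : ∀ᵐ y ∂lam, y ∈ Icc (1:ℝ) 2 := by
      rw [ae_iff]
      exact lam_compl
    exact (Measure.quasiMeasurePreserving_eval (fun _ : Fin (d + 1) => lam) i).ae h1
  obtain ⟨t, ht1, ht2⟩ : ∃ t : Fin (d + 1) → ℝ, (∀ i, t i ∈ Icc (1:ℝ) 2) ∧
      ∀ k, EE μ (2 ^ (k₀ + k)) t < Λ (k₀ + k) := by
    by_contra hcon
    push Not at hcon
    have h1 : (tau0 d) univ ≤ (tau0 d) ({t | ¬ ∀ i, t i ∈ Icc (1:ℝ) 2} ∪
        ⋃ k, {t | Λ (k₀ + k) ≤ EE μ (2 ^ (k₀ + k)) t}) := by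
      refine measure_mono fun t _ => ?_
      by_cases h : ∀ i, t i ∈ Icc (1:ℝ) 2
      · right
        obtain ⟨k, hk⟩ := hcon t h
        exact Set.mem_iUnion.mpr ⟨k, hk⟩
      · left; exact h
    have h2 := h1.trans (measure_union_le _ _)
    rw [ae_iff.mp haet, zero_add] at h2
    exact absurd h2 (not_le.mpr hUBlt)
  -- the good T
  set ρ : ℕ → ℝ := fun k => Real.sqrt (2 ^ k * Λ k) / (((2 ^ k : ℕ) : ℝ) ^ (aa d / 2) * 2 ^ (eta d * k))
    with hρ
  have hρb : ∀ k, ρ k ≤ b ^ k := by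
    intro k
    have e1 : (2:ℝ) ^ k * Λ k = 2 ^ ((2 - s * (d + 1) + eta d / 2) * k) := by
      rw [hΛ]
      simp only
      rw [div_pow, hx, ← Real.rpow_natCast (2 ^ (s * (d + 1))) k, ← Real.rpow_mul (by norm_num),
        ← Real.rpow_natCast 2 k, ← Real.rpow_sub (by norm_num), ← Real.rpow_add (by norm_num),
        ← Real.rpow_add (by norm_num)]
      congr 1
      ring
    have e2 : Real.sqrt (2 ^ k * Λ k) = 2 ^ ((2 - s * (d + 1) + eta d / 2) / 2 * k) := by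
      rw [e1, Real.sqrt_eq_rpow, ← Real.rpow_mul (by norm_num)]
      congr 1
      ring
    have e3 : ((2 ^ k : ℕ) : ℝ) ^ (aa d / 2) = 2 ^ (aa d / 2 * k) := by
      push_cast
      rw [← Real.rpow_natCast, ← Real.rpow_mul (by norm_num), mul_comm]
    rw [hρ, hbk]
    simp only
    rw [e2, e3, ← Real.rpow_add (by norm_num), ← Real.rpow_sub (by norm_num)]
    apply Real.rpow_le_rpow_of_exponent_le (by norm_num)
    have h1 : (2 - s * (d + 1) + eta d / 2) / 2 * k - (aa d / 2 * k + eta d * k) =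
        (eps d * (d + 1) / 2 - 3 / 4 * eta d) * k := by
      have : s * (d + 1) = 2 - aa d - eps d * (d + 1) := by
        rw [hs, sub_mul, had]
      rw [this]
      ring
    rw [h1]
    have h2 : eps d * (d + 1) ≤ eta d / 2 := by
      unfold eps
      rw [div_mul_eq_mul_div, div_le_div_iff₀ (by positivity) (by norm_num)]
      nlinarith
    have h3 : (0:ℝ) ≤ k := Nat.cast_nonneg _
    nlinarith
  have hTk : ∀ k, volume {T : ℝ | T ∈ Ico (1:ℝ) 2 ∧ ∃ q : ℝ, 15 * ρ (k₀ + k) <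
      |gg μ (2 * (2 ^ (k₀ + k))) T t q - gg μ (2 ^ (k₀ + k)) T t q|} ≤
      ENNReal.ofReal (b ^ k₀ * b ^ k) := by
    intro k
    obtain ⟨h1, h2, h3⟩ := hcond (k₀ + k) (Nat.le_add_right _ _)
    have h4 := bad_T (d := d) hμ hC hs0 hsa ha0 ha1 h1 hF (N := 2 ^ (k₀ + k)) (by positivity) h2 h3 t
      (L := Real.sqrt (2 ^ (k₀ + k) * Λ (k₀ + k))) (Real.sqrt_nonneg _) (by
        rw [Real.sq_sqrt (by have := hΛ0 (k₀ + k); positivity)]
        push_cast
        exact mul_le_mul_of_nonneg_left (ht2 k).le (by positivity))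
    push_cast at h4 ⊢
    rw [hρ]
    simp only
    push_cast
    refine h4.trans (ENNReal.ofReal_le_ofReal ?_)
    rw [← pow_add, hbk, one_div, ← Real.rpow_neg (by norm_num)]
    apply Real.rpow_le_rpow_of_exponent_le (by norm_num)
    have h5 : (0:ℝ) ≤ ((k₀ + k : ℕ) : ℝ) := Nat.cast_nonneg _
    push_cast at h5 ⊢
    nlinarith
  obtain ⟨T, hT1, hT2⟩ : ∃ T ∈ Ico (1:ℝ) 2, ∀ k, ∀ q : ℝ,
      |gg μ (2 * (2 ^ (k₀ + k))) T t q - gg μ (2 ^ (k₀ + k)) T t q| ≤ 15 * ρ (k₀ + k) := by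
    by_contra hcon
    push Not at hcon
    have h1 : volume (Ico (1:ℝ) 2) ≤ volume (⋃ k, {T : ℝ | T ∈ Ico (1:ℝ) 2 ∧ ∃ q : ℝ, 15 * ρ (k₀ + k) <
        |gg μ (2 * (2 ^ (k₀ + k))) T t q - gg μ (2 ^ (k₀ + k)) T t q|}) := by
      refine measure_mono fun T hT => ?_
      obtain ⟨k, q, hkq⟩ := hcon T hT
      exact Set.mem_iUnion.mpr ⟨k, hT, q, hkq⟩
    have h2 := h1.trans (measure_iUnion_small _ _ (by positivity) hb0.le hb1 hTk)
    rw [Real.volume_Ico, show (2:ℝ) - 1 = 1 by norm_num] at h2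
    rw [ENNReal.ofReal_le_ofReal_iff (by positivity)] at h2
    linarith
  refine ⟨k₀, T, hT1, t, ht1, b, hb0, hb1, ?_, fun k q => ?_⟩
  · have : 15 * b ^ k₀ / (1 - b) = 15 * (b ^ k₀ / (1 - b)) := by ring
    rw [this]
    linarith
  · have h1 := hT2 k q
    rw [pow_succ, mul_comm (2 ^ (k₀ + k)) (2:ℝ)]
    refine h1.trans ?_
    have h2 := hρb (k₀ + k)
    rw [pow_add] at h2
    linarith

end

end Pool.Agent.D0H31.DS
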