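import Pool.Agent.D0H31.DS.Diff2

/-! # Good slopes -/

set_option autoImplicit false

open MeasureTheory Set

namespace Pool.Agent.D0H31.DS

noncomputable section

variable {d : ℕ}

theorem lemma_M' {N : ℕ} (hN : 0 < N) {K a : ℝ} (ha0 : 0 < a) (ha1 : a < 1) (hK : 10 ≤ K)
    (hNg : (128 * K ^ 10) ^ 46 * (128 * K ^ 10) ^ (22 / (1 - a)) ≤ (N:ℝ) ^ (a * (1 - a) / 2))
    {m : ℕ → ℝ} (hm : ∀ j, 0 ≤ m j) (hm1 : ∑ j ∈ Finset.range (N + 1), m j ≤ 1)
    (hFr : ∀ c R : ℝ, 1 ≤ R → ∑ j ∈ (Finset.range (N + 1)).filter (fun j : ℕ => |(j:ℝ) - c| ≤ R), m j ≤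
      K * (R ^ a / (N:ℝ) ^ a))
    {F : ℤ → ℝ} {L : ℝ} (hL : 0 ≤ L) (hL2 : ∀ S : Finset ℤ, ∑ i ∈ S, F i ^ 2 ≤ L ^ 2)
    {T : Finset ℕ} (hT : ∀ k ∈ T, N ≤ k ∧ k ≤ 2 * N)
    (hq : ∀ k ∈ T, ∃ q : ℝ, L / ((N:ℝ) ^ (a / 2) * K) <
      ∑ j ∈ Finset.range (N + 1), m j * F ⌊q - kap N k * j⌋) :
    (T.card : ℝ) ≤ N / K := by
  classical
  choose! q hq using hq
  set S : Finset ℤ := T.biUnion fun k => (Finset.range (N + 1)).image fun j => cell N q k j with hS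
  refine lemma_M hN ha0 ha1 hK hNg hm hm1 hFr (F := fun i => if i ∈ S then F i else 0) (S := S)
    (fun i hi => if_neg hi) hL ?_ (q := q) hT ?_
  · refine le_trans (le_of_eq ?_) (hL2 S)
    exact Finset.sum_congr rfl fun i hi => by rw [if_pos hi]
  · intro k hk
    refine lt_of_lt_of_eq (hq k hk) ?_
    refine Finset.sum_congr rfl fun j hj => ?_
    have hmem : cell N q k j ∈ S := by
      rw [hS, Finset.mem_biUnion]
      exact ⟨k, hk, Finset.mem_image_of_mem _ hj⟩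
    rw [if_pos hmem]
    rfl

variable {μ : Measure ℝ} [IsProbabilityMeasure μ]

lemma cells_disjoint {N : ℕ} (hN : 0 < N) (S : Set ℕ) :
    S.PairwiseDisjoint fun j : ℕ => Ico ((j:ℝ) / N) (((j:ℝ) + 1) / N) := by
  have hN' : (0:ℝ) < N := by exact_mod_cast hN
  intro i _ j _ hij
  rw [Function.onFun, Set.disjoint_left]
  intro y hy1 hy2
  apply hij
  rw [mem_Ico, div_le_iff₀ hN', lt_div_iff₀ hN'] at hy1 hy2
  have h1 : (i:ℝ) < j + 1 := by linarith [hy1.1, hy2.2]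
  have h2 : (j:ℝ) < i + 1 := by linarith [hy2.1, hy1.2]
  have h3 : i < j + 1 := by exact_mod_cast h1
  have h4 : j < i + 1 := by exact_mod_cast h2
  omega

lemma mm_sum_le {N : ℕ} (hN : 0 < N) (S : Finset ℕ) {B : Set ℝ}
    (hB : ∀ j ∈ S, Ico ((j:ℝ) / N) (((j:ℝ) + 1) / N) ⊆ B) :
    ∑ j ∈ S, mm μ N j ≤ μ.real B := by
  unfold mm
  rw [← measureReal_biUnion_finset (cells_disjoint hN _) (fun _ _ => measurableSet_Ico)]
  exact measureReal_mono (Set.iUnion₂_subset hB)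

lemma mm_sum_one {N : ℕ} (hN : 0 < N) : ∑ j ∈ Finset.range (N + 1), mm μ N j ≤ 1 := by
  rw [← probReal_univ (μ := μ)]
  exact mm_sum_le hN _ fun _ _ => Set.subset_univ _

lemma mm_frost {C s a K : ℝ} (hC : 0 ≤ C) (hs0 : 0 ≤ s) (hsa : s ≤ a) (ha1 : a ≤ 1)
    (hF : ∀ z r : ℝ, 0 < r → μ (Metric.closedBall z r) ≤ ENNReal.ofReal (C * r ^ s))
    {N : ℕ} (hN : 0 < N) (hK : 2 * C * (N:ℝ) ^ (a - s) ≤ K) (c R : ℝ) (hR : 1 ≤ R) :
    ∑ j ∈ (Finset.range (N + 1)).filter (fun j : ℕ => |(j:ℝ) - c| ≤ R), mm μ N j ≤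
      K * (R ^ a / (N:ℝ) ^ a) := by
  have hN' : (0:ℝ) < N := by exact_mod_cast hN
  have hR0 : 0 < R := by linarith
  have h1 := mm_sum_le (μ := μ) hN ((Finset.range (N + 1)).filter (fun j : ℕ => |(j:ℝ) - c| ≤ R))
    (B := Metric.closedBall (c / N) (2 * R / N)) (by
      intro j hj x hx
      have hj2 := abs_le.mp (Finset.mem_filter.mp hj).2
      rw [mem_Ico, div_le_iff₀ hN', lt_div_iff₀ hN'] at hx
      rw [Metric.mem_closedBall, Real.dist_eq]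
      have e : x - c / N = (x * N - c) / N := by field_simp
      rw [e, abs_div, abs_of_pos hN']
      gcongr
      rw [abs_le]
      constructor <;> linarith [hx.1, hx.2, hj2.1, hj2.2])
  refine h1.trans ?_
  rw [measureReal_def]
  refine ENNReal.toReal_le_of_le_ofReal (by
    have : 0 ≤ 2 * C * (N:ℝ) ^ (a - s) := by positivity
    have hK0 : 0 ≤ K := this.trans hK
    positivity) ?_
  refine (hF _ _ (by positivity)).trans (ENNReal.ofReal_le_ofReal ?_)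
  have e1 : (2 * R / N) ^ s = 2 ^ s * R ^ s / (N:ℝ) ^ s := by
    rw [Real.div_rpow (by positivity) hN'.le, Real.mul_rpow (by norm_num) hR0.le]
  have e2 : (2:ℝ) ^ s ≤ 2 := by
    calc (2:ℝ) ^ s ≤ 2 ^ (1:ℝ) := Real.rpow_le_rpow_of_exponent_le (by norm_num) (hsa.trans ha1)
      _ = 2 := Real.rpow_one 2
  have e3 : R ^ s ≤ R ^ a := Real.rpow_le_rpow_of_exponent_le hR hsa
  have e4 : (N:ℝ) ^ (a - s) = (N:ℝ) ^ a / (N:ℝ) ^ s := Real.rpow_sub hN' a s
  calc C * (2 * R / N) ^ s = C * (2 ^ s * R ^ s / (N:ℝ) ^ s) := by rw [e1]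
    _ ≤ C * (2 * R ^ a / (N:ℝ) ^ s) := by gcongr
    _ = 2 * C * (N:ℝ) ^ (a - s) * (R ^ a / (N:ℝ) ^ a) := by
        rw [e4]
        field_simp
    _ ≤ K * (R ^ a / (N:ℝ) ^ a) := by gcongr

/-- the set of bad slopes is small -/
theorem bad_T (hμ : μ (Icc (0:ℝ) 1)ᶜ = 0) {C s a K : ℝ} (hC : 0 ≤ C) (hs0 : 0 ≤ s) (hsa : s ≤ a)
    (ha0 : 0 < a) (ha1 : a < 1) (hK : 10 ≤ K)
    (hF : ∀ z r : ℝ, 0 < r → μ (Metric.closedBall z r) ≤ ENNReal.ofReal (C * r ^ s))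
    {N : ℕ} (hN : 0 < N) (hKF : 2 * C * (N:ℝ) ^ (a - s) ≤ K)
    (hNg : (128 * K ^ 10) ^ 46 * (128 * K ^ 10) ^ (22 / (1 - a)) ≤ (N:ℝ) ^ (a * (1 - a) / 2))
    (t : Fin (d + 1) → ℝ) {L : ℝ} (hL : 0 ≤ L) (hE : N * EE μ N t ≤ L ^ 2) :
    volume {T : ℝ | T ∈ Ico (1:ℝ) 2 ∧ ∃ q : ℝ, 15 * (L / ((N:ℝ) ^ (a / 2) * K)) <
      |gg μ (2 * N) T t q - gg μ N T t q|} ≤ ENNReal.ofReal (1 / K) := by
  classical
  have hN' : (0:ℝ) < N := by exact_mod_cast hN
  have hK0 : 0 < K := by linarith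
  set ρ : ℝ := L / ((N:ℝ) ^ (a / 2) * K) with hρ
  set Bad : Finset ℕ := (Finset.Icc N (2 * N)).filter fun k => ∃ q : ℝ, ρ <
      ∑ j ∈ Finset.range (N + 1), mm μ N j * UU μ N t ⌊q - kap N k * j⌋ with hBad
  have hcard : (Bad.card : ℝ) ≤ N / K :=
    lemma_M' hN ha0 ha1 hK hNg (fun j => mm_nonneg N j) (mm_sum_one hN)
      (fun c R hR => mm_frost hC hs0 hsa ha1.le hF hN hKF c R hR) hL
      (fun S => (UU_l2 hN t S).trans hE) (T := Bad)
      (fun k hk => Finset.mem_Icc.mp (Finset.mem_filter.mp hk).1)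
      (fun k hk => (Finset.mem_filter.mp hk).2)
  have hsub : {T : ℝ | T ∈ Ico (1:ℝ) 2 ∧ ∃ q : ℝ, 15 * ρ < |gg μ (2 * N) T t q - gg μ N T t q|} ⊆
      ⋃ k ∈ Bad, Ico ((k:ℝ) / N) (((k:ℝ) + 1) / N) := by
    rintro T ⟨hT, q, hq⟩
    have hNT : 0 ≤ N * T := mul_nonneg hN'.le (by linarith [hT.1])
    set k : ℕ := ⌊N * T⌋₊ with hk
    have hk1 : (k:ℝ) ≤ N * T := Nat.floor_le hNT
    have hk2 : N * T < k + 1 := Nat.lt_floor_add_one _
    rw [Set.mem_iUnion₂]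
    refine ⟨k, ?_, ?_⟩
    · rw [hBad, Finset.mem_filter]
      constructor
      · rw [Finset.mem_Icc]
        constructor
        · rw [hk]
          apply Nat.le_floor
          nlinarith [hT.1]
        · have : (k:ℝ) ≤ (2 * N : ℕ) := by
            push_cast
            nlinarith [hT.2]
          exact_mod_cast this
      · by_contra hcon
        push Not at hcon
        have h1 := gg_diff hμ hN t (T := T) (by linarith [hT.1]) hT.2.le (k := k)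
          (by unfold kap; rw [div_le_iff₀ hN']; linarith)
          (by
            unfold kap
            rw [← add_div, le_div_iff₀ hN']
            linarith) q
        have h2 : 3 * ∑ l ∈ Finset.range 5, ∑ j ∈ Finset.range (N + 1),
            mm μ N j * UU μ N t ⌊(N * q - 3 + l) - kap N k * j⌋ ≤ 3 * ∑ _l ∈ Finset.range 5, ρ := by
          refine mul_le_mul_of_nonneg_left (Finset.sum_le_sum fun l _ => ?_) (by norm_num)
          exact hcon _
        rw [Finset.sum_const, Finset.card_range, nsmul_eq_mul] at h2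
        push_cast at h2
        linarith
    · rw [mem_Ico, div_le_iff₀ hN', lt_div_iff₀ hN']
      constructor <;> linarith
  refine (measure_mono hsub).trans ?_
  refine (measure_biUnion_finset_le _ _).trans ?_
  have hvol : ∀ k : ℕ, volume (Ico ((k:ℝ) / N) (((k:ℝ) + 1) / N)) = ENNReal.ofReal (1 / N) := by
    intro k
    rw [Real.volume_Ico]
    congr 1
    ring
  simp only [hvol]
  rw [Finset.sum_const, nsmul_eq_mul, ← ENNReal.ofReal_natCast, ← ENNReal.ofReal_mul (by positivity)]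
  refine ENNReal.ofReal_le_ofReal ?_
  calc (Bad.card : ℝ) * (1 / N) ≤ N / K * (1 / N) := by gcongr
    _ = 1 / K := by field_simp

end

end Pool.Agent.D0H31.DS
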