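import Pool.Agent.D0H31.DS.PathCount

/-! # Upper bound for the number of paths: general part -/

set_option autoImplicit false

open Finset

namespace Pool.Agent.D0H31.DS

section abstract

variable {ι α β : Type} {T : Finset ι} {X : Finset α} {Y : Finset β}

lemma push_le_one {M : α → β → ℝ} (hM : ∀ x y, 0 ≤ M x y) (hr : ∀ x, ∑ y ∈ Y, M x y ≤ 1)
    {f : β → ℝ} (hf : ∀ y ∈ Y, f y ≤ 1) (x : α) : push Y M f x ≤ 1 := by
  refine le_trans (Finset.sum_le_sum fun y hy => mul_le_mul_of_nonneg_left (hf y hy) (hM x y)) ?_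
  simpa using hr x

lemma pull_le_one {M : α → β → ℝ} (hM : ∀ x y, 0 ≤ M x y) (hc : ∀ y, ∑ x ∈ X, M x y ≤ 1)
    {f : α → ℝ} (hf : ∀ x ∈ X, f x ≤ 1) (y : β) : pull X M f y ≤ 1 := by
  refine le_trans (Finset.sum_le_sum fun x hx => mul_le_mul_of_nonneg_left (hf x hx) (hM x y)) ?_
  simpa using hc y

lemma sum_push_le {M : α → β → ℝ} (hc : ∀ y, ∑ x ∈ X, M x y ≤ 1)
    {f : β → ℝ} (hf : ∀ y ∈ Y, 0 ≤ f y) : ∑ x ∈ X, push Y M f x ≤ ∑ y ∈ Y, f y := by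
  unfold push
  rw [Finset.sum_comm]
  refine Finset.sum_le_sum fun y hy => ?_
  rw [← Finset.sum_mul]
  calc (∑ x ∈ X, M x y) * f y ≤ 1 * f y := mul_le_mul_of_nonneg_right (hc y) (hf y hy)
    _ = f y := one_mul _

lemma sum_pull_le {M : α → β → ℝ} (hr : ∀ x, ∑ y ∈ Y, M x y ≤ 1)
    {f : α → ℝ} (hf : ∀ x ∈ X, 0 ≤ f x) : ∑ y ∈ Y, pull X M f y ≤ ∑ x ∈ X, f x := by
  unfold pull
  rw [Finset.sum_comm]
  refine Finset.sum_le_sum fun x hx => ?_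
  rw [← Finset.sum_mul]
  calc (∑ y ∈ Y, M x y) * f x ≤ 1 * f x := mul_le_mul_of_nonneg_right (hr x) (hf x hx)
    _ = f x := one_mul _

/-- Expansion of the number of pairs of paths. -/
lemma N6_eq (e : ι → α → β → ℝ) :
    ∑ r ∈ T, ∑ s ∈ T, ∑ s' ∈ T, ∑ x ∈ X, cnt T X Y e r s s' x ^ 2 =
    ∑ s ∈ T, ∑ s' ∈ T, ∑ t ∈ T, ∑ t' ∈ T, ∑ r ∈ T, ∑ x ∈ X,
      P5 X Y e r s s' t (fun _ => 1) x * P5 X Y e r s s' t' (fun _ => 1) x := by
  have h1 : ∀ r s s' x, cnt T X Y e r s s' x ^ 2 = ∑ t ∈ T, ∑ t' ∈ T,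
      P5 X Y e r s s' t (fun _ => 1) x * P5 X Y e r s s' t' (fun _ => 1) x := by
    intro r s s' x
    rw [cnt, sq, Finset.sum_mul_sum]
  simp only [h1]
  rw [Finset.sum_comm]
  refine Finset.sum_congr rfl fun s _ => ?_
  rw [Finset.sum_comm]
  refine Finset.sum_congr rfl fun s' _ => ?_
  calc ∑ r ∈ T, ∑ x ∈ X, ∑ t ∈ T, ∑ t' ∈ T,
        P5 X Y e r s s' t (fun _ => 1) x * P5 X Y e r s s' t' (fun _ => 1) x
      = ∑ r ∈ T, ∑ t ∈ T, ∑ x ∈ X, ∑ t' ∈ T,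
        P5 X Y e r s s' t (fun _ => 1) x * P5 X Y e r s s' t' (fun _ => 1) x :=
        Finset.sum_congr rfl fun r _ => Finset.sum_comm
    _ = ∑ r ∈ T, ∑ t ∈ T, ∑ t' ∈ T, ∑ x ∈ X,
        P5 X Y e r s s' t (fun _ => 1) x * P5 X Y e r s s' t' (fun _ => 1) x :=
        Finset.sum_congr rfl fun r _ => Finset.sum_congr rfl fun t _ => Finset.sum_comm
    _ = ∑ t ∈ T, ∑ r ∈ T, ∑ t' ∈ T, ∑ x ∈ X,
        P5 X Y e r s s' t (fun _ => 1) x * P5 X Y e r s s' t' (fun _ => 1) x := Finset.sum_comm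
    _ = _ := Finset.sum_congr rfl fun t _ => Finset.sum_comm

variable {e : ι → α → β → ℝ}

lemma P5_nonneg (he : ∀ k x y, 0 ≤ e k x y) (r s s' t : ι) {f : β → ℝ} (hf : ∀ y ∈ Y, 0 ≤ f y)
    (x : α) : 0 ≤ P5 X Y e r s s' t f x := by
  unfold P5
  exact push_nonneg (he t) (fun _ _ => pull_nonneg (he s') (fun _ _ => push_nonneg (he s)
    (fun _ _ => pull_nonneg (he t) (fun _ _ => push_nonneg (he r) hf _) _) _) _) _

lemma P5_le_one (he : ∀ k x y, 0 ≤ e k x y) (hc : ∀ k y, ∑ x ∈ X, e k x y ≤ 1)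
    {r s s' t : ι} (hr : ∀ x, ∑ y ∈ Y, e r x y ≤ 1) (hs : ∀ x, ∑ y ∈ Y, e s x y ≤ 1)
    (ht : ∀ x, ∑ y ∈ Y, e t x y ≤ 1)
    {f : β → ℝ} (hf1 : ∀ y ∈ Y, f y ≤ 1) (x : α) : P5 X Y e r s s' t f x ≤ 1 := by
  unfold P5
  exact push_le_one (he t) ht (fun _ _ => pull_le_one (he s') (hc s') (fun _ _ => push_le_one (he s)
    hs (fun _ _ => pull_le_one (he t) (hc t) (fun _ _ => push_le_one (he r) hr hf1 _) _) _) _) _

lemma sum_P5_le (he : ∀ k x y, 0 ≤ e k x y) (hc : ∀ k y, ∑ x ∈ X, e k x y ≤ 1)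
    {r s s' t : ι} (hs' : ∀ x, ∑ y ∈ Y, e s' x y ≤ 1)
    (ht : ∀ x, ∑ y ∈ Y, e t x y ≤ 1)
    {f : β → ℝ} (hf : ∀ y ∈ Y, 0 ≤ f y) : ∑ x ∈ X, P5 X Y e r s s' t f x ≤ ∑ y ∈ Y, f y := by
  unfold P5
  have n1 : ∀ x ∈ X, 0 ≤ push Y (e r) f x := fun x _ => push_nonneg (he r) hf x
  have n2 : ∀ y ∈ Y, 0 ≤ pull X (e t) (push Y (e r) f) y := fun y _ => pull_nonneg (he t) n1 y
  have n3 : ∀ x ∈ X, 0 ≤ push Y (e s) (pull X (e t) (push Y (e r) f)) x :=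
    fun x _ => push_nonneg (he s) n2 x
  have n4 : ∀ y ∈ Y, 0 ≤ pull X (e s') (push Y (e s) (pull X (e t) (push Y (e r) f))) y :=
    fun y _ => pull_nonneg (he s') n3 y
  exact (sum_push_le (hc t) n4).trans ((sum_pull_le hs' n3).trans ((sum_push_le (hc s) n2).trans
    ((sum_pull_le ht n1).trans (sum_push_le (hc r) hf))))

/-- bound 1 -/
lemma M_le_one (he : ∀ k x y, 0 ≤ e k x y) (hc : ∀ k y, ∑ x ∈ X, e k x y ≤ 1)
    (hr : ∀ k ∈ T, ∀ x, ∑ y ∈ Y, e k x y ≤ 1) {s s' t t' : ι} (hs : s ∈ T) (hs' : s' ∈ T)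
    (ht : t ∈ T) (ht' : t' ∈ T) :
    ∑ r ∈ T, ∑ x ∈ X, P5 X Y e r s s' t (fun _ => 1) x * P5 X Y e r s s' t' (fun _ => 1) x ≤
      T.card * Y.card := by
  calc ∑ r ∈ T, ∑ x ∈ X, P5 X Y e r s s' t (fun _ => 1) x * P5 X Y e r s s' t' (fun _ => 1) x
      ≤ ∑ r ∈ T, ∑ x ∈ X, P5 X Y e r s s' t (fun _ => 1) x * 1 := by
        refine Finset.sum_le_sum fun r hrT => Finset.sum_le_sum fun x _ => ?_
        exact mul_le_mul_of_nonneg_left (P5_le_one he hc (hr r hrT) (hr s hs) (hr t' ht')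
          (fun _ _ => le_rfl) x) (P5_nonneg he r s s' t (fun _ _ => zero_le_one) x)
    _ ≤ ∑ r ∈ T, ∑ y ∈ Y, (1 : ℝ) := by
        refine Finset.sum_le_sum fun r _ => ?_
        simp only [mul_one]
        exact sum_P5_le he hc (hr s' hs') (hr t ht) (fun _ _ => zero_le_one)
    _ = _ := by simp

lemma P5_single [DecidableEq β] (r s s' t : ι) (x : α) :
    P5 X Y e r s s' t (fun _ => 1) x =
      ∑ z ∈ Y, P5 X Y e r s s' t (fun y => if y = z then 1 else 0) x := by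
  unfold P5
  rw [push_sum']
  congr 1; funext y
  rw [pull_sum']
  congr 1; funext y
  rw [push_sum']
  congr 1; funext y
  rw [pull_sum']
  congr 1; funext y
  rw [push_sum']
  unfold push
  refine Finset.sum_congr rfl fun y hy => ?_
  have : ∑ k ∈ Y, (if y = k then (1 : ℝ) else 0) = 1 := by rw [Finset.sum_ite_eq, if_pos hy]
  simp only [this]

lemma P5_support [DecidableEq β] {r s s' t : ι} {z : β} {x : α}
    (h : P5 X Y e r s s' t (fun y => if y = z then 1 else 0) x ≠ 0) :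
    ∃ y1 ∈ Y, ∃ x' ∈ X, ∃ y0 ∈ Y, ∃ x0 ∈ X, e t x y1 ≠ 0 ∧ e s' x' y1 ≠ 0 ∧ e s x' y0 ≠ 0 ∧
      e t x0 y0 ≠ 0 ∧ e r x0 z ≠ 0 := by
  unfold P5 at h
  unfold push at h
  obtain ⟨y1, hy1, h⟩ := Finset.exists_ne_zero_of_sum_ne_zero h
  have h1 := left_ne_zero_of_mul h
  replace h := right_ne_zero_of_mul h
  unfold pull at h
  obtain ⟨x', hx', h⟩ := Finset.exists_ne_zero_of_sum_ne_zero h
  have h2 := left_ne_zero_of_mul h
  replace h := right_ne_zero_of_mul h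
  obtain ⟨y0, hy0, h⟩ := Finset.exists_ne_zero_of_sum_ne_zero h
  have h3 := left_ne_zero_of_mul h
  replace h := right_ne_zero_of_mul h
  obtain ⟨x0, hx0, h⟩ := Finset.exists_ne_zero_of_sum_ne_zero h
  have h4 := left_ne_zero_of_mul h
  replace h := right_ne_zero_of_mul h
  obtain ⟨z', hz', h⟩ := Finset.exists_ne_zero_of_sum_ne_zero h
  have h5 := left_ne_zero_of_mul h
  replace h := right_ne_zero_of_mul h
  have hz : z' = z := by
    by_contra hne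
    exact h (if_neg hne)
  subst hz
  exact ⟨y1, hy1, x', hx', y0, hy0, x0, hx0, h1, h2, h3, h4, h5⟩

/-- bound 2 -/
lemma M_le_pairs [DecidableEq β] (he : ∀ k x y, 0 ≤ e k x y) (hc : ∀ k y, ∑ x ∈ X, e k x y ≤ 1)
    (hr : ∀ k ∈ T, ∀ x, ∑ y ∈ Y, e k x y ≤ 1) {s s' t t' : ι} (hs : s ∈ T) (hs' : s' ∈ T)
    (ht : t ∈ T) (ht' : t' ∈ T) (Rel : ι → β → β → Prop) [∀ r z z', Decidable (Rel r z z')]
    (hRel : ∀ r ∈ T, ∀ z ∈ Y, ∀ z' ∈ Y, ∀ x ∈ X,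
      P5 X Y e r s s' t (fun y => if y = z then 1 else 0) x ≠ 0 →
      P5 X Y e r s s' t' (fun y => if y = z' then 1 else 0) x ≠ 0 → Rel r z z') :
    ∑ r ∈ T, ∑ x ∈ X, P5 X Y e r s s' t (fun _ => 1) x * P5 X Y e r s s' t' (fun _ => 1) x ≤
      ∑ r ∈ T, ∑ z ∈ Y, ∑ z' ∈ Y, if Rel r z z' then (1 : ℝ) else 0 := by
  refine Finset.sum_le_sum fun r hrT => ?_
  have h1 : ∀ x, P5 X Y e r s s' t (fun _ => 1) x * P5 X Y e r s s' t' (fun _ => 1) x =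
      ∑ z ∈ Y, ∑ z' ∈ Y, P5 X Y e r s s' t (fun y => if y = z then 1 else 0) x *
        P5 X Y e r s s' t' (fun y => if y = z' then 1 else 0) x := by
    intro x
    rw [P5_single r s s' t x, P5_single r s s' t' x, Finset.sum_mul_sum]
  simp only [h1]
  rw [Finset.sum_comm]
  refine Finset.sum_le_sum fun z hz => ?_
  rw [Finset.sum_comm]
  refine Finset.sum_le_sum fun z' hz' => ?_
  have n0 : ∀ w : β, ∀ y ∈ Y, (0 : ℝ) ≤ if y = w then 1 else 0 := by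
    intro w y _; split_ifs <;> norm_num
  have n1 : ∀ w : β, ∀ y ∈ Y, (if y = w then (1 : ℝ) else 0) ≤ 1 := by
    intro w y _; split_ifs <;> norm_num
  by_cases hR : Rel r z z'
  · rw [if_pos hR]
    calc ∑ x ∈ X, P5 X Y e r s s' t (fun y => if y = z then 1 else 0) x *
          P5 X Y e r s s' t' (fun y => if y = z' then 1 else 0) x
        ≤ ∑ x ∈ X, P5 X Y e r s s' t (fun y => if y = z then 1 else 0) x * 1 := by
          refine Finset.sum_le_sum fun x _ => ?_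
          exact mul_le_mul_of_nonneg_left (P5_le_one he hc (hr r hrT) (hr s hs) (hr t' ht')
            (n1 z') x) (P5_nonneg he r s s' t (n0 z) x)
      _ ≤ ∑ y ∈ Y, if y = z then (1 : ℝ) else 0 := by
          simp only [mul_one]
          exact sum_P5_le he hc (hr s' hs') (hr t ht) (n0 z)
      _ ≤ 1 := by
          rw [Finset.sum_ite_eq', if_pos hz]
  · rw [if_neg hR]
    refine le_of_eq (Finset.sum_eq_zero fun x hx => ?_)
    by_contra hne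
    exact hR (hRel r hrT z hz z' hz' x hx (left_ne_zero_of_mul hne) (right_ne_zero_of_mul hne))

end abstract

end Pool.Agent.D0H31.DS
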